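import Pool.Agent.Helper242.RM.EDefs

set_option autoImplicit false

namespace Pool.Agent.Helper242.RM

open Module Module.End

variable {H : Type*} [NormedAddCommGroup H] [InnerProductSpace ℂ H] [CompleteSpace H]

/-- A subspace on which a compact operator is bounded below is finite-dimensional. -/
theorem finiteDimensional_of_bddBelow (S : H →L[ℂ] H) (hS : IsCompactOperator S)
    (W : Submodule ℂ H) (m : ℝ) (hm : 0 < m) (hW : ∀ v ∈ W, m * ‖v‖ ≤ ‖S v‖) :
    FiniteDimensional ℂ W := by
  have hcl : ∀ v ∈ W.topologicalClosure, m * ‖v‖ ≤ ‖S v‖ := by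
    intro v hv
    have hsub : closure (W : Set H) ⊆ {v | m * ‖v‖ ≤ ‖S v‖} :=
      closure_minimal hW (isClosed_le (continuous_const.mul continuous_norm) S.continuous.norm)
    exact hsub hv
  haveI : CompleteSpace W.topologicalClosure := W.isClosed_topologicalClosure.completeSpace_coe
  set T : W.topologicalClosure →L[ℂ] H := S.comp W.topologicalClosure.subtypeL with hT
  have hTc : IsCompactOperator T := hS.comp_clm W.topologicalClosure.subtypeL
  have hanti : AntilipschitzWith (Real.toNNReal m⁻¹) T := by
    apply AddMonoidHomClass.antilipschitz_of_bound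
    intro x
    rw [Real.coe_toNNReal _ (by positivity)]
    have h1 := hcl x x.2
    have h2 : T x = S x := rfl
    rw [h2, inv_mul_eq_div, le_div_iff₀ hm, mul_comm]
    exact h1
  have hemb := hanti.isClosedEmbedding T.uniformContinuous
  have hcomp : IsCompact (Metric.closedBall (0 : W.topologicalClosure) 1) := by
    have h1 := hemb.isCompact_preimage (hTc.isCompact_closure_image_closedBall 1)
    refine h1.of_isClosed_subset Metric.isClosed_closedBall ?_
    intro x hx
    exact subset_closure ⟨x, hx, rfl⟩
  haveI : FiniteDimensional ℂ W.topologicalClosure :=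
    FiniteDimensional.of_isCompact_closedBall ℂ one_pos hcomp
  exact Submodule.finiteDimensional_of_le W.le_topologicalClosure

end Pool.Agent.Helper242.RM
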