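import Pool.Agent.Helper242.RM.EDefs

set_option autoImplicit false

namespace Pool.Agent.Helper242.RM

open Module Module.End

variable {H : Type*} [NormedAddCommGroup H] [InnerProductSpace ℂ H] [CompleteSpace H]

theorem eposc_aux {ι : Type*} [DecidableEq ι] (s : Finset ι) (f : ι → H) (c : ι → ℂ)
    (h : ∀ i j, i ≠ j → inner ℂ (f i) (f j) = 0) :
    inner ℂ (∑ i ∈ s, f i) (∑ i ∈ s, c i • f i) = ∑ i ∈ s, c i * ((‖f i‖ ^ 2 : ℝ) : ℂ) := by
  rw [sum_inner]
  refine Finset.sum_congr rfl fun i hi => ?_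
  rw [inner_sum, Finset.sum_eq_single i]
  · rw [inner_smul_right, inner_self_eq_norm_sq_to_K]
    push_cast
    rfl
  · intro j _ hj
    rw [inner_smul_right, h i j (Ne.symm hj), mul_zero]
  · intro hcon
    exact absurd hi hcon

theorem eposc_decomp (S : H →L[ℂ] H) (hS : (S : H →ₗ[ℂ] H).IsSymmetric) (m : ℝ) (v : H)
    (hv : v ∈ Eposc S m) : ∃ (s : Finset {t : ℝ // m ≤ t}) (f : {t : ℝ // m ≤ t} → H),
      v = ∑ i ∈ s, f i ∧ (∀ i, S (f i) = (((i : ℝ) : ℂ)) • f i) ∧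
      ∀ i j, i ≠ j → inner ℂ (f i) (f j) = 0 := by
  unfold Eposc at hv
  obtain ⟨f, hf, hfv⟩ := (Submodule.mem_iSup_iff_exists_finsupp _ _).1 hv
  refine ⟨f.support, f, ?_, ?_, ?_⟩
  · rw [← hfv]
    rfl
  · intro i
    have := hf i
    rw [mem_eigenspace_iff] at this
    exact this
  · intro i j hij
    have h1 : (((i : ℝ) : ℂ)) ≠ (((j : ℝ) : ℂ)) := by
      intro hcon
      exact hij (Subtype.ext (Complex.ofReal_injective hcon))
    exact hS.orthogonalFamily_eigenspaces h1 ⟨f i, hf i⟩ ⟨f j, hf j⟩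

theorem Eposc_form (S : H →L[ℂ] H) (hS : (S : H →ₗ[ℂ] H).IsSymmetric) (m : ℝ) (v : H)
    (hv : v ∈ Eposc S m) : m * ‖v‖ ^ 2 ≤ (inner ℂ v (S v)).re := by
  classical
  obtain ⟨s, f, rfl, hSf, horth⟩ := eposc_decomp S hS m v hv
  have h1 : S (∑ i ∈ s, f i) = ∑ i ∈ s, (((i : ℝ) : ℂ)) • f i := by
    rw [map_sum]
    exact Finset.sum_congr rfl fun i _ => hSf i
  have h2 := eposc_aux s f (fun i => (((i : ℝ) : ℂ))) horth
  have h3 := eposc_aux s f (fun _ => 1) horth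
  simp only [one_smul, one_mul] at h3
  have h4 : ‖∑ i ∈ s, f i‖ ^ 2 = ∑ i ∈ s, ‖f i‖ ^ 2 := by
    rw [inner_self_eq_norm_sq_to_K] at h3
    apply Complex.ofReal_injective
    push_cast at h3 ⊢
    exact h3
  rw [h1, h2, h4, Finset.mul_sum, Complex.re_sum]
  refine Finset.sum_le_sum fun i _ => ?_
  rw [← Complex.ofReal_mul, Complex.ofReal_re]
  exact mul_le_mul_of_nonneg_right i.2 (sq_nonneg _)

theorem Eposc_bddBelow (S : H →L[ℂ] H) (hS : (S : H →ₗ[ℂ] H).IsSymmetric) (m : ℝ) (hm : 0 < m)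
    (v : H) (hv : v ∈ Eposc S m) : m * ‖v‖ ≤ ‖S v‖ := by
  have h1 := Eposc_form S hS m v hv
  have h2 : (inner ℂ v (S v)).re ≤ ‖v‖ * ‖S v‖ :=
    (Complex.re_le_norm _).trans (norm_inner_le_norm v (S v))
  by_cases h0 : ‖v‖ = 0
  · rw [h0, mul_zero]
    exact norm_nonneg _
  · have h3 : 0 < ‖v‖ := lt_of_le_of_ne (norm_nonneg _) (Ne.symm h0)
    have h4 : ‖v‖ * (m * ‖v‖) ≤ ‖v‖ * ‖S v‖ := by
      refine le_trans (le_of_eq ?_) (h1.trans h2)
      ring
    exact le_of_mul_le_mul_left h4 h3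

/-- finrank of the closed span = finrank of the open span + multiplicity -/
theorem finrank_Eposc (S : H →L[ℂ] H) (hS : (S : H →ₗ[ℂ] H).IsSymmetric) (m : ℝ)
    (hfin : FiniteDimensional ℂ (Eposc S m)) :
    finrank ℂ (Eposc S m) = finrank ℂ (Epos S m)
      + finrank ℂ (eigenspace (S : End ℂ H) ((m : ℝ) : ℂ)) := by
  have h1 : Eposc S m = Epos S m ⊔ eigenspace (S : End ℂ H) ((m : ℝ) : ℂ) := by
    apply le_antisymm
    · unfold Eposc
      refine iSup_le fun t => ?_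
      rcases t.2.eq_or_lt with h | h
      · rw [← h]
        exact le_sup_right
      · refine le_trans ?_ le_sup_left
        exact le_iSup (fun t : {t : ℝ // m < t} => eigenspace (S : End ℂ H) ((t : ℝ) : ℂ))
          ⟨t.1, h⟩
    · apply sup_le
      · unfold Epos
        refine iSup_le fun t => ?_
        exact le_iSup (fun t : {t : ℝ // m ≤ t} => eigenspace (S : End ℂ H) ((t : ℝ) : ℂ))
          ⟨t.1, t.2.le⟩
      · exact le_iSup (fun t : {t : ℝ // m ≤ t} => eigenspace (S : End ℂ H) ((t : ℝ) : ℂ))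
          ⟨m, le_rfl⟩
  have h2 : Epos S m ≤ (eigenspace (S : End ℂ H) ((m : ℝ) : ℂ))ᗮ := by
    unfold Epos
    refine iSup_le fun t => ?_
    intro v hv
    rw [Submodule.mem_orthogonal]
    intro u hu
    have h3 : ((m : ℝ) : ℂ) ≠ (((t : ℝ) : ℂ)) := by
      intro hcon
      exact absurd (Complex.ofReal_injective hcon) t.2.ne
    exact hS.orthogonalFamily_eigenspaces h3 ⟨u, hu⟩ ⟨v, hv⟩
  have h4 : Epos S m ⊓ eigenspace (S : End ℂ H) ((m : ℝ) : ℂ) = ⊥ := by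
    rw [eq_bot_iff]
    intro v hv
    have h5 := h2 hv.1
    rw [Submodule.mem_orthogonal] at h5
    have h6 := h5 v hv.2
    rw [inner_self_eq_zero] at h6
    rw [Submodule.mem_bot]
    exact h6
  haveI : FiniteDimensional ℂ (Epos S m) :=
    Submodule.finiteDimensional_of_le (h1 ▸ le_sup_left)
  haveI : FiniteDimensional ℂ (eigenspace (S : End ℂ H) ((m : ℝ) : ℂ)) :=
    Submodule.finiteDimensional_of_le (S₂ := Eposc S m) (h1 ▸ le_sup_right)
  have h7 := Submodule.finrank_sup_add_finrank_inf_eq (Epos S m)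
    (eigenspace (S : End ℂ H) ((m : ℝ) : ℂ))
  rw [h4, finrank_bot, add_zero, ← h1] at h7
  exact h7

end Pool.Agent.Helper242.RM
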