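import Pool.Agent.Helper242.RM.EDefs

set_option autoImplicit false

namespace Pool.Agent.Helper242.RM

open Module Module.End

variable {H : Type*} [NormedAddCommGroup H] [InnerProductSpace ℂ H] [CompleteSpace H]

/-- on the orthogonal complement of the eigenvectors with eigenvalue `> m` the form of a compact
symmetric operator is at most `m` -/
theorem form_le_of_orthogonal (S : H →L[ℂ] H) (hSc : IsCompactOperator S)
    (hS : (S : H →ₗ[ℂ] H).IsSymmetric) (m : ℝ) (hm : 0 < m) (v : H)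
    (hv : v ∈ (Epos S m)ᗮ) : (inner ℂ v (S v)).re ≤ m * ‖v‖ ^ 2 := by
  classical
  have hinv : ∀ x ∈ (Epos S m)ᗮ, S x ∈ (Epos S m)ᗮ := by
    intro x hx
    unfold Epos at hx ⊢
    rw [← Submodule.iInf_orthogonal, Submodule.mem_iInf] at hx ⊢
    intro t
    exact hS.invariant_orthogonalComplement_eigenspace _ x (hx t)
  let T : (Epos S m)ᗮ →L[ℂ] (Epos S m)ᗮ := S.restrict hinv
  have hTc : IsCompactOperator T := hSc.restrict' hinv
  have hTs : (T : (Epos S m)ᗮ →ₗ[ℂ] (Epos S m)ᗮ).IsSymmetric := hS.restrict_invariant hinv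
  have hTv : ∀ u : (Epos S m)ᗮ, ((T u : (Epos S m)ᗮ) : H) = S u := fun u => rfl
  have hbot := ContinuousLinearMap.orthogonalComplement_iSup_eigenspaces_eq_bot hTc hTs
  -- eigenvalues
  have hev : ∀ (μ : ℂ) (u : (Epos S m)ᗮ),
      u ∈ eigenspace (T : End ℂ (Epos S m)ᗮ) μ → μ.re * ‖u‖ ^ 2 ≤ m * ‖u‖ ^ 2 := by
    intro μ u hu
    by_cases hu0 : u = 0
    · rw [hu0, norm_zero]
      simp
    · apply mul_le_mul_of_nonneg_right _ (by positivity)
      by_contra hcon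
      push Not at hcon
      have h1 : HasEigenvalue (T : End ℂ (Epos S m)ᗮ) μ :=
        hasEigenvalue_of_hasEigenvector ⟨hu, hu0⟩
      have h2 := hTs.conj_eigenvalue_eq_self h1
      have h3 : ((μ.re : ℝ) : ℂ) = μ := Complex.conj_eq_iff_re.1 h2
      have h4 : (u : H) ∈ eigenspace (S : End ℂ H) ((μ.re : ℝ) : ℂ) := by
        rw [mem_eigenspace_iff] at hu ⊢
        rw [h3]
        have h5 := congrArg (fun w : (Epos S m)ᗮ => (w : H)) hu
        exact h5
      have h6 : (u : H) ∈ Epos S m := by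
        unfold Epos
        exact Submodule.mem_iSup_of_mem (⟨μ.re, hcon⟩ : {t : ℝ // m < t}) h4
      have h7 := (Submodule.mem_orthogonal _ _).1 u.2 u h6
      rw [inner_self_eq_zero] at h7
      exact hu0 (Subtype.ext h7)
  -- finite sums of eigenvectors
  have hfin : ∀ u : (Epos S m)ᗮ, u ∈ (⨆ μ, eigenspace (T : End ℂ (Epos S m)ᗮ) μ) →
      (inner ℂ u (T u)).re ≤ m * ‖u‖ ^ 2 := by
    intro u hu
    rw [Submodule.mem_iSup_iff_exists_finsupp] at hu
    obtain ⟨f, hf, hfu⟩ := hu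
    obtain ⟨s, hs⟩ : ∃ s, s = f.support := ⟨_, rfl⟩
    rw [Finsupp.sum, ← hs] at hfu
    have hort := hTs.orthogonalFamily_eigenspaces
    have e1 := hort.inner_sum (fun μ => (⟨f μ, hf μ⟩ : eigenspace (T : End ℂ (Epos S m)ᗮ) μ))
      (fun μ => μ • (⟨f μ, hf μ⟩ : eigenspace (T : End ℂ (Epos S m)ᗮ) μ)) s
    have e2 := hort.norm_sum (fun μ => (⟨f μ, hf μ⟩ : eigenspace (T : End ℂ (Epos S m)ᗮ) μ)) s
    have e3 : ∑ μ ∈ s, (eigenspace (T : End ℂ (Epos S m)ᗮ) μ).subtypeₗᵢ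
        (⟨f μ, hf μ⟩ : eigenspace (T : End ℂ (Epos S m)ᗮ) μ) = u := hfu
    have e4 : ∑ μ ∈ s, (eigenspace (T : End ℂ (Epos S m)ᗮ) μ).subtypeₗᵢ
        (μ • (⟨f μ, hf μ⟩ : eigenspace (T : End ℂ (Epos S m)ᗮ) μ)) = T u := by
      rw [← hfu, map_sum]
      apply Finset.sum_congr rfl
      intro μ _
      have h1 := mem_eigenspace_iff.1 (hf μ)
      exact h1.symm
    rw [e3, e4] at e1
    rw [e3] at e2
    rw [e1, Complex.re_sum, e2, Finset.mul_sum]
    apply Finset.sum_le_sum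
    intro μ _
    rw [inner_smul_right, inner_self_eq_norm_sq_to_K]
    have h2 := hev μ (f μ) (hf μ)
    have h3 : (μ * ((‖(⟨f μ, hf μ⟩ : eigenspace (T : End ℂ (Epos S m)ᗮ) μ)‖ : ℝ) : ℂ) ^ 2).re =
        μ.re * ‖f μ‖ ^ 2 := by
      rw [← Complex.ofReal_pow, Complex.re_mul_ofReal]
      rfl
    exact h3.trans_le h2
  have hdense : (⨆ μ, eigenspace (T : End ℂ (Epos S m)ᗮ) μ).topologicalClosure = ⊤ :=
    (Submodule.topologicalClosure_eq_top_iff).2 hbot
  have hall : ∀ u : (Epos S m)ᗮ, (inner ℂ u (T u)).re ≤ m * ‖u‖ ^ 2 := by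
    intro u
    have hu : u ∈ (⨆ μ, eigenspace (T : End ℂ (Epos S m)ᗮ) μ).topologicalClosure := by
      rw [hdense]
      trivial
    have hcl : IsClosed {u : (Epos S m)ᗮ | (inner ℂ u (T u)).re ≤ m * ‖u‖ ^ 2} := by
      apply isClosed_le
      · exact Complex.continuous_re.comp (continuous_id.inner T.continuous)
      · fun_prop
    exact closure_minimal (fun u hu => hfin u hu) hcl hu
  exact hall ⟨v, hv⟩

end Pool.Agent.Helper242.RM
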