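import Mathlib

set_option autoImplicit false

namespace Pool.Agent.Helper242.RM

open Module

/-- Enumeration of a set of nonzero reals which accumulates only at zero. `n x` (for `x > 0`) is the
number of elements `l` of the set with `|l| > x`. -/
theorem enumerate (A : Set ℝ) (h0 : (0 : ℝ) ∉ A) (hinj : ∀ x ∈ A, -x ∉ A)
    (hfin : ∀ m : ℝ, 0 < m → {x ∈ A | m ≤ |x|}.Finite) (hinf : A.Infinite)
    (hsign : ∀ x ∈ A, (0 < x ↔ Even ({y ∈ A | |x| < |y|}.ncard))) :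
    ∃ lam : ℕ → ℝ, (∀ j, |lam (j + 1)| < |lam j|) ∧ (∀ j, 0 < (-1 : ℝ) ^ j * lam j) ∧
      (∀ j, lam j ∈ A) ∧ (∀ x ∈ A, ∃ j, x = lam j) := by
  classical
  have hne : ∀ x ∈ A, x ≠ 0 := fun x hx h => h0 (h ▸ hx)
  obtain ⟨f, hf⟩ : ∃ f : ℝ → ℕ, ∀ x, f x = ({y ∈ A | |x| < |y|}).ncard := ⟨_, fun _ => rfl⟩
  have hfinlt : ∀ x ∈ A, ({y ∈ A | |x| < |y|}).Finite := by
    intro x hx
    refine (hfin |x| (abs_pos.mpr (hne x hx))).subset ?_
    rintro y ⟨hy, hlt⟩
    exact ⟨hy, hlt.le⟩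
  have hmono : ∀ x ∈ A, ∀ y ∈ A, |x| < |y| → f y < f x := by
    intro x hx y hy hxy
    rw [hf, hf]
    refine Set.ncard_lt_ncard ?_ (hfinlt x hx)
    refine ⟨fun z hz => ⟨hz.1, hxy.trans hz.2⟩, fun hsub => ?_⟩
    exact lt_irrefl _ (hsub (⟨hy, hxy⟩ : y ∈ {y ∈ A | |x| < |y|})).2
  have hanti : ∀ x ∈ A, ∀ y ∈ A, f y < f x → |x| < |y| := by
    intro x hx y hy h
    by_contra hcon
    rcases lt_or_eq_of_le (not_lt.mp hcon) with h1 | h1
    · exact absurd (hmono y hy x hx h1) (by omega)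
    · rw [hf, hf, h1] at h
      exact lt_irrefl _ h
  have hinj' : ∀ x ∈ A, ∀ y ∈ A, f x = f y → x = y := by
    intro x hx y hy h
    have h1 : |x| = |y| := by
      rcases lt_trichotomy |x| |y| with h1 | h1 | h1
      · exact absurd (hmono x hx y hy h1) (by omega)
      · exact h1
      · exact absurd (hmono y hy x hx h1) (by omega)
    rcases abs_eq_abs.mp h1 with h2 | h2
    · exact h2
    · exact absurd (h2 ▸ hx) (hinj y hy)
  have hsurj : ∀ n : ℕ, ∃ x ∈ A, f x = n := by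
    intro n
    have hBinj : Set.InjOn f {x ∈ A | f x < n} := fun x hx y hy h => hinj' x hx.1 y hy.1 h
    have hBim : f '' {x ∈ A | f x < n} ⊆ Set.Iio n := by
      rintro _ ⟨x, hx, rfl⟩
      exact hx.2
    have hBfin : ({x ∈ A | f x < n}).Finite :=
      Set.Finite.of_finite_image ((Set.finite_Iio n).subset hBim) hBinj
    have hBcard : ({x ∈ A | f x < n}).ncard ≤ n := by
      rw [← Set.InjOn.ncard_image hBinj]
      calc (f '' {x ∈ A | f x < n}).ncard ≤ (Set.Iio n).ncard :=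
            Set.ncard_le_ncard hBim (Set.finite_Iio n)
        _ = n := by simp [Set.ncard_eq_toFinset_card']
    obtain ⟨x0, hx0⟩ := (hinf.sdiff hBfin).nonempty
    have hCfin : ({y ∈ A \ {x ∈ A | f x < n} | |x0| ≤ |y|}).Finite :=
      (hfin |x0| (abs_pos.mpr (hne x0 hx0.1))).subset (fun y hy => ⟨hy.1.1, hy.2⟩)
    obtain ⟨x, hxC, hxmax⟩ := Set.exists_max_image _ (fun y => |y|) hCfin ⟨x0, hx0, le_refl _⟩
    have hxA : x ∈ A := hxC.1.1
    have hxn : n ≤ f x := by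
      by_contra hcon
      exact hxC.1.2 ⟨hxA, not_le.mp hcon⟩
    refine ⟨x, hxA, le_antisymm ?_ hxn⟩
    rw [hf]
    refine le_trans (Set.ncard_le_ncard ?_ hBfin) hBcard
    rintro y ⟨hyA, hlt⟩
    by_contra hcon
    have := hxmax y ⟨⟨hyA, hcon⟩, hxC.2.trans hlt.le⟩
    exact absurd hlt (not_lt.mpr this)
  choose lam hlamA hlam using hsurj
  refine ⟨lam, ?_, ?_, hlamA, ?_⟩
  · intro j
    refine hanti _ (hlamA _) _ (hlamA _) ?_
    rw [hlam, hlam]
    omega
  · intro j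
    have hs := hsign (lam j) (hlamA j)
    rw [← hf, hlam] at hs
    rcases Nat.even_or_odd j with hj | hj
    · rw [hj.neg_one_pow, one_mul]
      exact hs.mpr hj
    · rw [hj.neg_one_pow]
      have h1 : ¬ (0 < lam j) := fun h => (Nat.not_even_iff_odd.mpr hj) (hs.mp h)
      have h2 := hne _ (hlamA j)
      have h3 : lam j < 0 := lt_of_le_of_ne (not_lt.mp h1) h2
      linarith
  · intro x hx
    exact ⟨f x, hinj' x hx _ (hlamA _) (hlam _).symm⟩

end Pool.Agent.Helper242.RM
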