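import Pool.Agent.Helper242.RM.A1
import Pool.Agent.Helper242.RM.A3
import Pool.Agent.Helper242.RM.A2

set_option autoImplicit false

namespace Pool.Agent.Helper242.RM

open Module Module.End

variable {H : Type*} [NormedAddCommGroup H] [InnerProductSpace ℂ H] [CompleteSpace H]

theorem finiteDimensional_Eposc (S : H →L[ℂ] H) (hSc : IsCompactOperator S)
    (hS : (S : H →ₗ[ℂ] H).IsSymmetric) (m : ℝ) (hm : 0 < m) :
    FiniteDimensional ℂ (Eposc S m) :=
  finiteDimensional_of_bddBelow S hSc (Eposc S m) m hm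
    (fun v hv => Eposc_bddBelow S hS m hm v hv)

theorem Epos_le_Eposc (S : H →L[ℂ] H) (m : ℝ) : Epos S m ≤ Eposc S m :=
  iSup_le fun t => le_iSup_of_le (⟨t.1, t.2.le⟩ : {t : ℝ // m ≤ t}) le_rfl

theorem finiteDimensional_Epos (S : H →L[ℂ] H) (hSc : IsCompactOperator S)
    (hS : (S : H →ₗ[ℂ] H).IsSymmetric) (m : ℝ) (hm : 0 < m) :
    FiniteDimensional ℂ (Epos S m) := by
  haveI := finiteDimensional_Eposc S hSc hS m hm
  exact Submodule.finiteDimensional_of_le (Epos_le_Eposc S m)

/-- max-min principle -/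
theorem finrank_le_of_form (S : H →L[ℂ] H) (hSc : IsCompactOperator S)
    (hS : (S : H →ₗ[ℂ] H).IsSymmetric) (m : ℝ) (hm : 0 < m) (W : Submodule ℂ H)
    [FiniteDimensional ℂ W] (hW : ∀ v ∈ W, v ≠ 0 → m * ‖v‖ ^ 2 < (inner ℂ v (S v)).re) :
    finrank ℂ W ≤ finrank ℂ (Epos S m) := by
  haveI := finiteDimensional_Epos S hSc hS m hm
  by_contra hlt
  push Not at hlt
  set f : W →ₗ[ℂ] (Epos S m) :=
    ((Epos S m).orthogonalProjection : H →ₗ[ℂ] (Epos S m)) ∘ₗ W.subtype with hf
  have hker := LinearMap.ker_ne_bot_of_finrank_lt (f := f) hlt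
  obtain ⟨v, hv, hv0⟩ := Submodule.exists_mem_ne_zero_of_ne_bot hker
  have hv1 : (v : H) ∈ (Epos S m)ᗮ := by
    have h1 : (Epos S m).orthogonalProjection (v : H) = 0 := hv
    exact Submodule.orthogonalProjection_eq_zero_iff.1 h1
  have h2 := form_le_of_orthogonal S hSc hS m hm v hv1
  have h3 := hW v v.2 (by simpa using hv0)
  linarith

omit [CompleteSpace H] in
theorem form_strict_7452 {m r a b c t : ℝ} (hm : 0 < m) (hr : 0 < r) (hT : r * t ^ 2 < 1)
    (h1 : m * b ^ 2 ≤ r * c) (h2 : a ≤ t * b) (ha : 0 < a) : m * a ^ 2 < c := by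
  have hb : 0 < b ^ 2 := by
    have : b ≠ 0 := by
      rintro rfl
      simp at h2
      linarith
    positivity
  have h3 : a ^ 2 ≤ t ^ 2 * b ^ 2 := by
    calc a ^ 2 ≤ (t * b) ^ 2 := pow_le_pow_left₀ ha.le h2 2
      _ = t ^ 2 * b ^ 2 := by ring
  have h4 : r * (m * a ^ 2) < r * c := by
    calc r * (m * a ^ 2) ≤ r * (m * (t ^ 2 * b ^ 2)) := by gcongr
      _ = (m * b ^ 2) * (r * t ^ 2) := by ring
      _ < (m * b ^ 2) * 1 := by
          apply mul_lt_mul_of_pos_left hT
          positivity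
      _ ≤ r * c := by linarith
  exact lt_of_mul_lt_mul_left h4 hr.le

theorem form_identity_7452 (S T : H →L[ℂ] H) (q : H) (L0 r : ℝ)
    (hST : ∀ v, S v = (L0 : ℂ) • (inner ℂ q v) • q
      - (r : ℂ) • T (S (ContinuousLinearMap.adjoint T v))) (g : H) :
    (inner ℂ g (S g)).re = L0 * ‖inner ℂ q g‖ ^ 2 -
      r * (inner ℂ (ContinuousLinearMap.adjoint T g)
        (S (ContinuousLinearMap.adjoint T g))).re := by
  have h1 : inner ℂ g (S g) = (L0 : ℂ) * (inner ℂ q g * inner ℂ g q) -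
      (r : ℂ) * inner ℂ (ContinuousLinearMap.adjoint T g)
        (S (ContinuousLinearMap.adjoint T g)) := by
    conv_lhs => rw [hST g]
    rw [inner_sub_right, inner_smul_right, inner_smul_right, inner_smul_right,
      ContinuousLinearMap.adjoint_inner_left]
  have h2 : inner ℂ q g * inner ℂ g q = ((‖inner ℂ q g‖ ^ 2 : ℝ) : ℂ) := by
    rw [← inner_conj_symm g q, Complex.mul_conj, Complex.normSq_eq_norm_sq]
  rw [h1, h2, Complex.sub_re, Complex.re_ofReal_mul, Complex.re_ofReal_mul, Complex.ofReal_re]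

/-- first comparison: number of eigenvalues `≤ -m` is at most the number of eigenvalues `> m` -/
theorem claimA (S T : H →L[ℂ] H) (hSc : IsCompactOperator S)
    (hS : (S : H →ₗ[ℂ] H).IsSymmetric) (q : H) (L0 r : ℝ) (hL0 : 0 ≤ L0) (hr : 0 < r)
    (hT : r * ‖T‖ ^ 2 < 1)
    (hST : ∀ v, S v = (L0 : ℂ) • (inner ℂ q v) • q
      - (r : ℂ) • T (S (ContinuousLinearMap.adjoint T v))) (m : ℝ) (hm : 0 < m) :
    finrank ℂ (Eposc (-S) m) ≤ finrank ℂ (Epos S m) := by
  set E := Eposc (-S) m with hE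
  have hnS : ((-S : H →L[ℂ] H) : H →ₗ[ℂ] H).IsSymmetric := by
    intro x y
    have := hS x y
    simp only [ContinuousLinearMap.coe_coe] at this ⊢
    simp only [ContinuousLinearMap.neg_apply, inner_neg_left, inner_neg_right, this]
  have hnc : IsCompactOperator (-S : H →L[ℂ] H) := by
    have := hSc.neg
    exact this
  haveI := finiteDimensional_Eposc (-S) hnc hnS m hm
  set f : E →ₗ[ℂ] H := (ContinuousLinearMap.adjoint T : H →ₗ[ℂ] H) ∘ₗ E.subtype with hf
  have hfa : ∀ g : E, f g = ContinuousLinearMap.adjoint T (g : H) := fun g => rfl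
  have hmain : ∀ g : E, m * ‖(g : H)‖ ^ 2 ≤ r * (inner ℂ (f g) (S (f g))).re := by
    intro g
    have h1 := Eposc_form (-S) hnS m g g.2
    have h2 := form_identity_7452 S T q L0 r hST (g : H)
    rw [ContinuousLinearMap.neg_apply, inner_neg_right, Complex.neg_re] at h1
    rw [hfa]
    have h3 : 0 ≤ L0 * ‖inner ℂ q (g : H)‖ ^ 2 := by positivity
    linarith
  have hinj : Function.Injective f := by
    rw [injective_iff_map_eq_zero]
    intro g hg
    have h1 := hmain g
    rw [hg] at h1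
    simp only [map_zero, inner_zero_right, Complex.zero_re, mul_zero] at h1
    have h2 : ‖(g : H)‖ ^ 2 ≤ 0 := by
      by_contra h3
      push Not at h3
      nlinarith
    have h3 : ‖(g : H)‖ = 0 := by nlinarith [norm_nonneg (g : H)]
    exact Subtype.ext (norm_eq_zero.1 h3)
  rw [← LinearMap.finrank_range_of_inj hinj]
  refine finrank_le_of_form S hSc hS m hm (LinearMap.range f) ?_
  rintro w ⟨g, rfl⟩ hw
  have h1 := hmain g
  have h2 : ‖f g‖ ≤ ‖T‖ * ‖(g : H)‖ := by
    rw [hfa]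
    have := (ContinuousLinearMap.adjoint T).le_opNorm (g : H)
    rwa [LinearIsometryEquiv.norm_map] at this
  exact form_strict_7452 hm hr hT h1 h2 (norm_pos_iff.2 hw)

/-- second comparison: number of eigenvalues `≥ m` is at most one plus the number of
eigenvalues `< -m` -/
theorem claimB (S T : H →L[ℂ] H) (hSc : IsCompactOperator S)
    (hS : (S : H →ₗ[ℂ] H).IsSymmetric) (q : H) (L0 r : ℝ) (hL0 : 0 ≤ L0) (hr : 0 < r)
    (hT : r * ‖T‖ ^ 2 < 1)
    (hST : ∀ v, S v = (L0 : ℂ) • (inner ℂ q v) • q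
      - (r : ℂ) • T (S (ContinuousLinearMap.adjoint T v))) (m : ℝ) (hm : 0 < m) :
    finrank ℂ (Eposc S m) ≤ finrank ℂ (Epos (-S) m) + 1 := by
  set E := Eposc S m with hE
  have hnS : ((-S : H →L[ℂ] H) : H →ₗ[ℂ] H).IsSymmetric := by
    intro x y
    have := hS x y
    simp only [ContinuousLinearMap.coe_coe] at this ⊢
    simp only [ContinuousLinearMap.neg_apply, inner_neg_left, inner_neg_right, this]
  have hnc : IsCompactOperator (-S : H →L[ℂ] H) := by
    have := hSc.neg
    exact this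
  haveI := finiteDimensional_Eposc S hSc hS m hm
  set φ : E →ₗ[ℂ] ℂ := (innerSL ℂ q : H →ₗ[ℂ] ℂ) ∘ₗ E.subtype with hφ
  have hφa : ∀ g : E, φ g = inner ℂ q (g : H) := fun g => rfl
  have hdim : finrank ℂ E ≤ finrank ℂ (LinearMap.ker φ) + 1 := by
    have h1 := LinearMap.finrank_range_add_finrank_ker φ
    have h2 : finrank ℂ (LinearMap.range φ) ≤ 1 := by
      have := Submodule.finrank_le (LinearMap.range φ)
      simpa using this
    omega
  refine hdim.trans (Nat.add_le_add_right ?_ 1)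
  set f : LinearMap.ker φ →ₗ[ℂ] H :=
    (ContinuousLinearMap.adjoint T : H →ₗ[ℂ] H) ∘ₗ E.subtype ∘ₗ (LinearMap.ker φ).subtype with hf
  have hfa : ∀ g : LinearMap.ker φ, f g = ContinuousLinearMap.adjoint T ((g : E) : H) :=
    fun g => rfl
  have hmain : ∀ g : LinearMap.ker φ, m * ‖((g : E) : H)‖ ^ 2 ≤
      r * (inner ℂ (f g) ((-S) (f g))).re := by
    intro g
    have h1 := Eposc_form S hS m (g : E) (g : E).2
    have h2 := form_identity_7452 S T q L0 r hST ((g : E) : H)
    have h3 : inner ℂ q ((g : E) : H) = 0 := by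
      rw [← hφa]; exact g.2
    rw [h3] at h2
    rw [hfa, ContinuousLinearMap.neg_apply, inner_neg_right, Complex.neg_re]
    simp only [norm_zero] at h2
    linarith
  have hinj : Function.Injective f := by
    rw [injective_iff_map_eq_zero]
    intro g hg
    have h1 := hmain g
    rw [hg] at h1
    simp only [map_zero, inner_zero_right, Complex.zero_re, mul_zero] at h1
    have h2 : ‖((g : E) : H)‖ ^ 2 ≤ 0 := by
      by_contra h3
      push Not at h3
      nlinarith
    have h3 : ‖((g : E) : H)‖ = 0 := by nlinarith [norm_nonneg ((g : E) : H)]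
    exact Subtype.ext (Subtype.ext (norm_eq_zero.1 h3))
  rw [← LinearMap.finrank_range_of_inj hinj]
  refine finrank_le_of_form (-S) hnc hnS m hm (LinearMap.range f) ?_
  rintro w ⟨g, rfl⟩ hw
  have h1 := hmain g
  have h2 : ‖f g‖ ≤ ‖T‖ * ‖((g : E) : H)‖ := by
    rw [hfa]
    have := (ContinuousLinearMap.adjoint T).le_opNorm ((g : E) : H)
    rwa [LinearIsometryEquiv.norm_map] at this
  exact form_strict_7452 hm hr hT h1 h2 (norm_pos_iff.2 hw)

end Pool.Agent.Helper242.RM
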