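import Pool.Agent.Helper242.RM.A4
import Pool.Agent.Helper242.RM.A5

set_option autoImplicit false

namespace Pool.Agent.Helper242.RM

open Module Module.End

variable {H : Type*} [NormedAddCommGroup H] [InnerProductSpace ℂ H] [CompleteSpace H]

theorem A6_Epos_le (S : H →L[ℂ] H) (m : ℝ) : Epos S m ≤ Eposc S m := by
  unfold Epos Eposc
  apply iSup_le
  intro t
  exact le_iSup (fun t : {t : ℝ // m ≤ t} => eigenspace (S : End ℂ H) ((t : ℝ) : ℂ)) ⟨t.1, t.2.le⟩

/-- If all eigenvalues `> m` of `S` are simple then `finrank (Epos S m)` is their number. -/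
theorem finrank_Epos_eq_ncard (S : H →L[ℂ] H) (hSc : IsCompactOperator S)
    (hS : (S : H →ₗ[ℂ] H).IsSymmetric) (m : ℝ) (hm : 0 < m)
    (hsimple : ∀ t : ℝ, m < t → finrank ℂ (eigenspace (S : End ℂ H) (t : ℂ)) ≤ 1) :
    {t : ℝ | m < t ∧ HasEigenvalue (S : End ℂ H) (t : ℂ)}.Finite ∧
    {t : ℝ | m < t ∧ HasEigenvalue (S : End ℂ H) (t : ℂ)}.ncard = finrank ℂ (Epos S m) := by
  classical
  have hfdc := finiteDimensional_Eposc S hSc hS m hm
  have hfd : FiniteDimensional ℂ (Epos S m) :=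
    Submodule.finiteDimensional_of_le (A6_Epos_le S m)
  have hle : ∀ t : ℝ, m < t → eigenspace (S : End ℂ H) (t : ℂ) ≤ Epos S m := by
    intro t ht
    exact le_iSup (fun t : {t : ℝ // m < t} => eigenspace (S : End ℂ H) ((t : ℝ) : ℂ)) ⟨t, ht⟩
  obtain ⟨B, hB⟩ : ∃ B : Set ℝ, B = {t : ℝ | m < t ∧ HasEigenvalue (S : End ℂ H) (t : ℂ)} := ⟨_, rfl⟩
  rw [← hB]
  have hBmem : ∀ t : ℝ, t ∈ B ↔ m < t ∧ HasEigenvalue (S : End ℂ H) (t : ℂ) := by
    intro t
    rw [hB]
    exact Iff.rfl
  have hex : ∀ t : B, ∃ v : H, HasEigenvector (S : End ℂ H) ((t : ℝ) : ℂ) v := by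
    intro t
    exact ((hBmem _).1 t.2).2.exists_hasEigenvector
  choose v hv using hex
  have hli : LinearIndependent ℂ v :=
    eigenvectors_linearIndependent' (S : End ℂ H) (fun t : B => ((t : ℝ) : ℂ))
      (fun t t' h => Subtype.ext (Complex.ofReal_injective h)) v hv
  have hmB : ∀ t : B, m < (t : ℝ) := by
    intro t
    exact ((hBmem _).1 t.2).1
  have hspan : Submodule.span ℂ (Set.range v) = Epos S m := by
    apply le_antisymm
    · rw [Submodule.span_le]
      rintro _ ⟨t, rfl⟩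
      exact hle _ (hmB t) (hv t).1
    · unfold Epos
      apply iSup_le
      intro t
      by_cases ht : (t : ℝ) ∈ B
      · intro x hx
        have hfd1 : FiniteDimensional ℂ (eigenspace (S : End ℂ H) ((t : ℝ) : ℂ)) :=
          Submodule.finiteDimensional_of_le (hle _ t.2)
        have h1 := hsimple t t.2
        obtain ⟨w, hw⟩ : ∃ w : eigenspace (S : End ℂ H) ((t : ℝ) : ℂ), w = ⟨v ⟨t, ht⟩, (hv ⟨t, ht⟩).1⟩ :=
          ⟨_, rfl⟩
        have hw0 : w ≠ 0 := by
          rw [hw]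
          intro h
          exact (hv ⟨t, ht⟩).2 (congrArg Subtype.val h)
        have h2 : finrank ℂ (eigenspace (S : End ℂ H) ((t : ℝ) : ℂ)) = 1 := by
          have : 0 < finrank ℂ (eigenspace (S : End ℂ H) ((t : ℝ) : ℂ)) :=
            finrank_pos_iff_exists_ne_zero.2 ⟨w, hw0⟩
          omega
        obtain ⟨c, hc⟩ := (finrank_eq_one_iff_of_nonzero' w hw0).1 h2 ⟨x, hx⟩
        have h3 : c • v ⟨t, ht⟩ = x := by
          have := congrArg Subtype.val hc
          rw [hw] at this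
          exact this
        rw [← h3]
        exact Submodule.smul_mem _ _ (Submodule.subset_span ⟨_, rfl⟩)
      · have h1 : eigenspace (S : End ℂ H) ((t : ℝ) : ℂ) = ⊥ := by
          by_contra h
          apply ht
          rw [hB]
          exact ⟨t.2, h⟩
        rw [h1]
        exact bot_le
  have hli' : LinearIndependent ℂ (fun t : B => (⟨v t, hle _ (hmB t) (hv t).1⟩ : Epos S m)) :=
    LinearIndependent.of_comp (Epos S m).subtype hli
  have hfin : Finite B := hli'.finite
  have : Fintype B := Fintype.ofFinite B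
  refine ⟨Set.toFinite B, ?_⟩
  rw [← hspan, finrank_span_eq_card hli, Set.ncard_eq_toFinset_card', Set.toFinset_card]

theorem A6_neg (S : H →L[ℂ] H) (t : ℂ) :
    eigenspace ((-S : H →L[ℂ] H) : End ℂ H) t = eigenspace (S : End ℂ H) (-t) := by
  ext x
  rw [mem_eigenspace_iff, mem_eigenspace_iff]
  show -(S x) = t • x ↔ S x = -t • x
  rw [neg_eq_iff_eq_neg, neg_smul]

theorem A6_min (A : Set ℝ) (hA : A.Finite) (h0 : (0 : ℝ) ∉ A) : ∃ m : ℝ, 0 < m ∧ ∀ t ∈ A, m ≤ |t| := by
  induction A, hA using Set.Finite.induction_on with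
  | empty => exact ⟨1, one_pos, fun t ht => absurd ht (Set.notMem_empty t)⟩
  | @insert a F _ _ ih =>
    rw [Set.mem_insert_iff, not_or] at h0
    obtain ⟨m, hm, h⟩ := ih h0.2
    refine ⟨min m |a|, lt_min hm (abs_pos.2 (Ne.symm h0.1)), ?_⟩
    intro t ht
    rw [Set.mem_insert_iff] at ht
    rcases ht with rfl | ht
    · exact min_le_right _ _
    · exact (min_le_left _ _).trans (h t ht)

theorem interlace_of_claims (S : H →L[ℂ] H) (hSc : IsCompactOperator S)
    (hS : (S : H →ₗ[ℂ] H).IsSymmetric)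
    (hA : ∀ m : ℝ, 0 < m → finrank ℂ (Eposc (-S) m) ≤ finrank ℂ (Epos S m))
    (hB : ∀ m : ℝ, 0 < m → finrank ℂ (Eposc S m) ≤ finrank ℂ (Epos (-S) m) + 1)
    (hinf : ¬ FiniteDimensional ℂ (LinearMap.range (S : H →ₗ[ℂ] H))) :
    ∃ lam : ℕ → ℝ, (∀ j, |lam (j + 1)| < |lam j|) ∧ (∀ j, 0 < (-1 : ℝ) ^ j * lam j) ∧
      (∀ j, finrank ℂ (eigenspace (S : End ℂ H) (lam j : ℂ)) = 1) ∧
      (∀ μ : ℂ, μ ≠ 0 → HasEigenvalue (S : End ℂ H) μ → ∃ j, μ = (lam j : ℂ)) := by
  classical
  have hSc' : IsCompactOperator (-S : H →L[ℂ] H) := hSc.neg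
  have hS' : ((-S : H →L[ℂ] H) : H →ₗ[ℂ] H).IsSymmetric := by
    intro x y
    show inner ℂ (-(S x)) y = inner ℂ x (-(S y))
    rw [inner_neg_left, inner_neg_right]
    congr 1
    exact hS x y
  -- eigenvalues of `S` are real
  have hreal : ∀ μ : ℂ, HasEigenvalue (S : End ℂ H) μ → ((μ.re : ℝ) : ℂ) = μ := by
    intro μ h
    exact Complex.conj_eq_iff_re.1 (hS.conj_eigenvalue_eq_self h)
  -- finite-dimensional eigenspaces
  have hfde : ∀ m : ℝ, 0 < m → FiniteDimensional ℂ (eigenspace (S : End ℂ H) (m : ℂ)) := by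
    intro m hm
    have h1 := finiteDimensional_Eposc S hSc hS m hm
    have h2 : eigenspace (S : End ℂ H) (m : ℂ) ≤ Eposc S m :=
      le_iSup (fun t : {t : ℝ // m ≤ t} => eigenspace (S : End ℂ H) ((t : ℝ) : ℂ)) ⟨m, le_rfl⟩
    exact Submodule.finiteDimensional_of_le h2
  have hfde' : ∀ m : ℝ, 0 < m → FiniteDimensional ℂ (eigenspace (S : End ℂ H) (-(m : ℂ))) := by
    intro m hm
    have h1 := finiteDimensional_Eposc (-S) hSc' hS' m hm
    have h2 : eigenspace ((-S : H →L[ℂ] H) : End ℂ H) (m : ℂ) ≤ Eposc (-S) m :=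
      le_iSup (fun t : {t : ℝ // m ≤ t} => eigenspace ((-S : H →L[ℂ] H) : End ℂ H) ((t : ℝ) : ℂ))
        ⟨m, le_rfl⟩
    rw [← A6_neg]
    exact Submodule.finiteDimensional_of_le h2
  -- the basic inequalities
  have hkey : ∀ m : ℝ, 0 < m → ∃ a b p q : ℕ, a = finrank ℂ (eigenspace (S : End ℂ H) (m : ℂ)) ∧
      b = finrank ℂ (eigenspace (S : End ℂ H) (-(m : ℂ))) ∧ p = finrank ℂ (Epos S m) ∧
      q = finrank ℂ (Epos (-S) m) ∧ q + b ≤ p ∧ p + a ≤ q + 1 := by
    intro m hm
    have h1 := finrank_Eposc S hS m (finiteDimensional_Eposc S hSc hS m hm)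
    have h2 := finrank_Eposc (-S) hS' m (finiteDimensional_Eposc (-S) hSc' hS' m hm)
    rw [A6_neg] at h2
    refine ⟨_, _, _, _, rfl, rfl, rfl, rfl, ?_, ?_⟩
    · rw [← h2]
      exact hA m hm
    · rw [← h1]
      exact hB m hm
  have hsimp : ∀ t : ℝ, 0 < t → finrank ℂ (eigenspace (S : End ℂ H) (t : ℂ)) ≤ 1 := by
    intro t ht
    obtain ⟨a, b, p, q, ha, hb, hp, hq, h1, h2⟩ := hkey t ht
    rw [← ha]
    omega
  have hsimp' : ∀ t : ℝ, 0 < t → finrank ℂ (eigenspace ((-S : H →L[ℂ] H) : End ℂ H) (t : ℂ)) ≤ 1 := by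
    intro t ht
    obtain ⟨a, b, p, q, ha, hb, hp, hq, h1, h2⟩ := hkey t ht
    rw [A6_neg, ← hb]
    omega
  have hpos1 : ∀ t : ℝ, 0 < t → HasEigenvalue (S : End ℂ H) (t : ℂ) →
      0 < finrank ℂ (eigenspace (S : End ℂ H) (t : ℂ)) := by
    intro t ht h
    have h1 := hfde t ht
    obtain ⟨v, hv⟩ := h.exists_hasEigenvector
    exact finrank_pos_iff_exists_ne_zero.2 ⟨⟨v, hv.1⟩, fun h => hv.2 (congrArg Subtype.val h)⟩
  have hpos2 : ∀ t : ℝ, 0 < t → HasEigenvalue (S : End ℂ H) (-(t : ℂ)) →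
      0 < finrank ℂ (eigenspace (S : End ℂ H) (-(t : ℂ))) := by
    intro t ht h
    have h1 := hfde' t ht
    obtain ⟨v, hv⟩ := h.exists_hasEigenvector
    exact finrank_pos_iff_exists_ne_zero.2 ⟨⟨v, hv.1⟩, fun h => hv.2 (congrArg Subtype.val h)⟩
  have hneg : ∀ t : ℝ, HasEigenvalue ((-S : H →L[ℂ] H) : End ℂ H) (t : ℂ) ↔
      HasEigenvalue (S : End ℂ H) ((-t : ℝ) : ℂ) := by
    intro t
    rw [hasEigenvalue_iff, hasEigenvalue_iff, A6_neg, Complex.ofReal_neg]
  obtain ⟨A, hAdef⟩ : ∃ A : Set ℝ, A = {t : ℝ | t ≠ 0 ∧ HasEigenvalue (S : End ℂ H) (t : ℂ)} := ⟨_, rfl⟩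
  have hAmem : ∀ t, t ∈ A ↔ t ≠ 0 ∧ HasEigenvalue (S : End ℂ H) (t : ℂ) := by
    intro t
    rw [hAdef]
    exact Iff.rfl
  have h0 : (0 : ℝ) ∉ A := by
    rw [hAmem]
    exact fun h => h.1 rfl
  -- the set of eigenvalues above `m`
  have hset : ∀ m : ℝ, 0 < m → {y : ℝ | y ∈ A ∧ m < |y|} =
      {t : ℝ | m < t ∧ HasEigenvalue (S : End ℂ H) (t : ℂ)} ∪
      (fun t : ℝ => -t) '' {t : ℝ | m < t ∧ HasEigenvalue ((-S : H →L[ℂ] H) : End ℂ H) (t : ℂ)} := by
    intro m hm
    ext y
    constructor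
    · rintro ⟨hy, hmy⟩
      rw [hAmem] at hy
      rcases lt_or_gt_of_ne hy.1 with h | h
      · right
        rw [abs_of_neg h] at hmy
        refine ⟨-y, ⟨hmy, ?_⟩, neg_neg y⟩
        rw [hneg, neg_neg]
        exact hy.2
      · left
        rw [abs_of_pos h] at hmy
        exact ⟨hmy, hy.2⟩
    · rintro (⟨h1, h2⟩ | ⟨t, ⟨h1, h2⟩, rfl⟩)
      · refine ⟨(hAmem y).2 ⟨by linarith, h2⟩, ?_⟩
        rw [abs_of_pos (by linarith)]
        exact h1
      · rw [hneg] at h2
        refine ⟨(hAmem _).2 ⟨by simp only []; linarith, h2⟩, ?_⟩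
        simp only []
        rw [abs_neg, abs_of_pos (by linarith)]
        exact h1
  have hcard : ∀ m : ℝ, 0 < m → {y : ℝ | y ∈ A ∧ m < |y|}.Finite ∧
      {y : ℝ | y ∈ A ∧ m < |y|}.ncard = finrank ℂ (Epos S m) + finrank ℂ (Epos (-S) m) := by
    intro m hm
    obtain ⟨f1, c1⟩ := finrank_Epos_eq_ncard S hSc hS m hm (fun t ht => hsimp t (by linarith))
    obtain ⟨f2, c2⟩ := finrank_Epos_eq_ncard (-S) hSc' hS' m hm (fun t ht => hsimp' t (by linarith))
    rw [hset m hm]
    refine ⟨f1.union (f2.image _), ?_⟩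
    rw [Set.ncard_union_eq _ f1 (f2.image _), c1, Set.ncard_image_of_injective _ neg_injective, c2]
    rw [Set.disjoint_left]
    rintro y ⟨h1, -⟩ ⟨t, ⟨h2, -⟩, h3⟩
    simp only [] at h3
    linarith
  have hAinf : A.Infinite := by
    intro hAf
    apply hinf
    obtain ⟨m, hm, hmA⟩ := A6_min A hAf h0
    have g1 := finiteDimensional_Eposc S hSc hS m hm
    have g2 := finiteDimensional_Eposc (-S) hSc' hS' m hm
    have g3 : FiniteDimensional ℂ (Eposc S m ⊔ Eposc (-S) m : Submodule ℂ H) := inferInstance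
    have hbot := ContinuousLinearMap.orthogonalComplement_iSup_eigenspaces_eq_bot hSc hS
    have hdense : (⨆ μ, eigenspace (S : End ℂ H) μ).topologicalClosure = ⊤ :=
      (Submodule.topologicalClosure_eq_top_iff).2 hbot
    have hcl : IsClosed ((Eposc S m ⊔ Eposc (-S) m : Submodule ℂ H) : Set H) :=
      Submodule.closed_of_finiteDimensional _
    have h1 : ∀ x ∈ (⨆ μ, eigenspace (S : End ℂ H) μ), S x ∈ (Eposc S m ⊔ Eposc (-S) m : Submodule ℂ H) := by
      intro x hx
      induction hx using Submodule.iSup_induction' with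
      | mem μ x hx =>
        have h2 := mem_eigenspace_iff.1 hx
        have h3 : S x = μ • x := h2
        rw [h3]
        by_cases hx0 : x = 0
        · rw [hx0, smul_zero]
          exact Submodule.zero_mem _
        · by_cases hμ0 : μ = 0
          · rw [hμ0, zero_smul]
            exact Submodule.zero_mem _
          · have h4 : HasEigenvalue (S : End ℂ H) μ := hasEigenvalue_of_hasEigenvector ⟨hx, hx0⟩
            have h5 := hreal μ h4
            have h6 : μ.re ∈ A := by
              rw [hAmem, h5]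
              refine ⟨fun h => hμ0 ?_, h4⟩
              rw [← h5, h, Complex.ofReal_zero]
            have h7 := hmA _ h6
            apply Submodule.smul_mem
            rcases le_or_gt 0 μ.re with h8 | h8
            · rw [abs_of_nonneg h8] at h7
              apply Submodule.mem_sup_left
              unfold Eposc
              apply Submodule.mem_iSup_of_mem (⟨μ.re, h7⟩ : {t : ℝ // m ≤ t})
              show x ∈ eigenspace (S : End ℂ H) ((μ.re : ℝ) : ℂ)
              rw [h5]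
              exact hx
            · rw [abs_of_neg h8] at h7
              apply Submodule.mem_sup_right
              unfold Eposc
              apply Submodule.mem_iSup_of_mem (⟨-μ.re, h7⟩ : {t : ℝ // m ≤ t})
              show x ∈ eigenspace ((-S : H →L[ℂ] H) : End ℂ H) ((-μ.re : ℝ) : ℂ)
              rw [A6_neg, Complex.ofReal_neg, neg_neg, h5]
              exact hx
      | zero =>
        rw [map_zero]
        exact Submodule.zero_mem _
      | add x y _ _ h1 h2 =>
        rw [map_add]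
        exact Submodule.add_mem _ h1 h2
    have h2 : ∀ x, S x ∈ (Eposc S m ⊔ Eposc (-S) m : Submodule ℂ H) := by
      intro x
      have hx : x ∈ (⨆ μ, eigenspace (S : End ℂ H) μ).topologicalClosure := by
        rw [hdense]
        trivial
      have hcl2 : IsClosed {x : H | S x ∈ (Eposc S m ⊔ Eposc (-S) m : Submodule ℂ H)} :=
        hcl.preimage S.continuous
      exact closure_minimal (fun u hu => h1 u hu) hcl2 hx
    have h3 : LinearMap.range (S : H →ₗ[ℂ] H) ≤ (Eposc S m ⊔ Eposc (-S) m : Submodule ℂ H) := by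
      rintro _ ⟨x, rfl⟩
      exact h2 x
    exact Submodule.finiteDimensional_of_le h3
  obtain ⟨lam, l1, l2, l3, l4⟩ := enumerate A h0 (by
    intro x hx hx'
    rw [hAmem] at hx hx'
    have hx2 : HasEigenvalue (S : End ℂ H) (-(x : ℂ)) := by
      have := hx'.2
      rwa [Complex.ofReal_neg] at this
    rcases lt_or_gt_of_ne hx.1 with h | h
    · have hm : 0 < -x := by linarith
      obtain ⟨a, b, p, q, ha, hb, hp, hq, e1, e2⟩ := hkey (-x) hm
      have k1 := hpos1 (-x) hm hx'.2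
      have k2 := hpos2 (-x) hm (by rw [Complex.ofReal_neg, neg_neg]; exact hx.2)
      rw [← ha] at k1
      rw [← hb] at k2
      omega
    · obtain ⟨a, b, p, q, ha, hb, hp, hq, e1, e2⟩ := hkey x h
      have k1 := hpos1 x h hx.2
      have k2 := hpos2 x h hx2
      rw [← ha] at k1
      rw [← hb] at k2
      omega) (by
    intro m hm
    apply (hcard (m / 2) (by positivity)).1.subset
    rintro x ⟨hx, hmx⟩
    exact ⟨hx, by linarith⟩) hAinf (by
    intro x hx
    have hx0 := (hAmem x).1 hx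
    have habs : 0 < |x| := abs_pos.2 hx0.1
    have hc := (hcard |x| habs).2
    have hc' : {y ∈ A | |x| < |y|}.ncard = finrank ℂ (Epos S |x|) + finrank ℂ (Epos (-S) |x|) := hc
    rw [hc']
    obtain ⟨a, b, p, q, ha, hb, hp, hq, e1, e2⟩ := hkey |x| habs
    rw [← hp, ← hq]
    rcases lt_or_gt_of_ne hx0.1 with h | h
    · rw [abs_of_neg h] at hb habs
      have k2 := hpos2 (-x) habs (by rw [Complex.ofReal_neg, neg_neg]; exact hx0.2)
      rw [← hb] at k2
      constructor
      · intro h'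
        linarith
      · intro h'
        obtain ⟨r, hr⟩ := h'
        omega
    · rw [abs_of_pos h] at ha habs
      have k1 := hpos1 x habs hx0.2
      rw [← ha] at k1
      constructor
      · intro _
        exact ⟨q, by omega⟩
      · intro _
        exact h)
  refine ⟨lam, l1, l2, ?_, ?_⟩
  · intro j
    have h1 := (hAmem _).1 (l3 j)
    rcases lt_or_gt_of_ne h1.1 with h | h
    · have hm : 0 < -lam j := by linarith
      have e : -((-lam j : ℝ) : ℂ) = (lam j : ℂ) := by push_cast; ring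
      have k1 := hpos2 (-lam j) hm (by rw [e]; exact h1.2)
      have k2 := hsimp' (-lam j) hm
      rw [A6_neg] at k2
      rw [e] at k1 k2
      omega
    · have k1 := hpos1 _ h h1.2
      have k2 := hsimp _ h
      omega
  · intro μ hμ h
    have h5 := hreal μ h
    obtain ⟨j, hj⟩ := l4 μ.re (by
      rw [hAmem, h5]
      refine ⟨fun h' => hμ ?_, h⟩
      rw [← h5, h', Complex.ofReal_zero])
    exact ⟨j, by rw [← h5, hj]⟩

end Pool.Agent.Helper242.RM
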