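import Mathlib

set_option autoImplicit false

namespace Pool.Agent.Helper242.RM

variable {H : Type*} [NormedAddCommGroup H] [InnerProductSpace ℂ H] [CompleteSpace H]

/-- A shift `q k ↦ q (k+1)` which is bounded on finite combinations extends to a bounded operator. -/
theorem exists_shift (q : ℕ → H) (K : ℝ) (hK : 0 ≤ K)
    (h : ∀ a : ℕ →₀ ℂ, ‖a.sum (fun k z => z • q (k + 1))‖ ≤ K * ‖a.sum (fun k z => z • q k)‖) :
    ∃ T : H →L[ℂ] H, ‖T‖ ≤ K ∧ ∀ k, T (q k) = q (k + 1) := by
  classical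
  set A : (ℕ →₀ ℂ) →ₗ[ℂ] H := Finsupp.linearCombination ℂ q with hA
  set B : (ℕ →₀ ℂ) →ₗ[ℂ] H := Finsupp.linearCombination ℂ (fun k => q (k + 1)) with hB
  have hAB : ∀ a, ‖B a‖ ≤ K * ‖A a‖ := fun a => h a
  set P : Submodule ℂ H := (LinearMap.range A).topologicalClosure with hP
  have hmem : ∀ a, A a ∈ P := fun a =>
    Submodule.le_topologicalClosure _ (LinearMap.mem_range_self A a)
  set e : (ℕ →₀ ℂ) →ₗ[ℂ] P := A.codRestrict P hmem with he
  have hPc : IsClosed (P : Set H) := Submodule.isClosed_topologicalClosure _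
  have hcomp : CompleteSpace P := hPc.completeSpace_coe
  have hnorm : ∀ a, ‖e a‖ = ‖A a‖ := fun a => rfl
  have hbd : ∀ a, ‖B a‖ ≤ K * ‖e a‖ := fun a => hAB a
  have hdense : DenseRange e := by
    intro x
    rw [closure_subtype]
    have h1 : ((↑) '' (Set.range e) : Set H) = (LinearMap.range A : Set H) := by
      ext y
      constructor
      · rintro ⟨z, ⟨n, rfl⟩, rfl⟩
        exact ⟨n, rfl⟩
      · rintro ⟨n, rfl⟩
        exact ⟨e n, ⟨n, rfl⟩, rfl⟩
    rw [h1]
    exact x.2
  refine ⟨(B.extendOfNorm e).comp P.orthogonalProjectionOnto, ?_, ?_⟩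
  · refine (ContinuousLinearMap.opNorm_comp_le _ _).trans ?_
    have n1 : ‖B.extendOfNorm e‖ ≤ K := LinearMap.opNorm_extendOfNorm_le hdense hK hbd
    have n2 : ‖P.orthogonalProjectionOnto‖ ≤ 1 := Submodule.orthogonalProjectionOnto_norm_le P
    calc ‖B.extendOfNorm e‖ * ‖P.orthogonalProjectionOnto‖ ≤ ‖B.extendOfNorm e‖ * 1 :=
          mul_le_mul_of_nonneg_left n2 (ContinuousLinearMap.opNorm_nonneg _)
      _ ≤ K := by rw [mul_one]; exact n1
  · intro k
    have h1 : A (Finsupp.single k 1) = q k := by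
      rw [hA, Finsupp.linearCombination_single, one_smul]
    have h2 : B (Finsupp.single k 1) = q (k + 1) := by
      rw [hB, Finsupp.linearCombination_single, one_smul]
    have h3 : P.orthogonalProjectionOnto (q k) = e (Finsupp.single k 1) := by
      have h4 : ((e (Finsupp.single k 1) : P) : H) = q k := h1
      rw [← h4]
      exact Submodule.orthogonalProjectionOnto_mem_subspace_eq_self _
    rw [ContinuousLinearMap.comp_apply, h3, LinearMap.extendOfNorm_eq hdense ⟨K, hbd⟩, h2]

end Pool.Agent.Helper242.RM
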