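import Mathlib

set_option autoImplicit false

namespace Pool.Agent.Helper242.RM

variable {H : Type*} [NormedAddCommGroup H] [InnerProductSpace ℂ H] [CompleteSpace H]

open Filter Topology

noncomputable def R1_7398 (q : ℕ → H) (L0 r : ℝ) (k : ℕ) : H →L[ℂ] H :=
  ((L0 * (-r) ^ k : ℝ) : ℂ) • (innerSL ℂ (q k)).smulRight (q k)

omit [CompleteSpace H] in
theorem R1_apply_7398 (q : ℕ → H) (L0 r : ℝ) (k : ℕ) (v : H) :
    R1_7398 q L0 r k v = ((L0 * (-r) ^ k : ℝ) : ℂ) • (inner ℂ (q k) v) • q k := by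
  simp [R1_7398]

omit [CompleteSpace H] in
theorem R1_norm_7398 (q : ℕ → H) (C : ℝ) (hC : ∀ k, ‖q k‖ ≤ C) (L0 r : ℝ) (hr : 0 < r) (k : ℕ) :
    ‖R1_7398 q L0 r k‖ ≤ |L0| * (C * C) * r ^ k := by
  unfold R1_7398
  rw [norm_smul, ContinuousLinearMap.norm_smulRight_apply, innerSL_apply_norm, Complex.norm_real,
    norm_mul, norm_pow, norm_neg, Real.norm_eq_abs, Real.norm_eq_abs, abs_of_pos hr]
  have h0 : 0 ≤ C := (norm_nonneg _).trans (hC k)
  have h1 : ‖q k‖ * ‖q k‖ ≤ C * C := mul_le_mul (hC k) (hC k) (norm_nonneg _) h0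
  calc |L0| * r ^ k * (‖q k‖ * ‖q k‖) ≤ |L0| * r ^ k * (C * C) :=
        mul_le_mul_of_nonneg_left h1 (by positivity)
    _ = _ := by ring

omit [CompleteSpace H] in
theorem R1_compact_7398 (q : ℕ → H) (L0 r : ℝ) (k : ℕ) : IsCompactOperator (R1_7398 q L0 r k) := by
  have h1 : IsCompactOperator (innerSL ℂ (q k)) := isCompactOperator_of_locallyCompactSpace_dom _
  have h2 := h1.clm_comp (ContinuousLinearMap.toSpanSingleton ℂ (q k))
  have h3 := h2.smul ((L0 * (-r) ^ k : ℝ) : ℂ)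
  exact h3

omit [CompleteSpace H] in
theorem R1_symm_7398 (q : ℕ → H) (L0 r : ℝ) (k : ℕ) (v w : H) :
    inner ℂ (R1_7398 q L0 r k v) w = inner ℂ v (R1_7398 q L0 r k w) := by
  rw [R1_apply_7398, R1_apply_7398, inner_smul_left, inner_smul_left, inner_smul_right,
    inner_smul_right, Complex.conj_ofReal, inner_conj_symm]
  ring

/-- The operator `S = ∑ L0 (-r)^k q_k ⊗ q_k`. -/
theorem exists_S (q : ℕ → H) (C : ℝ) (hC : ∀ k, ‖q k‖ ≤ C) (L0 r : ℝ) (hr : 0 < r) (hr1 : r < 1) :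
    ∃ S : H →L[ℂ] H, IsCompactOperator S ∧ (S : H →ₗ[ℂ] H).IsSymmetric ∧
      ∀ v, HasSum (fun k => ((L0 * (-r) ^ k : ℝ) : ℂ) • (inner ℂ (q k) v) • q k) (S v) := by
  have hs : Summable (R1_7398 q L0 r) := by
    refine Summable.of_norm_bounded ?_ (R1_norm_7398 q C hC L0 r hr)
    exact (summable_geometric_of_lt_one hr.le hr1).mul_left _
  obtain ⟨S, hS⟩ := hs
  have hv : ∀ v, HasSum (fun k => R1_7398 q L0 r k v) (S v) := fun v =>
    hS.mapL (ContinuousLinearMap.apply ℂ H v)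
  refine ⟨S, ?_, ?_, ?_⟩
  · refine isCompactOperator_of_tendsto hS (Filter.Eventually.of_forall fun s => ?_)
    have : ∑ k ∈ s, R1_7398 q L0 r k ∈ compactOperator (RingHom.id ℂ) H H :=
      Submodule.sum_mem _ fun k _ => R1_compact_7398 q L0 r k
    exact this
  · intro v w
    have h1 : HasSum (fun k => inner ℂ (R1_7398 q L0 r k v) w) (inner ℂ (S v) w) :=
      ((continuous_id.inner continuous_const).tendsto (S v)).comp (hv v) |>.congr (by
        intro s
        simp [sum_inner])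
    have h2 : HasSum (fun k => inner ℂ v (R1_7398 q L0 r k w)) (inner ℂ v (S w)) :=
      ((continuous_const.inner continuous_id).tendsto (S w)).comp (hv w) |>.congr (by
        intro s
        simp [inner_sum])
    have h3 : (fun k => inner ℂ (R1_7398 q L0 r k v) w) =
        fun k => inner ℂ v (R1_7398 q L0 r k w) := by
      funext k
      exact R1_symm_7398 q L0 r k v w
    rw [h3] at h1
    exact h1.unique h2
  · intro v
    have := hv v
    simpa only [R1_apply_7398] using this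

/-- Shift identity. -/
theorem S_shift (q : ℕ → H) (L0 r : ℝ) (S T : H →L[ℂ] H)
    (hS : ∀ v, HasSum (fun k => ((L0 * (-r) ^ k : ℝ) : ℂ) • (inner ℂ (q k) v) • q k) (S v))
    (hT : ∀ k, T (q k) = q (k + 1)) (v : H) :
    S v = (L0 : ℂ) • (inner ℂ (q 0) v) • q 0
      - (r : ℂ) • T (S (ContinuousLinearMap.adjoint T v)) := by
  have h1 := (hasSum_nat_add_iff' 1).2 (hS v)
  have h2 := ((hS (ContinuousLinearMap.adjoint T v)).mapL T).const_smul (-(r : ℂ))
  have h3 : (fun k => ((L0 * (-r) ^ (k + 1) : ℝ) : ℂ) • (inner ℂ (q (k + 1)) v) • q (k + 1)) =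
      fun k => -(r : ℂ) • T (((L0 * (-r) ^ k : ℝ) : ℂ) •
        (inner ℂ (q k) (ContinuousLinearMap.adjoint T v)) • q k) := by
    funext k
    rw [map_smul, map_smul, hT, ContinuousLinearMap.adjoint_inner_right, hT, smul_smul, smul_smul,
      smul_smul]
    congr 1
    push_cast
    ring
  rw [h3] at h1
  have h4 := h1.unique h2
  rw [Finset.sum_range_one, pow_zero, mul_one] at h4
  rw [sub_eq_iff_eq_add] at h4
  rw [h4, neg_smul]
  abel

/-- infinite rank -/
theorem S_range (q d : ℕ → H) (hd : ∀ k l, inner ℂ (q k) (d l) = if k = l then (1 : ℂ) else 0)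
    (L0 r : ℝ) (hL0 : 0 < L0) (hr : 0 < r) (S : H →L[ℂ] H)
    (hS : ∀ v, HasSum (fun k => ((L0 * (-r) ^ k : ℝ) : ℂ) • (inner ℂ (q k) v) • q k) (S v)) :
    ¬ FiniteDimensional ℂ (LinearMap.range (S : H →ₗ[ℂ] H)) := by
  intro hfd
  have h1 : ∀ l, S (d l) = ((L0 * (-r) ^ l : ℝ) : ℂ) • q l := by
    intro l
    have h2 := hasSum_single (f := fun k => ((L0 * (-r) ^ k : ℝ) : ℂ) • (inner ℂ (q k) (d l)) • q k)
      l (by
        intro k hk
        rw [hd, if_neg hk, zero_smul, smul_zero])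
    have h3 := (hS (d l)).unique h2
    rw [h3, hd, if_pos rfl, one_smul]
  have hmem : ∀ l, q l ∈ LinearMap.range (S : H →ₗ[ℂ] H) := by
    intro l
    have hne : ((L0 * (-r) ^ l : ℝ) : ℂ) ≠ 0 := by
      rw [Complex.ofReal_ne_zero]
      exact mul_ne_zero hL0.ne' (pow_ne_zero _ (neg_ne_zero.2 hr.ne'))
    refine ⟨(((L0 * (-r) ^ l : ℝ) : ℂ))⁻¹ • d l, ?_⟩
    rw [map_smul]
    show _ • S (d l) = _
    rw [h1, smul_smul, inv_mul_cancel₀ hne, one_smul]
  have hli : LinearIndependent ℂ q := by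
    rw [linearIndependent_iff']
    intro s g hg i hi
    have h4 : inner ℂ (∑ j ∈ s, g j • q j) (d i) = (0 : ℂ) := by rw [hg, inner_zero_left]
    rw [sum_inner, Finset.sum_eq_single i] at h4
    · rw [inner_smul_left, hd, if_pos rfl, mul_one] at h4
      exact (map_eq_zero _).1 h4
    · intro j _ hj
      rw [inner_smul_left, hd, if_neg hj, mul_zero]
    · intro h; exact absurd hi h
  have hli' : LinearIndependent ℂ
      (fun l => (⟨q l, hmem l⟩ : LinearMap.range (S : H →ₗ[ℂ] H))) := by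
    refine LinearIndependent.of_comp (LinearMap.range (S : H →ₗ[ℂ] H)).subtype ?_
    exact hli
  have := hli'.finite
  exact not_finite ℕ

end Pool.Agent.Helper242.RM
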