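import Pool.Agent.Helper242.RM.Defs

set_option autoImplicit false

namespace Pool.Agent.Helper242.RM

open MeasureTheory Set Filter Topology

open Classical in
/-- Extension by zero of a function on the closed disc. -/

theorem gv_re (z : ℂ) (hz : z ∈ Disc) (n : ℕ) :
    (n : ℝ) + 1 / 2 ≤ (z + ((n : ℂ) + 1)).re := by
  rw [Metric.mem_closedBall, dist_eq_norm] at hz
  have h1 : |(z - 1).re| ≤ ‖z - 1‖ := Complex.abs_re_le_norm _
  have h2 : |(z - 1).re| ≤ 3 / 2 := h1.trans hz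
  have h3 := (abs_le.mp h2).1
  simp only [Complex.sub_re, Complex.one_re] at h3
  simp only [Complex.add_re, Complex.natCast_re, Complex.one_re]
  linarith

theorem gv_re_pos (z : ℂ) (hz : z ∈ Disc) (n : ℕ) : 0 < (z + ((n : ℂ) + 1)).re := by
  have h1 := gv_re z hz n
  have h2 : (0 : ℝ) ≤ n := Nat.cast_nonneg n
  linarith

theorem gv_ne (z : ℂ) (hz : z ∈ Disc) (n : ℕ) : z + ((n : ℂ) + 1) ≠ 0 := by
  intro h
  have := gv_re_pos z hz n
  rw [h] at this
  simp at this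

theorem inv_mem (z : ℂ) (hz : z ∈ Disc) (n : ℕ) :
    (z + ((n : ℂ) + 1))⁻¹ ∈ Metric.closedBall (1 : ℂ) 1 := by
  have hre := gv_re z hz n
  have hn : (0 : ℝ) ≤ n := Nat.cast_nonneg n
  have hne := gv_ne z hz n
  generalize z + ((n : ℂ) + 1) = w at hre hne
  rw [Metric.mem_closedBall, dist_eq_norm]
  have h1 : w⁻¹ - 1 = (1 - w) / w := by field_simp
  rw [h1, norm_div, div_le_one (norm_pos_iff.mpr hne)]
  have h2 : ‖1 - w‖ ^ 2 ≤ ‖w‖ ^ 2 := by
    rw [← Complex.normSq_eq_norm_sq, ← Complex.normSq_eq_norm_sq, Complex.normSq_apply,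
      Complex.normSq_apply]
    simp only [Complex.sub_re, Complex.one_re, Complex.sub_im, Complex.one_im]
    nlinarith
  exact (pow_le_pow_iff_left₀ (norm_nonneg _) (norm_nonneg _) two_ne_zero).mp h2

theorem gv_inv_mem (z : ℂ) (hz : z ∈ Disc) (n : ℕ) : (z + ((n : ℂ) + 1))⁻¹ ∈ Disc :=
  Metric.closedBall_subset_closedBall (by norm_num) (inv_mem z hz n)

theorem gv_inv_mem_ball (z : ℂ) (hz : z ∈ Disc) (n : ℕ) :
    (z + ((n : ℂ) + 1))⁻¹ ∈ Metric.ball (1 : ℂ) (3 / 2) :=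
  Metric.closedBall_subset_ball (by norm_num) (inv_mem z hz n)

theorem gv_ext_norm (f : C(Disc, ℂ)) (v : ℂ) : ‖ext f v‖ ≤ ‖f‖ := by
  unfold ext
  split_ifs with h
  · exact f.norm_coe_le_norm _
  · rw [norm_zero]; exact norm_nonneg _

theorem gv_cpow_norm (s : ℝ) (hs : 1 < s) (z : ℂ) (hz : z ∈ Disc) (n : ℕ) :
    ‖(z + ((n : ℂ) + 1)) ^ (-(s : ℂ))‖ ≤ 1 / |(n : ℝ) + 1 / 2| ^ s := by
  have hre := gv_re z hz n
  have hn : (0 : ℝ) ≤ n := Nat.cast_nonneg n
  have hpos : (0 : ℝ) < (n : ℝ) + 1 / 2 := by linarith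
  have h1 : (n : ℝ) + 1 / 2 ≤ ‖z + ((n : ℂ) + 1)‖ :=
    hre.trans ((le_abs_self _).trans (Complex.abs_re_le_norm _))
  have h2 : (-(s : ℂ)) = ((-s : ℝ) : ℂ) := by push_cast; rfl
  rw [h2, Complex.norm_cpow_real, abs_of_pos hpos, one_div, ← Real.rpow_neg hpos.le]
  exact Real.rpow_le_rpow_of_nonpos hpos h1 (by linarith)

theorem gv_summable (s : ℝ) (hs : 1 < s) (K : ℝ) :
    Summable (fun n : ℕ => 1 / |(n : ℝ) + 1 / 2| ^ s * K) :=
  ((Real.summable_one_div_nat_add_rpow (1 / 2) s).mpr hs).mul_right K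

theorem gv_term_norm (s : ℝ) (hs : 1 < s) (f : C(Disc, ℂ)) (z : ℂ) (hz : z ∈ Disc) (n : ℕ) :
    ‖(z + ((n : ℂ) + 1)) ^ (-(s : ℂ)) * ext f (z + ((n : ℂ) + 1))⁻¹‖ ≤
      1 / |(n : ℝ) + 1 / 2| ^ s * ‖f‖ := by
  rw [norm_mul]
  exact mul_le_mul (gv_cpow_norm s hs z hz n) (gv_ext_norm f _) (norm_nonneg _) (by positivity)

theorem gv_term_summable (s : ℝ) (hs : 1 < s) (f : C(Disc, ℂ)) (z : ℂ) (hz : z ∈ Disc) :
    Summable (fun n : ℕ => (z + ((n : ℂ) + 1)) ^ (-(s : ℂ)) * ext f (z + ((n : ℂ) + 1))⁻¹) :=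
  Summable.of_norm_bounded (gv_summable s hs ‖f‖) (gv_term_norm s hs f z hz)

theorem Gval_continuous (s : ℝ) (hs : 1 < s) (f : X) :
    Continuous (fun z : Disc => Gval s (f : C(Disc, ℂ)) z) := by
  unfold Gval
  refine continuous_tsum (fun n => ?_) (gv_summable s hs ‖(f : C(Disc, ℂ))‖)
    (fun n z => gv_term_norm s hs f z z.2 n)
  have hbase : Continuous (fun z : Disc => (z : ℂ) + ((n : ℂ) + 1)) :=
    continuous_subtype_val.add continuous_const
  refine Continuous.mul ?_ ?_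
  · exact hbase.cpow continuous_const (fun z => Or.inl (gv_re_pos z z.2 n))
  · have h1 : (fun z : Disc => ext (f : C(Disc, ℂ)) ((z : ℂ) + ((n : ℂ) + 1))⁻¹) =
        fun z : Disc => (f : C(Disc, ℂ)) ⟨((z : ℂ) + ((n : ℂ) + 1))⁻¹, gv_inv_mem z z.2 n⟩ := by
      funext z
      unfold ext
      rw [dif_pos (gv_inv_mem z z.2 n)]
    rw [h1]
    refine (f : C(Disc, ℂ)).continuous.comp (Continuous.subtype_mk ?_ _)
    exact hbase.inv₀ (fun z => gv_ne z z.2 n)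

theorem Gval_differentiable (s : ℝ) (hs : 1 < s) (f : X) :
    DifferentiableOn ℂ (Gval s (f : C(Disc, ℂ))) (Metric.ball (1 : ℂ) (3 / 2)) := by
  have hsub : Metric.ball (1 : ℂ) (3 / 2) ⊆ Disc := Metric.ball_subset_closedBall
  unfold Gval
  refine Complex.differentiableOn_tsum_of_summable_norm
    (gv_summable s hs ‖(f : C(Disc, ℂ))‖) (fun n => ?_) Metric.isOpen_ball
    (fun n z hz => gv_term_norm s hs f z (hsub hz) n)
  have hbase : DifferentiableOn ℂ (fun z : ℂ => z + ((n : ℂ) + 1)) (Metric.ball (1 : ℂ) (3 / 2)) :=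
    (differentiable_id.add_const _).differentiableOn
  refine DifferentiableOn.mul ?_ ?_
  · exact hbase.cpow (differentiableOn_const _) (fun z hz => Or.inl (gv_re_pos z (hsub hz) n))
  · have hf : DifferentiableOn ℂ (ext (f : C(Disc, ℂ))) (Metric.ball (1 : ℂ) (3 / 2)) := f.2
    exact hf.comp (hbase.inv (fun z hz => gv_ne z (hsub hz) n))
      (fun z hz => gv_inv_mem_ball z (hsub hz) n)

theorem gv_ext_add (f g : C(Disc, ℂ)) (v : ℂ) : ext (f + g) v = ext f v + ext g v := by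
  unfold ext
  split_ifs <;> simp

theorem gv_ext_smul (c : ℂ) (f : C(Disc, ℂ)) (v : ℂ) : ext (c • f) v = c * ext f v := by
  unfold ext
  split_ifs <;> simp

theorem Gval_add (s : ℝ) (hs : 1 < s) (f g : X) (z : ℂ) (hz : z ∈ Disc) :
    Gval s ((f : C(Disc, ℂ)) + g) z = Gval s f z + Gval s g z := by
  unfold Gval
  rw [← (gv_term_summable s hs f z hz).tsum_add (gv_term_summable s hs g z hz)]
  refine tsum_congr (fun n => ?_)
  rw [gv_ext_add, mul_add]

theorem Gval_smul (s : ℝ) (c : ℂ) (f : C(Disc, ℂ)) (z : ℂ) :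
    Gval s (c • f) z = c * Gval s f z := by
  unfold Gval
  rw [← tsum_mul_left]
  refine tsum_congr (fun n => ?_)
  rw [gv_ext_smul]
  ring

end Pool.Agent.Helper242.RM
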