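import Pool.Agent.Helper242.RM.C4

set_option autoImplicit false

namespace Pool.Agent.Helper242.RM

open MeasureTheory Set Filter Topology

open Classical in
/-- Extension by zero of a function on the closed disc. -/

theorem re_pos7746 {z : ℂ} (hz : z ∈ Disc) (n : ℕ) : 0 < (z + n + ph : ℂ).re := by
  have h1 : ‖z - 1‖ ≤ 3 / 2 := by rw [← dist_eq_norm]; exact hz
  have h2 := (Complex.abs_re_le_norm (z - 1)).trans h1
  rw [abs_le] at h2
  simp only [Complex.sub_re, Complex.one_re] at h2
  have h3 : (1 : ℝ) < ph := by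
    unfold ph
    have : (1 : ℝ) < √5 := by
      rw [show (1 : ℝ) = √1 by simp]
      exact Real.sqrt_lt_sqrt (by norm_num) (by norm_num)
    linarith
  simp only [Complex.add_re, Complex.natCast_re, Complex.ofReal_re]
  have h4 : (0 : ℝ) ≤ n := Nat.cast_nonneg n
  linarith [h2.1]

theorem term_diff7746 (s : ℝ) (k n : ℕ) {z : ℂ} (hz : z ∈ Disc) :
    DifferentiableAt ℂ (fun z : ℂ => ((z + n - th) / (z + n + ph)) ^ k * (1 / (z + n + ph)) ^ (s : ℂ)) z := by
  have hre := re_pos7746 hz n
  have hne : (z + n + ph : ℂ) ≠ 0 := by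
    intro h; rw [h] at hre; simp at hre
  have d1 : DifferentiableAt ℂ (fun z : ℂ => z + n - th) z := by fun_prop
  have d2 : DifferentiableAt ℂ (fun z : ℂ => z + n + ph) z := by fun_prop
  have d3 : DifferentiableAt ℂ (fun z : ℂ => 1 / (z + n + ph)) z :=
    (differentiableAt_const _).div d2 hne
  have hslit : 1 / (z + n + ph : ℂ) ∈ Complex.slitPlane := by
    left
    rw [one_div, Complex.inv_re]
    exact div_pos hre (Complex.normSq_pos.mpr hne)
  exact ((d1.div d2 hne).pow k).mul (d3.cpow (differentiableAt_const _) hslit)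

theorem summable7746 (s : ℝ) (hs : 1 < s) : Summable (fun n : ℕ => ((n : ℝ) + 1) ^ (-s)) := by
  have h := (summable_nat_add_iff 1).mpr (Real.summable_nat_rpow.mpr (by linarith : -s < -1))
  refine h.congr fun n => ?_
  push_cast
  rfl

theorem Et_continuousOn (s : ℝ) (hs : 1 < s) (k : ℕ) : ContinuousOn (Et s k) Disc := by
  refine continuousOn_tsum (u := fun n : ℕ => ((n : ℝ) + 1) ^ (-s)) (fun n z hz => ?_)
    (summable7746 s hs) (fun n z hz => term_norm_le s hs z hz n k)
  exact (term_diff7746 s k n hz).continuousAt.continuousWithinAt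

theorem Et_differentiableOn (s : ℝ) (hs : 1 < s) (k : ℕ) :
    DifferentiableOn ℂ (Et s k) (Metric.ball (1 : ℂ) (3 / 2)) := by
  refine Complex.differentiableOn_tsum_of_summable_norm (u := fun n : ℕ => ((n : ℝ) + 1) ^ (-s))
    (summable7746 s hs) (fun n z hz => ?_) Metric.isOpen_ball
    (fun n z hz => term_norm_le s hs z (Metric.ball_subset_closedBall hz) n k)
  exact (term_diff7746 s k n (Metric.ball_subset_closedBall hz)).differentiableWithinAt

theorem exists_series (s : ℝ) (hs : 1 < s) (c : ℕ → ℂ) (hc : Summable (fun k => ‖c k‖)) :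
    ∃ f : X, ∀ z : Disc, (f : C(Disc, ℂ)) z = ∑' k, c k * Et s k z := by
  set Z : ℝ := ∑' n : ℕ, ((n : ℝ) + 1) ^ (-s) with hZ
  have hsum : Summable (fun k => ‖c k‖ * Z) := hc.mul_right Z
  have hb : ∀ k z, z ∈ Disc → ‖c k * Et s k z‖ ≤ ‖c k‖ * Z := by
    intro k z hz
    rw [norm_mul]
    exact mul_le_mul_of_nonneg_left (Et_norm_le s hs k z hz) (norm_nonneg _)
  have hcont : ContinuousOn (fun z => ∑' k, c k * Et s k z) Disc :=
    continuousOn_tsum (fun k => continuousOn_const.mul (Et_continuousOn s hs k)) hsum hb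
  have hdiff : DifferentiableOn ℂ (fun z => ∑' k, c k * Et s k z) (Metric.ball (1 : ℂ) (3 / 2)) :=
    Complex.differentiableOn_tsum_of_summable_norm hsum
      (fun k => (Et_differentiableOn s hs k).const_mul (c k)) Metric.isOpen_ball
      (fun k z hz => hb k z (Metric.ball_subset_closedBall hz))
  let f0 : C(Disc, ℂ) := ⟨fun z => ∑' k, c k * Et s k z, continuousOn_iff_continuous_restrict.mp hcont⟩
  have hf0 : f0 ∈ X := by
    change DifferentiableOn ℂ (ext f0) (Metric.ball (1 : ℂ) (3 / 2))
    refine hdiff.congr fun z hz => ?_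
    have hz' : z ∈ Disc := Metric.ball_subset_closedBall hz
    simp only [ext, hz', dif_pos]
    rfl
  exact ⟨⟨f0, hf0⟩, fun z => rfl⟩

end Pool.Agent.Helper242.RM
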