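import Pool.Agent.Helper242.RM.Defs

set_option autoImplicit false

namespace Pool.Agent.Helper242.RM

open MeasureTheory Set Filter Topology

open Classical in
/-- Extension by zero of a function on the closed disc. -/

theorem rm_s5_sq : √5 * √5 = (5:ℝ) := Real.mul_self_sqrt (by norm_num)

theorem rm_s5_lo : (2.236 : ℝ) < √5 := by
  rw [Real.lt_sqrt (by norm_num)]; norm_num

theorem rm_s5_hi : √5 < (2.2361 : ℝ) := by
  rw [Real.sqrt_lt' (by norm_num)]; norm_num

theorem ph_eq : ph = th + 1 := by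
  unfold ph th; ring

theorem th_mul_ph : th * ph = 1 := by
  unfold ph th
  have := rm_s5_sq
  linear_combination (1 / 4 : ℝ) * this

theorem rm_th_lo : (0.618 : ℝ) < th := by have := rm_s5_lo; unfold th; linarith

theorem rm_th_hi : th < (0.61805 : ℝ) := by have := rm_s5_hi; unfold th; linarith

theorem rm_th_pos : 0 < th := by have := rm_th_lo; linarith

theorem rm_th_sq : th ^ 2 = 1 - th := by
  have := th_mul_ph
  rw [ph_eq] at this
  linear_combination this

theorem rm_one_sub_ne {u : ℂ} (hu : ‖u‖ < 9 / 20) : (1 : ℂ) - u ≠ 0 := by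
  intro h
  have : u = 1 := by linear_combination -h
  rw [this, norm_one] at hu
  norm_num at hu

theorem wmap_mem (u : ℂ) (hu : ‖u‖ < 9 / 20) : wmap u ∈ Metric.ball (1 : ℂ) (3 / 2) := by
  have hne := rm_one_sub_ne hu
  rw [Metric.mem_ball, dist_eq_norm]
  have e : wmap u - 1 = (((th - 1 : ℝ) : ℂ) + ((ph + 1 : ℝ) : ℂ) * u) / (1 - u) := by
    unfold wmap
    rw [div_sub_one hne]
    push_cast
    ring_nf
  have hpos : 0 < ‖1 - u‖ := norm_pos_iff.mpr hne
  rw [e, norm_div, div_lt_iff₀ hpos]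
  apply lt_of_pow_lt_pow_left₀ 2 (by positivity)
  rw [mul_pow, ← Complex.normSq_eq_norm_sq, ← Complex.normSq_eq_norm_sq]
  have hR : u.re ^ 2 + u.im ^ 2 < 81 / 400 := by
    have h1 : ‖u‖ ^ 2 < (9 / 20) ^ 2 := pow_lt_pow_left₀ hu (norm_nonneg _) (by norm_num)
    rw [← Complex.normSq_eq_norm_sq, Complex.normSq_apply] at h1
    nlinarith
  have ha : u.re ≤ 9 / 20 := (Complex.re_le_norm u).trans hu.le
  rw [Complex.normSq_apply, Complex.normSq_apply]
  have r1 : (((th - 1 : ℝ) : ℂ) + ((ph + 1 : ℝ) : ℂ) * u).re = (th - 1) + (ph + 1) * u.re := by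
    rw [Complex.add_re, Complex.re_ofReal_mul, Complex.ofReal_re]
  have r2 : (((th - 1 : ℝ) : ℂ) + ((ph + 1 : ℝ) : ℂ) * u).im = (ph + 1) * u.im := by
    rw [Complex.add_im, Complex.im_ofReal_mul, Complex.ofReal_im, zero_add]
  have r3 : (1 - u).re = 1 - u.re := by simp
  have r4 : (1 - u).im = -u.im := by simp
  rw [r1, r2, r3, r4]
  set a := u.re
  set b := u.im
  have hth := rm_th_sq
  have t1 := rm_th_lo
  have t2 := rm_th_hi
  rw [ph_eq]
  have k1 : (th - 1) ^ 2 = 2 - 3 * th := by linear_combination hth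
  have k2 : (th + 1 + 1) ^ 2 = 5 + 3 * th := by linear_combination hth
  have k3 : (th - 1) * (th + 1 + 1) = -1 := by linear_combination hth
  have k4 : (th - 1 + (th + 1 + 1) * a) * (th - 1 + (th + 1 + 1) * a)
      + (th + 1 + 1) * b * ((th + 1 + 1) * b)
      = (2 - 3 * th) - 2 * a + (5 + 3 * th) * (a ^ 2 + b ^ 2) := by
    linear_combination k1 + 2 * a * k3 + (a ^ 2 + b ^ 2) * k2
  rw [k4]
  have hRn : 0 ≤ a ^ 2 + b ^ 2 := by positivity
  have k5 : (11 / 4 + 3 * th) * (a ^ 2 + b ^ 2) ≤ (11 / 4 + 3 * th) * (81 / 400) :=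
    mul_le_mul_of_nonneg_left hR.le (by linarith)
  nlinarith

theorem rm_wmap_re {u : ℂ} (hu : ‖u‖ < 9 / 20) : 0 < (wmap u + ph).re := by
  have h := wmap_mem u hu
  rw [Metric.mem_ball, dist_eq_norm] at h
  have h1 := (Complex.abs_re_le_norm (wmap u - 1)).trans h.le
  rw [abs_le, Complex.sub_re, Complex.one_re] at h1
  rw [Complex.add_re, Complex.ofReal_re]
  have t1 := rm_th_lo
  rw [ph_eq]
  linarith [h1.1]

theorem Ft_differentiable (s : ℝ) (f : X) :
    DifferentiableOn ℂ (Ft s (ext (f : C(Disc, ℂ)))) (Metric.ball 0 (9 / 20)) := by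
  have hw : DifferentiableOn ℂ wmap (Metric.ball 0 (9 / 20)) := by
    unfold wmap
    refine DifferentiableOn.div ?_ ?_ ?_
    · fun_prop
    · fun_prop
    · intro u hu
      rw [mem_ball_zero_iff] at hu
      exact rm_one_sub_ne hu
  have hf : DifferentiableOn ℂ (ext (f : C(Disc, ℂ))) (Metric.ball (1 : ℂ) (3 / 2)) := f.2
  unfold Ft
  refine DifferentiableOn.mul ?_ ?_
  · refine DifferentiableOn.cpow (hw.add (differentiableOn_const _)) (differentiableOn_const _) ?_
    intro u hu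
    rw [mem_ball_zero_iff] at hu
    exact Or.inl (rm_wmap_re hu)
  · refine hf.comp hw ?_
    intro u hu
    rw [mem_ball_zero_iff] at hu
    exact wmap_mem u hu

theorem ak_hasSum (s : ℝ) (f : X) (u : ℂ) (hu : ‖u‖ < 9 / 20) :
    HasSum (fun k => ak s (ext (f : C(Disc, ℂ))) k * u ^ k) (Ft s (ext (f : C(Disc, ℂ))) u) := by
  have h := Complex.hasSum_taylorSeries_on_ball (Ft_differentiable s f) (z := u)
    (by rw [mem_ball_zero_iff]; exact hu)
  refine h.congr_fun ?_
  intro k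
  unfold ak
  rw [sub_zero, smul_eq_mul, smul_eq_mul]
  ring

theorem ak_bound (s : ℝ) (f : X) :
    ∃ C : ℝ, ∀ k, ‖ak s (ext (f : C(Disc, ℂ))) k‖ ≤ C * (5 / 2) ^ k := by
  have h := (ak_hasSum s f (2 / 5 : ℂ) (by norm_num)).summable.norm
  refine ⟨∑' k, ‖ak s (ext (f : C(Disc, ℂ))) k * (2 / 5 : ℂ) ^ k‖, fun k => ?_⟩
  have h1 := h.le_tsum k (fun j _ => norm_nonneg _)
  rw [norm_mul, norm_pow] at h1
  have h2 : ‖(2 / 5 : ℂ)‖ = 2 / 5 := by norm_num
  rw [h2] at h1
  have h3 : ‖ak s (ext (f : C(Disc, ℂ))) k‖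
      = ‖ak s (ext (f : C(Disc, ℂ))) k‖ * (2 / 5 : ℝ) ^ k * (5 / 2) ^ k := by
    rw [mul_assoc, ← mul_pow]
    norm_num
  rw [h3]
  exact mul_le_mul_of_nonneg_right h1 (by positivity)

theorem Lam_ak_summable (s : ℝ) (f : X) :
    Summable (fun k => ‖(Lam s k : ℂ) * ak s (ext (f : C(Disc, ℂ))) k‖) := by
  obtain ⟨C, hC⟩ := ak_bound s f
  have hr0 : 0 ≤ th ^ 2 * (5 / 2) := by positivity
  have hr : th ^ 2 * (5 / 2) < 1 := by
    rw [rm_th_sq]
    have := rm_th_lo
    linarith
  refine Summable.of_nonneg_of_le (fun k => norm_nonneg _) (fun k => ?_)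
    ((summable_geometric_of_lt_one hr0 hr).mul_left (th ^ s * C))
  rw [norm_mul, Complex.norm_real]
  have hth := rm_th_pos
  have e1 : ‖Lam s k‖ = th ^ s * (th ^ 2) ^ k := by
    unfold Lam
    rw [norm_mul, norm_pow, norm_neg, Real.norm_of_nonneg (Real.rpow_nonneg hth.le _),
      Real.norm_of_nonneg (by positivity)]
  rw [e1]
  have h1 := mul_le_mul_of_nonneg_left (hC k)
    (mul_nonneg (Real.rpow_nonneg hth.le s) (by positivity : (0:ℝ) ≤ (th ^ 2) ^ k))
  refine h1.trans (le_of_eq ?_)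
  rw [mul_pow]
  ring

theorem rm_ext_add (f g : C(Disc, ℂ)) : ext (f + g) = ext f + ext g := by
  funext z
  by_cases h : z ∈ Disc <;> simp [ext, h]

theorem rm_ext_smul (c : ℂ) (f : C(Disc, ℂ)) : ext (c • f) = c • ext f := by
  funext z
  by_cases h : z ∈ Disc <;> simp [ext, h]

theorem rm_contDiffAt (s : ℝ) (f : X) (k : ℕ) :
    ContDiffAt ℂ k (Ft s (ext (f : C(Disc, ℂ)))) 0 :=
  ((Ft_differentiable s f).analyticAt (Metric.ball_mem_nhds 0 (by norm_num))).contDiffAt

theorem ak_add (s : ℝ) (f g : X) (k : ℕ) :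
    ak s (ext ((f : C(Disc, ℂ)) + g)) k
      = ak s (ext (f : C(Disc, ℂ))) k + ak s (ext (g : C(Disc, ℂ))) k := by
  have e : Ft s (ext ((f : C(Disc, ℂ)) + g)) = Ft s (ext (f : C(Disc, ℂ))) + Ft s (ext (g : C(Disc, ℂ))) := by
    funext u
    unfold Ft
    rw [rm_ext_add]
    simp only [Pi.add_apply]
    ring
  unfold ak
  rw [e, iteratedDeriv_add (rm_contDiffAt s f k) (rm_contDiffAt s g k)]
  ring

theorem ak_smul (s : ℝ) (c : ℂ) (f : X) (k : ℕ) :
    ak s (ext (c • (f : C(Disc, ℂ)))) k = c * ak s (ext (f : C(Disc, ℂ))) k := by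
  have e : Ft s (ext (c • (f : C(Disc, ℂ)))) = fun u => c * Ft s (ext (f : C(Disc, ℂ))) u := by
    funext u
    unfold Ft
    rw [rm_ext_smul]
    simp only [Pi.smul_apply, smul_eq_mul]
    ring
  unfold ak
  rw [e, iteratedDeriv_const_mul_field]
  ring

/-- injectivity -/
theorem eq_zero_of_ak (s : ℝ) (f : X) (h : ∀ k, ak s (ext (f : C(Disc, ℂ))) k = 0) : f = 0 := by
  have hF : ∀ u : ℂ, ‖u‖ < 9 / 20 → ext (f : C(Disc, ℂ)) (wmap u) = 0 := by
    intro u hu
    have h1 := ak_hasSum s f u hu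
    simp only [h, zero_mul] at h1
    have h2 := h1.unique hasSum_zero
    unfold Ft at h2
    rcases mul_eq_zero.mp h2 with h3 | h3
    · exfalso
      have h4 : wmap u + ph ≠ 0 := by
        intro h5
        have := rm_wmap_re hu
        rw [h5] at this
        simp at this
      rw [Complex.cpow_eq_zero_iff] at h3
      exact h4 h3.1
    · exact h3
  have hthm : (th : ℂ) ∈ Metric.ball (1 : ℂ) (3 / 2) := by
    rw [Metric.mem_ball, dist_eq_norm]
    have e : (th : ℂ) - 1 = ((th - 1 : ℝ) : ℂ) := by push_cast; ring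
    rw [e, Complex.norm_real, Real.norm_eq_abs, abs_lt]
    have t1 := rm_th_lo
    have t2 := rm_th_hi
    constructor <;> linarith
  have hev : ext (f : C(Disc, ℂ)) =ᶠ[𝓝 (th : ℂ)] 0 := by
    have hden : ((th : ℂ) + ph) ≠ 0 := by
      have : ((th : ℂ) + ph) = ((th + ph : ℝ) : ℂ) := by push_cast; ring
      rw [this]
      have t1 := rm_th_lo
      have : th + ph ≠ 0 := by rw [ph_eq]; linarith
      exact_mod_cast this
    have hc : ContinuousAt (fun w : ℂ => (w - th) / (w + ph)) (th : ℂ) :=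
      ContinuousAt.div (by fun_prop) (by fun_prop) hden
    have h0 : (fun w : ℂ => (w - th) / (w + ph)) (th : ℂ) = 0 := by simp
    have h1 : ∀ᶠ w : ℂ in 𝓝 (th : ℂ), ‖(w - th) / (w + ph)‖ < 9 / 20 := by
      have h2 : Tendsto (fun w : ℂ => ‖(w - th) / (w + ph)‖) (𝓝 (th : ℂ)) (𝓝 0) := by
        have h3 := hc.norm
        unfold ContinuousAt at h3
        simp only [sub_self, zero_div, norm_zero] at h3
        exact h3
      exact h2.eventually (gt_mem_nhds (by norm_num))
    have h4 : ∀ᶠ w : ℂ in 𝓝 (th : ℂ), w + ph ≠ 0 :=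
      (continuous_id.add continuous_const).continuousAt.eventually_ne hden
    filter_upwards [h1, h4] with w hw hne
    have e : wmap ((w - th) / (w + ph)) = w := by
      unfold wmap
      have hd : (1 : ℂ) - (w - th) / (w + ph) = ((ph : ℂ) + th) / (w + ph) := by
        field_simp
        ring
      have hd' : ((ph : ℂ) + th) ≠ 0 := by rw [add_comm]; exact hden
      rw [hd]
      field_simp
      ring
    have h5 := hF _ hw
    rw [e] at h5
    exact h5
  have hf : DifferentiableOn ℂ (ext (f : C(Disc, ℂ))) (Metric.ball (1 : ℂ) (3 / 2)) := f.2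
  have hball : EqOn (ext (f : C(Disc, ℂ))) 0 (Metric.ball (1 : ℂ) (3 / 2)) :=
    (hf.analyticOnNhd Metric.isOpen_ball).eqOn_zero_of_preconnected_of_eventuallyEq_zero
      (convex_ball _ _).isPreconnected hthm hev
  have hcont : ContinuousOn (ext (f : C(Disc, ℂ))) Disc := by
    rw [continuousOn_iff_continuous_domRestrict]
    have : Disc.domRestrict (ext (f : C(Disc, ℂ))) = (f : C(Disc, ℂ)) := by
      funext z
      simp [ext]
    rw [this]
    exact (f : C(Disc, ℂ)).continuous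
  have hall : EqOn (ext (f : C(Disc, ℂ))) 0 Disc :=
    hball.of_subset_closure hcont continuousOn_const Metric.ball_subset_closedBall
      (by rw [closure_ball _ (by norm_num)])
  apply Subtype.ext
  apply ContinuousMap.ext
  intro z
  have h6 := hall z.2
  have h7 : ext (f : C(Disc, ℂ)) z = (f : C(Disc, ℂ)) z := by
    unfold ext
    rw [dif_pos z.2]
  rw [h7] at h6
  exact h6

end Pool.Agent.Helper242.RM
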