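import Pool.Agent.Helper242.RM.C2
import Pool.Agent.Helper242.RM.C3

set_option autoImplicit false

namespace Pool.Agent.Helper242.RM

open MeasureTheory Set Filter Topology

open Classical in
/-- Extension by zero of a function on the closed disc. -/

theorem th_pos : 0 < th := by
  have h5 : (2:ℝ) < √5 := by
    rw [Real.lt_sqrt (by norm_num)]; norm_num
  unfold th; linarith

theorem ph_ge : 3 / 2 ≤ ph := by
  have h5 : (2:ℝ) < √5 := by
    rw [Real.lt_sqrt (by norm_num)]; norm_num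
  unfold ph; linarith

theorem th_sq_lt : th ^ 2 < 9 / 20 := by
  have h5 : √5 < 2.24 := by
    rw [Real.sqrt_lt' (by norm_num)]; norm_num
  have h0 := th_pos
  have h1 : th < 0.62 := by unfold th; linarith
  nlinarith

theorem re_ge (z : ℂ) (hz : z ∈ Disc) : -(1 / 2) ≤ z.re := by
  have h1 : ‖z - 1‖ ≤ 3 / 2 := by
    rw [← Complex.dist_eq]; exact Metric.mem_closedBall.1 hz
  have h2 := Complex.abs_re_le_norm (z - 1)
  have h3 := abs_le.1 (h2.trans h1)
  simp only [Complex.sub_re, Complex.one_re] at h3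
  linarith [h3.1]

theorem re_zeta (z : ℂ) (hz : z ∈ Disc) (n : ℕ) : (n : ℝ) + 1 ≤ (z + n + ph).re := by
  have h1 := re_ge z hz
  have h2 := ph_ge
  simp only [Complex.add_re, Complex.natCast_re, Complex.ofReal_re]
  linarith

theorem norm_zeta (z : ℂ) (hz : z ∈ Disc) (n : ℕ) : (n : ℝ) + 1 ≤ ‖z + n + ph‖ :=
  (re_zeta z hz n).trans ((le_abs_self _).trans (Complex.abs_re_le_norm _))

theorem quot_norm_le (z : ℂ) (hz : z ∈ Disc) (n : ℕ) :
    ‖(z + n - th) / (z + n + ph)‖ ≤ 1 := by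
  rw [norm_div]
  apply div_le_one_of_le₀ _ (norm_nonneg _)
  rw [← sq_le_sq₀ (norm_nonneg _) (norm_nonneg _), ← Complex.normSq_eq_norm_sq,
    ← Complex.normSq_eq_norm_sq, Complex.normSq_apply, Complex.normSq_apply]
  simp only [Complex.add_re, Complex.sub_re, Complex.add_im, Complex.sub_im, Complex.natCast_re,
    Complex.natCast_im, Complex.ofReal_re, Complex.ofReal_im]
  have h1 := re_ge z hz
  have h2 := ph_eq
  have h3 := th_pos
  have h4 : (0:ℝ) ≤ n := Nat.cast_nonneg n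
  rw [h2]
  nlinarith

theorem term_norm_le (s : ℝ) (hs : 1 < s) (z : ℂ) (hz : z ∈ Disc) (n k : ℕ) :
    ‖((z + n - th) / (z + n + ph)) ^ k * (1 / (z + n + ph)) ^ (s : ℂ)‖ ≤ ((n : ℝ) + 1) ^ (-s) := by
  have h1 : (0:ℝ) < (n:ℝ) + 1 := by positivity
  rw [norm_mul, norm_pow, Complex.norm_cpow_real, one_div, norm_inv]
  have h2 : ‖(z + n - th) / (z + n + ph)‖ ^ k ≤ 1 :=
    pow_le_one₀ (norm_nonneg _) (quot_norm_le z hz n)
  have h3 : ‖z + n + ph‖⁻¹ ^ s ≤ ((n : ℝ) + 1) ^ (-s) := by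
    rw [Real.rpow_neg h1.le, ← Real.inv_rpow h1.le]
    apply Real.rpow_le_rpow (inv_nonneg.2 (norm_nonneg _)) _ (by linarith)
    exact inv_anti₀ h1 (norm_zeta z hz n)
  calc _ ≤ 1 * ‖z + n + ph‖⁻¹ ^ s := mul_le_mul_of_nonneg_right h2
        (Real.rpow_nonneg (inv_nonneg.2 (norm_nonneg _)) _)
    _ ≤ _ := by rw [one_mul]; exact h3

theorem summable_n (s : ℝ) (hs : 1 < s) : Summable (fun n : ℕ => ((n : ℝ) + 1) ^ (-s)) := by
  have h1 : Summable (fun n : ℕ => (n : ℝ) ^ (-s)) := Real.summable_nat_rpow.2 (by linarith)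
  have h2 := (summable_nat_add_iff 1).2 h1
  simpa using h2

theorem Et_norm_le (s : ℝ) (hs : 1 < s) (k : ℕ) (z : ℂ) (hz : z ∈ Disc) :
    ‖Et s k z‖ ≤ ∑' n : ℕ, ((n : ℝ) + 1) ^ (-s) :=
  tsum_of_norm_bounded (summable_n s hs).hasSum (fun n => term_norm_le s hs z hz n k)

theorem arg_ne_pi {w : ℂ} (hw : 0 < w.re) : w.arg ≠ Real.pi := by
  intro h
  have := (Complex.abs_arg_lt_pi_div_two_iff (z := w)).2 (Or.inl hw)
  rw [h, abs_of_pos Real.pi_pos] at this
  linarith [Real.pi_pos]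

theorem factor_eq (s : ℝ) (W ζ : ℂ) (hW : 0 < W.re) (hζ : 0 < ζ.re) :
    ((th ^ s : ℝ) : ℂ) * (1 / ζ) ^ (s : ℂ) * ((ph : ℂ) * (ζ * W⁻¹)) ^ (s : ℂ) = W ^ (-(s : ℂ)) := by
  have hth := th_pos
  have hph : 0 < ph := by linarith [ph_ge]
  have hW0 : W ≠ 0 := by rintro rfl; simp at hW
  have hζ0 : ζ ≠ 0 := by rintro rfl; simp at hζ
  have hprod : ζ * W⁻¹ ≠ 0 := mul_ne_zero hζ0 (inv_ne_zero hW0)
  have hphc : (ph : ℂ) ≠ 0 := by exact_mod_cast hph.ne'
  have haW := abs_lt.1 ((Complex.abs_arg_lt_pi_div_two_iff (z := W)).2 (Or.inl hW))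
  have haζ := abs_lt.1 ((Complex.abs_arg_lt_pi_div_two_iff (z := ζ)).2 (Or.inl hζ))
  have hl1 : Complex.log (ζ * W⁻¹) = Complex.log ζ - Complex.log W := by
    rw [Complex.log_mul hζ0 (inv_ne_zero hW0), Complex.log_inv _ (arg_ne_pi hW)]
    · ring
    · rw [Complex.arg_inv, if_neg (arg_ne_pi hW)]
      constructor
      · linarith [haW.2, haζ.1]
      · linarith [haW.1, haζ.2]
  have hl2 : Complex.log ((ph : ℂ) * (ζ * W⁻¹)) = Real.log ph + (Complex.log ζ - Complex.log W) := by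
    rw [Complex.log_ofReal_mul hph hprod, hl1]
  have hl3 : Complex.log (1 / ζ) = -Complex.log ζ := by
    rw [one_div, Complex.log_inv _ (arg_ne_pi hζ)]
  have hl4 : Real.log th + Real.log ph = 0 := by
    rw [← Real.log_mul hth.ne' hph.ne', th_mul_ph, Real.log_one]
  rw [Complex.cpow_def_of_ne_zero (by simpa using hζ0), Complex.cpow_def_of_ne_zero (mul_ne_zero hphc hprod),
    Complex.cpow_def_of_ne_zero hW0, hl2, hl3, Real.rpow_def_of_pos hth, Complex.ofReal_exp,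
    ← Complex.exp_add, ← Complex.exp_add]
  congr 1
  have hl4' : (Real.log th : ℂ) + Real.log ph = 0 := by exact_mod_cast hl4
  push_cast
  linear_combination (s:ℂ) * hl4'

theorem Gval_term (s : ℝ) (hs : 1 < s) (f : X) (z : ℂ) (hz : z ∈ Disc) (n : ℕ) :
    HasSum (fun k => ((Lam s k : ℂ) * ak s (ext (f : C(Disc, ℂ))) k)
        * (((z + n - th) / (z + n + ph)) ^ k * (1 / (z + n + ph)) ^ (s : ℂ)))
      ((z + ((n : ℂ) + 1)) ^ (-(s : ℂ)) * ext (f : C(Disc, ℂ)) (z + ((n : ℂ) + 1))⁻¹) := by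
  have hth := th_pos
  have hph : 0 < ph := by linarith [ph_ge]
  set q : ℂ := (z + n - th) / (z + n + ph) with hq
  set ζ : ℂ := z + n + ph with hζdef
  set W : ℂ := z + ((n : ℂ) + 1) with hWdef
  have hn0 : (0:ℝ) ≤ n := Nat.cast_nonneg n
  have hζre : 0 < ζ.re := by
    have := re_zeta z hz n
    linarith
  have hWre : 0 < W.re := by
    have := re_ge z hz
    simp only [hWdef, Complex.add_re, Complex.natCast_re, Complex.one_re]
    linarith
  have hζ0 : ζ ≠ 0 := by intro h; rw [h] at hζre; simp at hζre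
  have hW0 : W ≠ 0 := by intro h; rw [h] at hWre; simp at hWre
  have hqn : ‖q‖ ≤ 1 := quot_norm_le z hz n
  set u : ℂ := -(th : ℂ) ^ 2 * q with hu
  have hun : ‖u‖ < 9 / 20 := by
    rw [hu, norm_mul, norm_neg, norm_pow, Complex.norm_real, Real.norm_eq_abs, abs_of_pos hth]
    have := th_sq_lt
    have h0 : 0 ≤ th ^ 2 := by positivity
    nlinarith [norm_nonneg q]
  have hphth : (ph : ℂ) = th + 1 := by exact_mod_cast ph_eq
  have hthph : (th : ℂ) * ph = 1 := by exact_mod_cast th_mul_ph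
  have hWζ : W = ζ - th := by
    rw [hWdef, hζdef, hphth]; ring
  have hqζ : q * ζ = ζ - th - ph := by
    rw [hq, div_mul_cancel₀ _ hζ0, hζdef]
    ring
  have h1u : (1 - u) * ζ = (1 + (th:ℂ) ^ 2) * W := by
    rw [hu, hWζ]
    linear_combination ((th:ℂ) ^ 2) * hqζ - (th:ℂ) * hthph
  have h2u : ((th:ℂ) + ph * u) * ζ = (1 + (th:ℂ) ^ 2) := by
    rw [hu]
    linear_combination (-(th:ℂ) ^ 2 * ph) * hqζ + (-(th:ℂ) * ζ + th ^ 2 + th * ph + 1) * hthph
  have h12 : (1 + (th:ℂ) ^ 2) ≠ 0 := by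
    have : (0:ℝ) < 1 + th ^ 2 := by positivity
    exact_mod_cast this.ne'
  have h1u0 : 1 - u ≠ 0 := by
    intro h
    rw [h, zero_mul] at h1u
    exact (mul_ne_zero h12 hW0) h1u.symm
  have hwm : wmap u = W⁻¹ := by
    unfold wmap
    rw [div_eq_iff h1u0]
    apply mul_right_cancel₀ hζ0
    rw [h2u, mul_assoc, h1u]
    field_simp
  have hwp : wmap u + ph = (ph : ℂ) * (ζ * W⁻¹) := by
    rw [hwm, hWζ]
    have : ζ - th ≠ 0 := by rw [← hWζ]; exact hW0
    field_simp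
    linear_combination (-1:ℂ) * hthph
  have hs1 := ak_hasSum s f u hun
  have hs2 := hs1.mul_left (((th ^ s : ℝ) : ℂ) * (1 / ζ) ^ (s : ℂ))
  have e : ((th ^ s : ℝ) : ℂ) * (1 / ζ) ^ (s : ℂ) * Ft s (ext (f : C(Disc, ℂ))) u
      = W ^ (-(s : ℂ)) * ext (f : C(Disc, ℂ)) W⁻¹ := by
    unfold Ft
    rw [hwp, hwm, ← mul_assoc, factor_eq s W ζ hWre hζre]
  rw [e] at hs2
  refine hs2.congr_fun ?_ |> fun h => h
  intro k
  unfold Lam
  rw [hu, mul_pow]
  push_cast
  ring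

theorem Gval_hasSum (s : ℝ) (hs : 1 < s) (f : X) (z : ℂ) (hz : z ∈ Disc) :
    HasSum (fun k => ((Lam s k : ℂ) * ak s (ext (f : C(Disc, ℂ))) k) * Et s k z)
      (Gval s (f : C(Disc, ℂ)) z) := by
  set c : ℕ → ℂ := fun k => (Lam s k : ℂ) * ak s (ext (f : C(Disc, ℂ))) k with hc
  set T : ℕ → ℕ → ℂ := fun n k => ((z + n - th) / (z + n + ph)) ^ k * (1 / (z + n + ph)) ^ (s : ℂ) with hT
  have hcs : Summable (fun k => ‖c k‖) := Lam_ak_summable s f
  have hTn : ∀ n k, ‖T n k‖ ≤ ((n : ℝ) + 1) ^ (-s) := fun n k => term_norm_le s hs z hz n k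
  have hsum : Summable (fun p : ℕ × ℕ => c p.2 * T p.1 p.2) := by
    have h1 : Summable (fun p : ℕ × ℕ => ((p.1 : ℝ) + 1) ^ (-s) * ‖c p.2‖) :=
      (summable_n s hs).mul_of_nonneg hcs (fun n => Real.rpow_nonneg (by positivity) _)
        (fun k => norm_nonneg _)
    refine Summable.of_norm_bounded h1 ?_
    rintro ⟨n, k⟩
    rw [norm_mul, mul_comm]
    exact mul_le_mul_of_nonneg_right (hTn n k) (norm_nonneg _)
  obtain ⟨S, hS⟩ := hsum
  have h1 := hS.prod_fiberwise (fun n => Gval_term s hs f z hz n)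
  have h2 : Gval s (f : C(Disc, ℂ)) z = S := h1.tsum_eq
  have hS' : HasSum (fun p : ℕ × ℕ => c p.1 * T p.2 p.1) S := (Equiv.prodComm ℕ ℕ).hasSum_iff.1 hS |> fun h => h
  have h3 := hS'.prod_fiberwise (g := fun k => c k * Et s k z) (fun k => by
    have hTs : Summable (fun n => T n k) := Summable.of_norm_bounded (summable_n s hs) (fun n => hTn n k)
    exact hTs.hasSum.mul_left (c k))
  rw [h2]
  exact h3

end Pool.Agent.Helper242.RM
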