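import Pool.Agent.Helper242.RM.Defs

set_option autoImplicit false

namespace Pool.Agent.Helper242.RM

open MeasureTheory Set Filter Topology

theorem Lag_succ (s : ℝ) (hs : 0 < s) (k : ℕ) (t : ℝ) :
    Lag (s + 1) k t = ∑ i ∈ Finset.range (k + 1), Lag s i t := by
  induction k with
  | zero =>
    simp only [Lag, zero_add, Finset.range_one, Finset.sum_singleton, pow_zero, Nat.cast_zero,
      Nat.sub_zero, Nat.factorial_zero, Nat.cast_one, mul_one, one_mul]
    rw [div_self (Real.Gamma_pos_of_pos (by linarith)).ne',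
      div_self (Real.Gamma_pos_of_pos hs).ne']
  | succ k ih =>
    rw [Finset.sum_range_succ, ← ih]
    unfold Lag
    rw [Finset.sum_range_succ _ (k + 1), Finset.sum_range_succ _ (k + 1)]
    refine Eq.trans ?_ (add_assoc _ _ _)
    rw [← Finset.sum_add_distrib]
    congr 1
    · refine Finset.sum_congr rfl fun i hi => ?_
      rw [Finset.mem_range] at hi
      obtain ⟨j, rfl⟩ : ∃ j, k = i + j := ⟨k - i, by omega⟩
      have e1 : i + j + 1 - i = j + 1 := by omega
      have e2 : i + j - i = j := by omega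
      rw [e1, e2, Nat.factorial_succ]
      have g1 : Real.Gamma (((i + j + 1 : ℕ) : ℝ) + (s + 1)) =
          (((i : ℝ) + j + 1 + s)) * Real.Gamma (((i + j + 1 : ℕ) : ℝ) + s) := by
        have h0 : (0:ℝ) < ((i + j + 1 : ℕ) : ℝ) + s := by positivity
        have := Real.Gamma_add_one h0.ne'
        rw [← add_assoc, this]
        push_cast
        ring
      have g2 : Real.Gamma (((i + j : ℕ) : ℝ) + (s + 1)) =
          Real.Gamma (((i + j + 1 : ℕ) : ℝ) + s) := by
        congr 1
        push_cast
        ring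
      have g3 : Real.Gamma ((i : ℝ) + (s + 1)) = ((i : ℝ) + s) * Real.Gamma ((i : ℝ) + s) := by
        have h0 : (0:ℝ) < (i : ℝ) + s := by positivity
        have := Real.Gamma_add_one h0.ne'
        rw [← add_assoc, this]
      rw [g1, g2, g3]
      have p1 : Real.Gamma ((i : ℝ) + s) ≠ 0 := (Real.Gamma_pos_of_pos (by positivity)).ne'
      have p2 : ((i : ℝ) + s) ≠ 0 := by positivity
      have p3 : ((j.factorial : ℕ) : ℝ) ≠ 0 := by positivity
      have p4 : ((i.factorial : ℕ) : ℝ) ≠ 0 := by positivity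
      have p5 : ((j : ℝ) + 1) ≠ 0 := by positivity
      push_cast
      field_simp
      ring
    · congr 2
      have e1 : k + 1 - (k + 1) = 0 := by omega
      rw [e1]
      have p1 : Real.Gamma (((k + 1 : ℕ) : ℝ) + s) ≠ 0 :=
        (Real.Gamma_pos_of_pos (by positivity)).ne'
      have p2 : Real.Gamma (((k + 1 : ℕ) : ℝ) + (s + 1)) ≠ 0 :=
        (Real.Gamma_pos_of_pos (by positivity)).ne'
      have p4 : (((k + 1).factorial : ℕ) : ℝ) ≠ 0 := by positivity
      have p5 : (((Nat.factorial 0) : ℕ) : ℝ) ≠ 0 := by positivity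
      field_simp

end Pool.Agent.Helper242.RM
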