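import Pool.Agent.Helper242.RM.L1
import Pool.Agent.Helper242.RM.L2

set_option autoImplicit false

namespace Pool.Agent.Helper242.RM

open MeasureTheory Set Filter Topology

theorem cc_pos : 0 < cc := by
  unfold cc
  positivity

theorem l5_nk_arg_pos (s : ℝ) (hs : 0 < s) (k : ℕ) :
    0 < cc ^ s * Real.Gamma (k + s) / k.factorial := by
  have h1 : 0 < cc ^ s := Real.rpow_pos_of_pos cc_pos s
  have h2 : 0 < Real.Gamma (k + s) := Real.Gamma_pos_of_pos (by positivity)
  positivity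

theorem nk_pos (s : ℝ) (hs : 0 < s) (k : ℕ) : 0 < nk s k := by
  unfold nk
  exact Real.sqrt_pos.2 (l5_nk_arg_pos s hs k)

theorem nk_sq (s : ℝ) (hs : 0 < s) (k : ℕ) :
    nk s k ^ 2 = cc ^ s * Real.Gamma (k + s) / k.factorial := by
  unfold nk
  exact Real.sq_sqrt (l5_nk_arg_pos s hs k).le

theorem nk_succ (s : ℝ) (hs : 0 < s) (k : ℕ) :
    nk s (k + 1) = nk s k * √((k + s) / (k + 1)) := by
  unfold nk
  rw [← Real.sqrt_mul (l5_nk_arg_pos s hs k).le]
  congr 1
  have h1 : ((k + 1 : ℕ) : ℝ) + s = (k + s) + 1 := by push_cast; ring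
  have h2 : (k : ℝ) + s ≠ 0 := by positivity
  rw [h1, Real.Gamma_add_one h2, Nat.factorial_succ]
  have h3 : ((k.factorial : ℕ) : ℝ) ≠ 0 := by positivity
  have h4 : (k : ℝ) + 1 ≠ 0 := by positivity
  push_cast
  field_simp

/-- auxiliary integrand -/
noncomputable def l5q (s : ℝ) (j k : ℕ) (x : ℝ) : ℝ :=
  x ^ (s - 1) * Real.exp (-(cc * x)) * (Lag s j (cc * x) * Lag s k (cc * x))

theorem l5q_eq (s : ℝ) (j k : ℕ) (x : ℝ) (hx : x ∈ Ioi (0 : ℝ)) :
    l5q s j k x = cc ^ (1 - s) * ((fun u : ℝ => u ^ (s - 1) * Real.exp (-u) *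
      (Lag s j u * Lag s k u)) (cc * x)) := by
  have hx' : 0 < x := hx
  unfold l5q
  show _ = cc ^ (1 - s) * ((cc * x) ^ (s - 1) * Real.exp (-(cc * x)) *
      (Lag s j (cc * x) * Lag s k (cc * x)))
  rw [Real.mul_rpow cc_pos.le hx'.le]
  have : cc ^ (1 - s) * cc ^ (s - 1) = 1 := by
    rw [← Real.rpow_add cc_pos]
    norm_num
  generalize hA : cc ^ (1 - s) = A at this ⊢
  generalize hB : cc ^ (s - 1) = B at this ⊢
  generalize Real.exp (-(cc * x)) = E
  generalize x ^ (s - 1) = Y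
  linear_combination (-(Y * E * (Lag s j (cc * x) * Lag s k (cc * x)))) * this

theorem l5q_int (s : ℝ) (hs : 0 < s) (j k : ℕ) : IntegrableOn (l5q s j k) (Ioi 0) := by
  have h := (integrableOn_Ioi_comp_mul_left_iff (fun u : ℝ => u ^ (s - 1) * Real.exp (-u) *
      (Lag s j u * Lag s k u)) 0 cc_pos).2 (by
        rw [mul_zero]
        exact Lag_orth_integrable s hs j k)
  exact (IntegrableOn.congr_fun (h.const_mul (cc ^ (1 - s)))
    (fun x hx => (l5q_eq s j k x hx).symm) measurableSet_Ioi)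

theorem l5q_integral (s : ℝ) (hs : 0 < s) (j k : ℕ) : ∫ x in Ioi (0 : ℝ), l5q s j k x =
    cc ^ (-s) * (if j = k then Real.Gamma (k + s) / k.factorial else 0) := by
  have h := integral_comp_mul_left_Ioi (fun u : ℝ => u ^ (s - 1) * Real.exp (-u) *
      (Lag s j u * Lag s k u)) 0 cc_pos
  rw [setIntegral_congr_fun measurableSet_Ioi (l5q_eq s j k), integral_const_mul,
    h, mul_zero, Lag_orth s hs, smul_eq_mul, ← mul_assoc]
  congr 1
  rw [← Real.rpow_neg_one, ← Real.rpow_add cc_pos]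
  congr 1
  ring

theorem l5_orth_pt (s : ℝ) (j k : ℕ) (x : ℝ) : pk s j x * pk s k x * w0 s x =
    (cc ^ s / nk s j * (cc ^ s / nk s k)) * l5q s j k x := by
  unfold pk w0 l5q
  ring

theorem pk_orth_integrable (s : ℝ) (hs : 0 < s) (j k : ℕ) :
    IntegrableOn (fun x : ℝ => pk s j x * pk s k x * w0 s x) (Ioi 0) := by
  simp only [l5_orth_pt]
  exact (l5q_int s hs j k).const_mul _

theorem pk_orth (s : ℝ) (hs : 0 < s) (j k : ℕ) :
    ∫ x in Ioi (0 : ℝ), pk s j x * pk s k x * w0 s x = if j = k then 1 else 0 := by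
  simp only [l5_orth_pt]
  rw [integral_const_mul, l5q_integral s hs]
  split_ifs with h
  · subst h
    have h1 := nk_sq s hs j
    have h2 := nk_pos s hs j
    have h3 : cc ^ s * cc ^ (-s) = 1 := by
      rw [← Real.rpow_add cc_pos]; norm_num
    calc cc ^ s / nk s j * (cc ^ s / nk s j) * (cc ^ (-s) * (Real.Gamma (j + s) / j.factorial))
        = (cc ^ s * cc ^ (-s)) * (cc ^ s * Real.Gamma (j + s) / j.factorial) / nk s j ^ 2 := by
          field_simp
      _ = 1 := by
          rw [h3, ← h1, one_mul, div_self (by positivity)]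
  · ring

/-- coefficients in the shifted basis -/
noncomputable def l5B (s : ℝ) (a : ℕ → ℝ) (N i : ℕ) : ℝ :=
  cc ^ s * ∑ k ∈ Finset.Ico i N, a k / nk s k

theorem l5_sum (s : ℝ) (hs : 1 < s) (a : ℕ → ℝ) (N : ℕ) (x : ℝ) :
    ∑ k ∈ Finset.range N, a k * pk s k x =
      ∑ i ∈ Finset.range N, l5B s a N i * Lag (s - 1) i (cc * x) := by
  have h1 : ∀ k ∈ Finset.range N, a k * pk s k x =
      ∑ i ∈ Finset.range (k + 1), cc ^ s * (a k / nk s k) * Lag (s - 1) i (cc * x) := by
    intro k _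
    have h := Lag_succ (s - 1) (by linarith) k (cc * x)
    rw [sub_add_cancel] at h
    unfold pk
    rw [h, ← Finset.mul_sum]
    ring
  rw [Finset.sum_congr rfl h1]
  rw [Finset.sum_comm' (t' := Finset.range N) (s' := fun i => Finset.Ico i N) (by
    intro k i
    simp only [Finset.mem_range, Finset.mem_Ico]
    omega)]
  refine Finset.sum_congr rfl (fun i _ => ?_)
  unfold l5B
  rw [Finset.mul_sum, Finset.sum_mul]

theorem l5_form_pt (s : ℝ) (hs : 1 < s) (a : ℕ → ℝ) (N : ℕ) (x : ℝ) (hx : x ∈ Ioi (0 : ℝ)) :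
    (∑ k ∈ Finset.range N, a k * pk s k x) ^ 2 * (w0 s x / x) =
      ∑ i ∈ Finset.range N, ∑ j ∈ Finset.range N, (l5B s a N i * l5B s a N j) *
        l5q (s - 1) i j x := by
  have hx' : 0 < x := hx
  rw [l5_sum s hs, sq, Finset.sum_mul_sum, Finset.sum_mul]
  refine Finset.sum_congr rfl (fun i _ => ?_)
  rw [Finset.sum_mul]
  refine Finset.sum_congr rfl (fun j _ => ?_)
  unfold l5q w0
  have : x ^ (s - 1) * Real.exp (-(cc * x)) / x = x ^ (s - 1 - 1) * Real.exp (-(cc * x)) := by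
    rw [Real.rpow_sub_one hx'.ne' (s - 1)]
    ring
  rw [this]
  ring

theorem pk_form_integrable (s : ℝ) (hs : 1 < s) (a : ℕ → ℝ) (N : ℕ) :
    IntegrableOn (fun x : ℝ => (∑ k ∈ Finset.range N, a k * pk s k x) ^ 2 * (w0 s x / x))
      (Ioi 0) := by
  have h : IntegrableOn (fun x : ℝ => ∑ i ∈ Finset.range N, ∑ j ∈ Finset.range N,
      (l5B s a N i * l5B s a N j) * l5q (s - 1) i j x) (Ioi 0) := by
    apply integrable_finsetSum
    intro i _
    apply integrable_finsetSum
    intro j _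
    exact (l5q_int (s - 1) (by linarith) i j).const_mul _
  exact h.congr_fun (fun x hx => (l5_form_pt s hs a N x hx).symm) measurableSet_Ioi

/-- The form of `1/x`. -/
theorem pk_form (s : ℝ) (hs : 1 < s) (a : ℕ → ℝ) (N : ℕ) :
    ∫ x in Ioi (0 : ℝ), (∑ k ∈ Finset.range N, a k * pk s k x) ^ 2 * (w0 s x / x)
      = cc ^ (s + 1) * ∑ i ∈ Finset.range N, Real.Gamma (i + (s - 1)) / i.factorial
          * (∑ k ∈ Finset.Ico i N, a k / nk s k) ^ 2 := by
  rw [setIntegral_congr_fun measurableSet_Ioi (l5_form_pt s hs a N)]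
  rw [integral_finsetSum _ (fun i _ => integrable_finsetSum _ (fun j _ =>
    (l5q_int (s - 1) (by linarith) i j).const_mul _)), Finset.mul_sum]
  refine Finset.sum_congr rfl (fun i hi => ?_)
  rw [integral_finsetSum _ (fun j _ => (l5q_int (s - 1) (by linarith) i j).const_mul _)]
  rw [Finset.sum_eq_single i]
  · rw [integral_const_mul, l5q_integral (s - 1) (by linarith), if_pos rfl]
    unfold l5B
    have h3 : cc ^ (s + 1) = cc ^ s * cc ^ s * cc ^ (-(s - 1)) := by
      rw [← Real.rpow_add cc_pos, ← Real.rpow_add cc_pos]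
      congr 1
      ring
    rw [h3]
    ring
  · intro j _ hji
    rw [integral_const_mul, l5q_integral (s - 1) (by linarith), if_neg (Ne.symm hji)]
    ring
  · intro h
    exact absurd hi h

end Pool.Agent.Helper242.RM
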