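import Pool.Agent.Helper242.RM.Defs

set_option autoImplicit false

namespace Pool.Agent.Helper242.RM

open MeasureTheory Set Filter Topology

theorem gam_re_7506 (a : ℝ) (ha : 0 < a) (b : ℝ) (hb : 0 < b) :
    IntegrableOn (fun x : ℝ => x ^ (a - 1) * Real.exp (-(b * x))) (Ioi 0) := by
  have h1 := integrableOn_rpow_mul_exp_neg_mul_rpow (p := 1) (s := a - 1) (b := b)
    (by linarith) (by norm_num) hb
  simpa [Real.rpow_one, neg_mul] using h1

theorem gam_int_7506 (a : ℝ) (ha : 0 < a) (p : ℂ) (hp : 0 < p.re) :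
    IntegrableOn (fun x : ℝ => ((x ^ (a - 1) : ℝ) : ℂ) * Complex.exp (-(p * x))) (Ioi 0) := by
  have h1 := gam_re_7506 a ha p.re hp
  refine Integrable.mono' h1 ?_ ?_
  · apply Measurable.aestronglyMeasurable
    fun_prop
  · refine ae_restrict_of_forall_mem measurableSet_Ioi fun x hx => ?_
    have hx0 : (0:ℝ) < x := hx
    rw [norm_mul, Complex.norm_real, Real.norm_eq_abs, abs_of_nonneg (Real.rpow_nonneg hx0.le _),
      Complex.norm_exp]
    simp

theorem gam_7506 (a : ℝ) (ha : 0 < a) (p : ℂ) (hp : 0 < p.re) :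
    ∫ x in Ioi (0:ℝ), ((x ^ (a - 1) : ℝ) : ℂ) * Complex.exp (-(p * x))
      = (1 / p) ^ (a : ℂ) * (Real.Gamma a : ℂ) := by
  obtain ⟨f, hf⟩ : ∃ f : ℝ → NNReal, f = fun x => Real.toNNReal (x ^ (a - 1)) := ⟨_, rfl⟩
  have hfm : Measurable f := by rw [hf]; fun_prop
  obtain ⟨μ, hμ⟩ : ∃ μ : Measure ℝ, μ = (volume.restrict (Ioi (0:ℝ))).withDensity
    (fun x => (f x : ENNReal)) := ⟨_, rfl⟩
  have hmgf : ∀ z : ℂ, ProbabilityTheory.complexMGF id μ z
      = ∫ x in Ioi (0:ℝ), ((x ^ (a - 1) : ℝ) : ℂ) * Complex.exp (z * x) := by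
    intro z
    unfold ProbabilityTheory.complexMGF
    rw [hμ, integral_withDensity_eq_integral_smul hfm]
    apply setIntegral_congr_fun measurableSet_Ioi
    intro x hx
    have hx0 : (0:ℝ) < x := hx
    simp only [id_eq, hf, NNReal.smul_def]
    rw [Real.coe_toNNReal _ (Real.rpow_nonneg hx0.le _), Complex.real_smul]
  have hexp : ∀ t : ℝ, t < 0 → t ∈ ProbabilityTheory.integrableExpSet id μ := by
    intro t ht
    show Integrable (fun x => Real.exp (t * id x)) μ
    rw [hμ, integrable_withDensity_iff_integrable_smul hfm]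
    have h1 := gam_re_7506 a ha (-t) (by linarith)
    refine (integrableOn_congr_fun ?_ measurableSet_Ioi).mp h1
    intro x hx
    have hx0 : (0:ℝ) < x := hx
    simp only [id_eq, hf, NNReal.smul_def]
    rw [Real.coe_toNNReal _ (Real.rpow_nonneg hx0.le _), smul_eq_mul]
    congr 2
    ring
  have hU : ∀ z : ℂ, z.re < 0 → z.re ∈ interior (ProbabilityTheory.integrableExpSet id μ) := by
    intro z hz
    refine mem_interior.mpr ⟨Iio 0, fun t ht => hexp t ht, isOpen_Iio, hz⟩
  have hopen : IsOpen {z : ℂ | z.re < 0} := isOpen_lt Complex.continuous_re continuous_const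
  have han1 : AnalyticOnNhd ℂ (ProbabilityTheory.complexMGF id μ) {z : ℂ | z.re < 0} :=
    fun z hz => ProbabilityTheory.analyticAt_complexMGF (hU z hz)
  have han2 : AnalyticOnNhd ℂ (fun z : ℂ => (1 / (-z)) ^ (a : ℂ) * (Real.Gamma a : ℂ))
      {z : ℂ | z.re < 0} := by
    apply DifferentiableOn.analyticOnNhd _ hopen
    intro z hz
    have hz0 : z.re < 0 := hz
    have hz1 : -z ≠ 0 := by
      intro h0
      have := congrArg Complex.re h0
      simp at this
      linarith
    apply DifferentiableAt.differentiableWithinAt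
    have hd : DifferentiableAt ℂ (fun z : ℂ => 1 / (-z)) z := by
      fun_prop (disch := exact hz1)
    have hsl : (1 / (-z)) ∈ Complex.slitPlane := by
      left
      rw [one_div, Complex.inv_re]
      apply div_pos
      · simpa using hz0
      · exact Complex.normSq_pos.mpr hz1
    exact (hd.cpow_const hsl).mul_const _
  have hconn : IsPreconnected {z : ℂ | z.re < 0} := by
    apply Convex.isPreconnected
    exact convex_halfSpace_re_lt 0
  have hreal : ∀ t : ℝ, 0 < t → ProbabilityTheory.complexMGF id μ (-(t : ℂ))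
      = (1 / (-(-(t : ℂ)))) ^ (a : ℂ) * (Real.Gamma a : ℂ) := by
    intro t ht
    rw [hmgf, neg_neg]
    have h2 := Complex.integral_cpow_mul_exp_neg_mul_Ioi (a := (a : ℂ)) (r := t)
      (by simpa using ha) ht
    rw [Complex.Gamma_ofReal] at h2
    rw [← h2]
    apply setIntegral_congr_fun measurableSet_Ioi
    intro x hx
    have hx0 : (0:ℝ) < x := hx
    simp only
    rw [Complex.ofReal_cpow hx0.le]
    push_cast
    rw [neg_mul]
  have hfreq : ∃ᶠ z in 𝓝[≠] (-1 : ℂ), ProbabilityTheory.complexMGF id μ z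
      = (fun z : ℂ => (1 / (-z)) ^ (a : ℂ) * (Real.Gamma a : ℂ)) z := by
    have htend : Tendsto (fun n : ℕ => -((1 + 1 / ((n : ℝ) + 1) : ℝ) : ℂ)) atTop
        (𝓝[≠] (-1 : ℂ)) := by
      apply tendsto_nhdsWithin_of_tendsto_nhds_of_eventually_within
      · have h3 : Tendsto (fun n : ℕ => (1 + 1 / ((n : ℝ) + 1) : ℝ)) atTop (𝓝 1) := by
          have := (tendsto_one_div_add_atTop_nhds_zero_nat (𝕜 := ℝ)).const_add 1
          simpa using this
        have h4 := ((Complex.continuous_ofReal.tendsto 1).comp h3).neg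
        simpa using h4
      · refine Eventually.of_forall fun n => ?_
        simp only [mem_compl_iff, mem_singleton_iff, neg_inj]
        intro h5
        have h6 : (1 + 1 / ((n : ℝ) + 1) : ℝ) = 1 := by exact_mod_cast h5
        have h7 : (0:ℝ) < 1 / ((n : ℝ) + 1) := by positivity
        linarith
    refine htend.frequently (Frequently.of_forall fun n => ?_)
    exact hreal _ (by positivity)
  have heq := han1.eqOn_of_preconnected_of_frequently_eq han2 hconn
    (show (-1 : ℂ) ∈ {z : ℂ | z.re < 0} by simp) hfreq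
  have h8 := heq (show (-p) ∈ {z : ℂ | z.re < 0} by simpa using hp)
  simp only [neg_neg] at h8
  rw [hmgf] at h8
  rw [← h8]
  simp_rw [neg_mul]

theorem lag_expand_7506 (s : ℝ) (k : ℕ) (c : ℝ) (p : ℂ) (x : ℝ) (hx : 0 < x) :
    ((x ^ (s - 1) * Lag s k (c * x) : ℝ) : ℂ) * Complex.exp (-(p * x))
      = ∑ i ∈ Finset.range (k + 1), (((-1) ^ i *
    (Real.Gamma (k + s) / (Real.Gamma (i + s) * (k - i).factorial * i.factorial)) * c ^ i : ℝ) : ℂ)
      * (((x ^ (i + s - 1) : ℝ) : ℂ) * Complex.exp (-(p * x))) := by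
  unfold Lag
  rw [Finset.mul_sum, Complex.ofReal_sum, Finset.sum_mul]
  refine Finset.sum_congr rfl fun i _ => ?_
  have h1 : x ^ ((i : ℝ) + s - 1) = x ^ (s - 1) * x ^ i := by
    rw [show (i : ℝ) + s - 1 = (s - 1) + i by ring, Real.rpow_add_natCast hx.ne']
  rw [h1]
  push_cast
  ring

theorem Lag_laplace_integrable (s : ℝ) (hs : 0 < s) (k : ℕ) (c : ℝ) (p : ℂ) (hp : 0 < p.re) :
    IntegrableOn (fun x : ℝ => ((x ^ (s - 1) * Lag s k (c * x) : ℝ) : ℂ) * Complex.exp (-(p * x)))
      (Ioi 0) := by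
  have h1 : IntegrableOn (fun x : ℝ => ∑ i ∈ Finset.range (k + 1), (((-1) ^ i *
    (Real.Gamma (k + s) / (Real.Gamma (i + s) * (k - i).factorial * i.factorial)) * c ^ i : ℝ) : ℂ)
      * (((x ^ (i + s - 1) : ℝ) : ℂ) * Complex.exp (-(p * x)))) (Ioi 0) := by
    refine integrable_finsetSum _ fun i _ => ?_
    exact (gam_int_7506 (i + s) (by positivity) p hp).const_mul _
  refine (integrableOn_congr_fun ?_ measurableSet_Ioi).mp h1
  intro x hx
  exact (lag_expand_7506 s k c p x hx).symm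

theorem Lag_laplace (s : ℝ) (hs : 0 < s) (k : ℕ) (c : ℝ) (p : ℂ) (hp : 0 < p.re) :
    ∫ x in Ioi (0 : ℝ), ((x ^ (s - 1) * Lag s k (c * x) : ℝ) : ℂ) * Complex.exp (-(p * x))
      = ((Real.Gamma (k + s) / k.factorial : ℝ) : ℂ) * (1 - c / p) ^ k * (1 / p) ^ (s : ℂ) := by
  have hp0 : p ≠ 0 := by
    intro h0
    rw [h0] at hp
    simp at hp
  rw [setIntegral_congr_fun measurableSet_Ioi (fun x hx => lag_expand_7506 s k c p x hx),
    integral_finsetSum _ (fun (i : ℕ) _ =>
      (gam_int_7506 ((i : ℝ) + s) (by positivity) p hp).const_mul _)]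
  have h2 : ∀ i ∈ Finset.range (k + 1), ∫ x in Ioi (0:ℝ), (((-1) ^ i *
    (Real.Gamma (k + s) / (Real.Gamma (i + s) * (k - i).factorial * i.factorial)) * c ^ i : ℝ) : ℂ)
      * (((x ^ (i + s - 1) : ℝ) : ℂ) * Complex.exp (-(p * x)))
      = ((Real.Gamma (k + s) / k.factorial : ℝ) : ℂ) * (1 / p) ^ (s : ℂ)
        * ((-(c / p)) ^ i * 1 ^ (k - i) * (k.choose i : ℂ)) := by
    intro i hi
    have hik : i ≤ k := Nat.lt_succ_iff.mp (Finset.mem_range.mp hi)
    rw [integral_const_mul, gam_7506 (i + s) (by positivity) p hp, Nat.cast_choose ℂ hik]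
    have h3 : (1 / p) ^ (((i + s : ℝ)) : ℂ) = (1 / p) ^ i * (1 / p) ^ (s : ℂ) := by
      rw [Complex.ofReal_add, Complex.cpow_add _ _ (one_div_ne_zero hp0), Complex.ofReal_natCast,
        Complex.cpow_natCast]
    rw [h3]
    have hG : (Real.Gamma (i + s) : ℂ) ≠ 0 := by
      exact_mod_cast (Real.Gamma_pos_of_pos (by positivity : (0:ℝ) < i + s)).ne'
    have hf1 : ((k.factorial : ℕ) : ℂ) ≠ 0 := by exact_mod_cast k.factorial_ne_zero
    have hf2 : ((i.factorial : ℕ) : ℂ) ≠ 0 := by exact_mod_cast i.factorial_ne_zero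
    have hf3 : (((k - i).factorial : ℕ) : ℂ) ≠ 0 := by exact_mod_cast (k - i).factorial_ne_zero
    have h4 : (-((c : ℂ) / p)) ^ i = (-1) ^ i * (c : ℂ) ^ i * (1 / p) ^ i := by
      rw [← mul_pow, ← mul_pow]
      congr 1
      ring
    rw [h4, one_pow]
    push_cast
    generalize (1 / p) ^ (s : ℂ) = Y
    generalize (1 / p) ^ i = Z
    field_simp
  rw [Finset.sum_congr rfl h2, ← Finset.mul_sum, ← add_pow]
  rw [show -((c : ℂ) / p) + 1 = 1 - c / p by ring]
  ring

end Pool.Agent.Helper242.RM
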