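import Pool.Agent.Helper242.RM.C3
import Pool.Agent.Helper242.RM.L3

set_option autoImplicit false

namespace Pool.Agent.Helper242.RM

open MeasureTheory Set Filter Topology

open Classical in
/-- Extension by zero of a function on the closed disc. -/

theorem aux_term_integrable (a b : ℝ) (ha : 0 < a) (hb : 0 < b) :
    IntegrableOn (fun x : ℝ => x ^ a / (1 - Real.exp (-x)) * Real.exp (-(b * x))) (Ioi 0) := by
  have h1 : IntegrableOn (fun x : ℝ => x ^ a * Real.exp (-b * x ^ (1 : ℝ))) (Ioi 0) :=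
    integrableOn_rpow_mul_exp_neg_mul_rpow (by linarith) one_pos hb
  have h2 : IntegrableOn (fun x : ℝ => x ^ (a - 1) * Real.exp (-b * x ^ (1 : ℝ))) (Ioi 0) :=
    integrableOn_rpow_mul_exp_neg_mul_rpow (by linarith) one_pos hb
  refine Integrable.mono' (h1.add h2) ?_ ?_
  · refine ContinuousOn.aestronglyMeasurable ?_ measurableSet_Ioi
    intro x hx
    have hx0 : (0 : ℝ) < x := hx
    have hne : 1 - Real.exp (-x) ≠ 0 := by
      have : Real.exp (-x) < 1 := by rw [Real.exp_lt_one_iff]; linarith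
      linarith
    refine ContinuousAt.continuousWithinAt ?_
    refine ContinuousAt.mul (ContinuousAt.div (Real.continuousAt_rpow_const _ _ (Or.inl hx0.ne'))
      ?_ hne) ?_
    · fun_prop
    · fun_prop
  · refine (ae_restrict_iff' measurableSet_Ioi).2 (Eventually.of_forall fun x hx => ?_)
    have hx0 : (0 : ℝ) < x := hx
    have hlt : Real.exp (-x) < 1 := by rw [Real.exp_lt_one_iff]; linarith
    have hpos : 0 < 1 - Real.exp (-x) := by linarith
    have hkey : 1 / (1 - Real.exp (-x)) ≤ 1 + 1 / x := by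
      rw [div_le_iff₀ hpos]
      have h3 : x + 1 ≤ Real.exp x := Real.add_one_le_exp x
      have h4 : Real.exp (-x) * (x + 1) ≤ 1 := by
        calc Real.exp (-x) * (x + 1) ≤ Real.exp (-x) * Real.exp x :=
              mul_le_mul_of_nonneg_left h3 (Real.exp_pos _).le
          _ = 1 := by rw [← Real.exp_add]; simp
      have h5 : (1 + 1 / x) * (1 - Real.exp (-x)) = 1 + (1 - Real.exp (-x) * (x + 1)) / x := by
        field_simp
        ring
      rw [h5]
      have : 0 ≤ (1 - Real.exp (-x) * (x + 1)) / x := div_nonneg (by linarith) hx0.le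
      linarith
    have hxa : 0 ≤ x ^ a := Real.rpow_nonneg hx0.le _
    have hexp : Real.exp (-b * x ^ (1 : ℝ)) = Real.exp (-(b * x)) := by
      rw [Real.rpow_one, neg_mul]
    have hxa1 : x ^ (a - 1) = x ^ a * (1 / x) := by
      rw [Real.rpow_sub_one hx0.ne']
      ring
    simp only [Pi.add_apply]
    rw [hexp, Real.norm_of_nonneg (mul_nonneg (div_nonneg hxa hpos.le) (Real.exp_pos _).le), hxa1]
    calc x ^ a / (1 - Real.exp (-x)) * Real.exp (-(b * x))
        = (x ^ a * Real.exp (-(b * x))) * (1 / (1 - Real.exp (-x))) := by ring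
      _ ≤ (x ^ a * Real.exp (-(b * x))) * (1 + 1 / x) :=
          mul_le_mul_of_nonneg_left hkey (mul_nonneg hxa (Real.exp_pos _).le)
      _ = x ^ a * Real.exp (-(b * x)) + x ^ a * (1 / x) * Real.exp (-(b * x)) := by ring

theorem Et_laplace_integrable (s : ℝ) (hs : 1 < s) (k : ℕ) (p : ℂ) (hp : 0 < p.re) :
    IntegrableOn (fun x : ℝ => ((x ^ (s - 1) * Lag s k (cc * x) / (1 - Real.exp (-x)) : ℝ) : ℂ)
        * Complex.exp (-(p * x))) (Ioi 0) := by
  have hterm : ∀ i : ℕ, IntegrableOn (fun x : ℝ => ((x ^ (s - 1 + i) / (1 - Real.exp (-x)) : ℝ) : ℂ)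
        * Complex.exp (-(p * x))) (Ioi 0) := by
    intro i
    have ha : 0 < s - 1 + (i : ℝ) := by
      have : (0 : ℝ) ≤ i := Nat.cast_nonneg i
      linarith
    refine Integrable.mono' (aux_term_integrable (s - 1 + i) p.re ha hp) ?_ ?_
    · refine ContinuousOn.aestronglyMeasurable ?_ measurableSet_Ioi
      intro x hx
      have hx0 : (0 : ℝ) < x := hx
      have hne : 1 - Real.exp (-x) ≠ 0 := by
        have : Real.exp (-x) < 1 := by rw [Real.exp_lt_one_iff]; linarith
        linarith
      refine ContinuousAt.continuousWithinAt ?_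
      refine ContinuousAt.mul ?_ ?_
      · refine Complex.continuous_ofReal.continuousAt.comp ?_
        refine ContinuousAt.div (Real.continuousAt_rpow_const _ _ (Or.inl hx0.ne')) ?_ hne
        fun_prop
      · fun_prop
    · refine (ae_restrict_iff' measurableSet_Ioi).2 (Eventually.of_forall fun x hx => ?_)
      have hx0 : (0 : ℝ) < x := hx
      have hlt : Real.exp (-x) < 1 := by rw [Real.exp_lt_one_iff]; linarith
      have hpos : 0 < 1 - Real.exp (-x) := by linarith
      rw [norm_mul, Complex.norm_exp, Complex.norm_real,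
        Real.norm_of_nonneg (div_nonneg (Real.rpow_nonneg hx0.le _) hpos.le)]
      have : (-(p * (x : ℂ))).re = -(p.re * x) := by simp
      rw [this]
  have hsum : IntegrableOn (fun x : ℝ => ∑ i ∈ Finset.range (k + 1),
      (((-1) ^ i * (Real.Gamma (k + s) / (Real.Gamma (i + s) * (k - i).factorial * i.factorial)) *
        cc ^ i : ℝ) : ℂ) * (((x ^ (s - 1 + i) / (1 - Real.exp (-x)) : ℝ) : ℂ)
        * Complex.exp (-(p * x)))) (Ioi 0) := by
    refine integrable_finset_sum _ fun i _ => ?_
    exact (hterm i).const_mul _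
  refine hsum.congr_fun ?_ measurableSet_Ioi
  intro x hx
  have hx0 : (0 : ℝ) < x := hx
  simp only
  rw [Lag, Finset.mul_sum, Finset.sum_div, Complex.ofReal_sum, Finset.sum_mul]
  refine Finset.sum_congr rfl fun i _ => ?_
  rw [← mul_assoc, ← Complex.ofReal_mul]
  congr 2
  rw [Real.rpow_add hx0, Real.rpow_natCast, mul_pow]
  ring

theorem Et_laplace (s : ℝ) (hs : 1 < s) (k : ℕ) (z : ℂ) (hz : -1 / 2 < z.re) :
    Et s k z = ((k.factorial / Real.Gamma (k + s) : ℝ) : ℂ) *
      ∫ x in Ioi (0 : ℝ), ((x ^ (s - 1) * Lag s k (cc * x) / (1 - Real.exp (-x)) : ℝ) : ℂ)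
        * Complex.exp (-((z + ph) * x)) := by
  have hphp : 1 / 2 < ph := by
    have : (0 : ℝ) < √5 := Real.sqrt_pos.2 (by norm_num)
    unfold ph
    linarith
  have hp0 : 0 < (z + ph : ℂ).re := by
    rw [Complex.add_re, Complex.ofReal_re]; linarith
  have hpn : ∀ n : ℕ, 0 < (z + n + ph : ℂ).re := by
    intro n
    rw [Complex.add_re, Complex.add_re, Complex.ofReal_re, Complex.natCast_re]
    have : (0 : ℝ) ≤ n := Nat.cast_nonneg n
    linarith
  set h : ℝ → ℂ := fun x => ((x ^ (s - 1) * Lag s k (cc * x) / (1 - Real.exp (-x)) : ℝ) : ℂ)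
        * Complex.exp (-((z + ph) * x)) with hh
  have hint : IntegrableOn h (Ioi 0) := Et_laplace_integrable s hs k (z + ph) hp0
  set F : ℕ → ℝ → ℂ := fun n x => ((x ^ (s - 1) * Lag s k (cc * x) : ℝ) : ℂ)
        * Complex.exp (-((z + n + ph) * x)) with hF
  have hF1 : ∀ n, ∀ x ∈ Ioi (0 : ℝ), F n x =
      h x * (((1 - Real.exp (-x)) * Real.exp (-x) ^ n : ℝ) : ℂ) := by
    intro n x hx
    have hx0 : (0 : ℝ) < x := hx
    have hlt : Real.exp (-x) < 1 := by rw [Real.exp_lt_one_iff]; linarith
    have hpos : 1 - Real.exp (-x) ≠ 0 := by linarith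
    have e1 : Complex.exp (-((z + n + ph) * x)) =
        Complex.exp (-((z + ph) * x)) * ((Real.exp (-x) ^ n : ℝ) : ℂ) := by
      rw [← Real.exp_nat_mul, Complex.ofReal_exp, ← Complex.exp_add]
      congr 1
      push_cast
      ring
    have e2 : (x ^ (s - 1) * Lag s k (cc * x)) =
        (x ^ (s - 1) * Lag s k (cc * x) / (1 - Real.exp (-x))) * (1 - Real.exp (-x)) := by
      field_simp
    simp only [hF, hh]
    rw [e1]
    conv_lhs => rw [e2]
    push_cast
    ring
  have hFint : ∀ n, Integrable (F n) (volume.restrict (Ioi 0)) := fun n =>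
    Lag_laplace_integrable s (by linarith) k cc (z + n + ph) (hpn n)
  have hgeo : ∀ x ∈ Ioi (0 : ℝ), ∀ n : ℕ, ∑ i ∈ Finset.range n,
      (1 - Real.exp (-x)) * Real.exp (-x) ^ i ≤ 1 := by
    intro x hx n
    have hx0 : (0 : ℝ) < x := hx
    have hlt : Real.exp (-x) < 1 := by rw [Real.exp_lt_one_iff]; linarith
    rw [← Finset.mul_sum, mul_comm, geom_sum_mul_neg]
    have : 0 ≤ Real.exp (-x) ^ n := pow_nonneg (Real.exp_pos _).le _
    linarith
  have hsumm : Summable fun n => ∫ x in Ioi (0 : ℝ), ‖F n x‖ := by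
    refine summable_of_sum_range_le (c := ∫ x in Ioi (0 : ℝ), ‖h x‖)
      (fun n => integral_nonneg fun x => norm_nonneg _) (fun n => ?_)
    rw [← integral_finset_sum _ fun i _ => (hFint i).norm]
    refine setIntegral_mono_on (integrable_finset_sum _ fun i _ => (hFint i).norm) hint.norm
      measurableSet_Ioi fun x hx => ?_
    have hx0 : (0 : ℝ) < x := hx
    have hlt : Real.exp (-x) < 1 := by rw [Real.exp_lt_one_iff]; linarith
    calc ∑ i ∈ Finset.range n, ‖F i x‖ = ∑ i ∈ Finset.range n,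
          ‖h x‖ * ((1 - Real.exp (-x)) * Real.exp (-x) ^ i) := by
          refine Finset.sum_congr rfl fun i _ => ?_
          rw [hF1 i x hx, norm_mul, Complex.norm_real, Real.norm_of_nonneg]
          exact mul_nonneg (by linarith) (pow_nonneg (Real.exp_pos _).le _)
      _ = ‖h x‖ * ∑ i ∈ Finset.range n, (1 - Real.exp (-x)) * Real.exp (-x) ^ i := by
          rw [Finset.mul_sum]
      _ ≤ ‖h x‖ * 1 := mul_le_mul_of_nonneg_left (hgeo x hx n) (norm_nonneg _)
      _ = ‖h x‖ := mul_one _
  have hmain := hasSum_integral_of_summable_integral_norm hFint hsumm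
  have htsum : ∫ x in Ioi (0 : ℝ), (∑' n, F n x) = ∫ x in Ioi (0 : ℝ), h x := by
    refine setIntegral_congr_fun measurableSet_Ioi fun x hx => ?_
    have hx0 : (0 : ℝ) < x := hx
    have hlt : Real.exp (-x) < 1 := by rw [Real.exp_lt_one_iff]; linarith
    have hpos : 1 - Real.exp (-x) ≠ 0 := by linarith
    have e3 : (fun n => F n x) = fun n : ℕ =>
        h x * (((1 - Real.exp (-x)) * Real.exp (-x) ^ n : ℝ) : ℂ) :=
      funext fun n => hF1 n x hx
    rw [e3, tsum_mul_left, ← Complex.ofReal_tsum, tsum_mul_left,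
      tsum_geometric_of_lt_one (Real.exp_pos _).le hlt, mul_inv_cancel₀ hpos]
    simp
  rw [htsum] at hmain
  have hG : (0 : ℝ) < Real.Gamma (k + s) := Real.Gamma_pos_of_pos (by
    have : (0 : ℝ) ≤ k := Nat.cast_nonneg k
    linarith)
  have hterm : ∀ n : ℕ, ((z + n - th) / (z + n + ph)) ^ k * (1 / (z + n + ph)) ^ (s : ℂ) =
      ((k.factorial / Real.Gamma (k + s) : ℝ) : ℂ) * ∫ x in Ioi (0 : ℝ), F n x := by
    intro n
    have hne : (z + n + ph : ℂ) ≠ 0 := by
      intro h0
      have := hpn n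
      rw [h0] at this
      simp at this
    have hl := Lag_laplace s (by linarith) k cc (z + n + ph) (hpn n)
    simp only [hF]
    rw [hl]
    have e4 : (1 - (cc : ℂ) / (z + n + ph)) = (z + n - th) / (z + n + ph) := by
      rw [eq_div_iff hne, sub_mul, div_mul_cancel₀ _ hne]
      have : (cc : ℝ) = th + ph := by unfold cc th ph; ring
      rw [this]
      push_cast
      ring
    rw [e4]
    have e5 : ((k.factorial / Real.Gamma (k + s) : ℝ) : ℂ) *
        ((Real.Gamma (k + s) / k.factorial : ℝ) : ℂ) = 1 := by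
      rw [← Complex.ofReal_mul]
      have : (k.factorial : ℝ) ≠ 0 := by exact_mod_cast k.factorial_ne_zero
      have e6 : (k.factorial : ℝ) / Real.Gamma (k + s) * (Real.Gamma (k + s) / k.factorial) = 1 := by
        have := hG.ne'
        field_simp
      rw [e6, Complex.ofReal_one]
    rw [← mul_assoc, ← mul_assoc, e5, one_mul]
  unfold Et
  rw [← hmain.tsum_eq, ← tsum_mul_left]
  exact tsum_congr hterm

end Pool.Agent.Helper242.RM
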