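import Pool.Agent.Helper242.RM.L4
import Pool.Agent.Helper242.RM.L5a
import Pool.Agent.Helper242.RM.L6
import Pool.Agent.Helper242.RM.C3

set_option autoImplicit false

namespace Pool.Agent.Helper242.RM

open MeasureTheory Set Filter Topology

open Classical in
/-- Extension by zero of a function on the closed disc. -/

theorem wmap_add_ph (u : ℂ) (hu : u ≠ 1) : wmap u + ph = cc / (1 - u) := by
  have h1 : (1 - u) ≠ 0 := sub_ne_zero.2 (Ne.symm hu)
  have h2 : (th : ℂ) + ph = cc := by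
    have : th + ph = cc := by unfold th ph cc; ring
    exact_mod_cast this
  unfold wmap
  rw [div_add' _ _ _ h1]
  congr 1
  rw [← h2]
  ring

theorem wmap_re (u : ℂ) (hu : ‖u‖ ≤ 1 / 4) : -1 / 2 < (wmap u).re := by
  have hne : u ≠ 1 := by
    rintro rfl
    norm_num at hu
  have h1 : (1 - u) ≠ 0 := sub_ne_zero.2 (Ne.symm hne)
  have h2 := wmap_add_ph u hne
  have h3 : wmap u = (cc : ℂ) * (1 - u)⁻¹ - ph := by
    rw [← div_eq_mul_inv, ← h2]; ring
  have h4 : (1 / 2 : ℝ) < ((1 - u)⁻¹).re := by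
    rw [Complex.inv_re]
    have h5 : 0 < Complex.normSq (1 - u) := Complex.normSq_pos.2 h1
    rw [lt_div_iff₀ h5, Complex.normSq_apply]
    have h6 : u.re * u.re + u.im * u.im < 1 := by
      have : Complex.normSq u = ‖u‖ ^ 2 := Complex.normSq_eq_norm_sq u
      rw [Complex.normSq_apply] at this
      rw [this]
      nlinarith [norm_nonneg u]
    simp only [Complex.sub_re, Complex.one_re, Complex.sub_im, Complex.one_im]
    nlinarith
  rw [h3, Complex.sub_re, Complex.re_ofReal_mul, Complex.ofReal_re]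
  have h7 : ph = cc / 2 + 1 / 2 := by unfold ph cc; ring
  rw [h7]
  nlinarith [cc_pos]

theorem Et_series (s : ℝ) (hs : 1 < s) (k : ℕ) (u : ℂ) (hu : ‖u‖ ≤ 1 / 4) :
    HasSum (fun l => ((nk s l / nk s k * V s l k : ℝ) : ℂ) * u ^ l)
      ((wmap u + ph) ^ (s : ℂ) * Et s k (wmap u)) := by
  have hs0 : 0 < s := by linarith
  have hcc := cc_pos
  have hne : u ≠ 1 := by
    rintro rfl
    norm_num at hu
  have h1u : (1 - u) ≠ 0 := sub_ne_zero.2 (Ne.symm hne)
  have hu1 : ‖u‖ < 1 := by linarith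
  -- coefficient function
  obtain ⟨c, hc⟩ : ∃ c : ℝ → ℝ, c = fun x => x ^ (s - 1) * Lag s k (cc * x) / (1 - Real.exp (-x)) :=
    ⟨_, rfl⟩
  have hint : ∀ p : ℝ, 0 < p → IntegrableOn (fun x : ℝ => ((c x : ℝ) : ℂ)
        * Complex.exp (-((p : ℂ) * x))) (Ioi 0) := by
    intro p hp
    rw [hc]
    exact Et_laplace_integrable s hs k (p : ℂ) (by simpa using hp)
  obtain ⟨F, hF⟩ : ∃ F : ℕ → ℝ → ℂ, F = fun l x => (((c x : ℝ) : ℂ) * Complex.exp (-((cc : ℂ) * x)))
      * ((Lag s l (cc * x) : ℂ) * u ^ l) := ⟨_, rfl⟩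
  have hexpnorm : ∀ p x : ℝ, ‖Complex.exp (-((p : ℂ) * x))‖ = Real.exp (-(p * x)) := by
    intro p x
    rw [← Complex.ofReal_mul, ← Complex.ofReal_neg, Complex.norm_exp, Complex.ofReal_re]
  have hFnorm : ∀ l x, ‖F l x‖ = |c x| * Real.exp (-(cc * x)) * (|Lag s l (cc * x)| * ‖u‖ ^ l) := by
    intro l x
    rw [hF]
    simp only [norm_mul, norm_pow, Complex.norm_real, Real.norm_eq_abs]
    rw [hexpnorm]
  have hsumb : ∀ (S : Finset ℕ) (x : ℝ), 0 < x → ∑ l ∈ S, ‖F l x‖ ≤
      (1 - 1 / 4 : ℝ) ^ (-s) * ‖((c x : ℝ) : ℂ) * Complex.exp (-(((2 * cc / 3 : ℝ) : ℂ) * x))‖ := by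
    intro S x hx
    have ht : 0 ≤ cc * x := by positivity
    have h1 : ∑ l ∈ S, (|Lag s l (cc * x)| * ‖u‖ ^ l) ≤ (1 - 1 / 4 : ℝ) ^ (-s) *
        Real.exp ((cc * x) * (1 / 4) / (1 - 1 / 4)) := by
      refine le_trans ?_ (Lag_tsum_le s hs0 (cc * x) (1 / 4) ht (by norm_num) (by norm_num))
      refine le_trans ?_ ((Lag_summable s hs0 (cc * x) (1 / 4) ht (by norm_num) (by norm_num)).sum_le_tsum S
        (fun i _ => by positivity))
      apply Finset.sum_le_sum
      intro l _
      gcongr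
    rw [norm_mul, hexpnorm, Complex.norm_real, Real.norm_eq_abs]
    have h2 : ∑ l ∈ S, ‖F l x‖ = |c x| * Real.exp (-(cc * x)) * ∑ l ∈ S, (|Lag s l (cc * x)| * ‖u‖ ^ l) := by
      rw [Finset.mul_sum]
      exact Finset.sum_congr rfl fun l _ => hFnorm l x
    rw [h2]
    calc |c x| * Real.exp (-(cc * x)) * ∑ l ∈ S, (|Lag s l (cc * x)| * ‖u‖ ^ l)
        ≤ |c x| * Real.exp (-(cc * x)) * ((1 - 1 / 4 : ℝ) ^ (-s) *
          Real.exp ((cc * x) * (1 / 4) / (1 - 1 / 4))) := by gcongr
      _ = (1 - 1 / 4 : ℝ) ^ (-s) * (|c x| * (Real.exp (-(cc * x)) *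
          Real.exp ((cc * x) * (1 / 4) / (1 - 1 / 4)))) := by ring
      _ = (1 - 1 / 4 : ℝ) ^ (-s) * (|c x| * Real.exp (-(2 * cc / 3 * x))) := by
          rw [← Real.exp_add]
          congr 3
          ring
  have hmaj : IntegrableOn (fun x : ℝ => (1 - 1 / 4 : ℝ) ^ (-s) *
      ‖((c x : ℝ) : ℂ) * Complex.exp (-(((2 * cc / 3 : ℝ) : ℂ) * x))‖) (Ioi 0) :=
    (hint (2 * cc / 3) (by positivity)).norm.const_mul _
  have hLagc : ∀ l, Continuous fun x : ℝ => Lag s l (cc * x) := by
    intro l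
    unfold Lag
    fun_prop
  have hFint : ∀ l, Integrable (F l) (volume.restrict (Ioi 0)) := by
    intro l
    refine Integrable.mono' hmaj ?_ ?_
    · rw [hF]
      refine (hint cc hcc).aestronglyMeasurable.mul ?_
      exact ((Complex.continuous_ofReal.comp (hLagc l)).mul continuous_const).aestronglyMeasurable
    · refine (ae_restrict_iff' measurableSet_Ioi).2 (Eventually.of_forall fun x hx => ?_)
      have := hsumb {l} x hx
      simpa using this
  have hFsum : Summable fun l => ∫ x in Ioi (0 : ℝ), ‖F l x‖ := by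
    refine summable_of_sum_le (c := ∫ x in Ioi (0 : ℝ), (1 - 1 / 4 : ℝ) ^ (-s) *
      ‖((c x : ℝ) : ℂ) * Complex.exp (-(((2 * cc / 3 : ℝ) : ℂ) * x))‖) ?_ ?_
    · intro l
      exact integral_nonneg fun x => norm_nonneg _
    · intro S
      rw [← integral_finset_sum S (fun l _ => (hFint l).norm)]
      refine setIntegral_mono_on (integrable_finset_sum S fun l _ => (hFint l).norm) hmaj
        measurableSet_Ioi ?_
      intro x hx
      exact hsumb S x hx
  have hH := hasSum_integral_of_summable_integral_norm hFint hFsum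
  have hH2 := hH.mul_left (((cc ^ s * (k.factorial / Real.Gamma (k + s)) : ℝ)) : ℂ)
  have hfun : (fun l => ((nk s l / nk s k * V s l k : ℝ) : ℂ) * u ^ l) =
      fun l => (((cc ^ s * (k.factorial / Real.Gamma (k + s)) : ℝ)) : ℂ) * ∫ x in Ioi (0 : ℝ), F l x := by
    funext l
    have hI : ∫ x in Ioi (0 : ℝ), F l x = ((∫ x in Ioi (0 : ℝ),
        c x * Real.exp (-(cc * x)) * Lag s l (cc * x) : ℝ) : ℂ) * u ^ l := by
      rw [← integral_complex_ofReal, ← integral_mul_const]
      refine integral_congr_ae (Eventually.of_forall fun x => ?_)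
      rw [hF]
      simp only
      push_cast
      ring
    have hV : V s l k = cc ^ s * cc ^ s / (nk s l * nk s k) * ∫ x in Ioi (0 : ℝ),
        c x * Real.exp (-(cc * x)) * Lag s l (cc * x) := by
      unfold V
      rw [← integral_const_mul]
      refine integral_congr_ae (Eventually.of_forall fun x => ?_)
      rw [hc]
      simp only [pk, wt, w0]
      have h1 := (nk_pos s hs0 l).ne'
      have h2 := (nk_pos s hs0 k).ne'
      field_simp
    have hcoef : nk s l / nk s k * V s l k = cc ^ s * (k.factorial / Real.Gamma (k + s)) *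
        ∫ x in Ioi (0 : ℝ), c x * Real.exp (-(cc * x)) * Lag s l (cc * x) := by
      rw [hV]
      have h1 := (nk_pos s hs0 l).ne'
      have h2 := (nk_pos s hs0 k).ne'
      have h3 := nk_sq s hs0 k
      have h4 : (0 : ℝ) < cc ^ s := by positivity
      have h5 : 0 < Real.Gamma (k + s) := Real.Gamma_pos_of_pos (by positivity)
      have h6 : (0 : ℝ) < k.factorial := by positivity
      have h7 : nk s l / nk s k * (cc ^ s * cc ^ s / (nk s l * nk s k) * ∫ x in Ioi (0 : ℝ),
        c x * Real.exp (-(cc * x)) * Lag s l (cc * x)) = cc ^ s * cc ^ s / (nk s k) ^ 2 * ∫ x in Ioi (0 : ℝ),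
        c x * Real.exp (-(cc * x)) * Lag s l (cc * x) := by
        field_simp
      rw [h7, h3]
      congr 1
      field_simp
    rw [hI, hcoef]
    push_cast
    ring
  have hval : (wmap u + ph) ^ (s : ℂ) * Et s k (wmap u) =
      (((cc ^ s * (k.factorial / Real.Gamma (k + s)) : ℝ)) : ℂ) * ∫ x in Ioi (0 : ℝ), ∑' l, F l x := by
    have hT : ∫ x in Ioi (0 : ℝ), ∑' l, F l x = (1 - u) ^ (-(s : ℂ)) *
        ∫ x in Ioi (0 : ℝ), ((c x : ℝ) : ℂ) * Complex.exp (-((wmap u + ph) * x)) := by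
      rw [← integral_const_mul]
      refine setIntegral_congr_fun measurableSet_Ioi fun x hx => ?_
      have hx' : 0 < x := hx
      have h1 := Lag_genfun s hs0 (cc * x) (by positivity) u hu1
      have h2 := h1.mul_left (((c x : ℝ) : ℂ) * Complex.exp (-((cc : ℂ) * x)))
      have h3 : ∑' l, F l x = ((c x : ℝ) : ℂ) * Complex.exp (-((cc : ℂ) * x)) *
          ((1 - u) ^ (-(s : ℂ)) * Complex.exp (-(((cc * x : ℝ) : ℂ) * u / (1 - u)))) := by
        rw [← h2.tsum_eq, hF]
      rw [h3, wmap_add_ph u hne]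
      have h4 : Complex.exp (-((cc : ℂ) / (1 - u) * x)) = Complex.exp (-((cc : ℂ) * x)) *
          Complex.exp (-(((cc * x : ℝ) : ℂ) * u / (1 - u))) := by
        rw [← Complex.exp_add]
        congr 1
        push_cast
        field_simp
        ring
      rw [h4]
      ring
    have hpow : (wmap u + ph) ^ (s : ℂ) = ((cc ^ s : ℝ) : ℂ) * (1 - u) ^ (-(s : ℂ)) := by
      rw [wmap_add_ph u hne, div_eq_mul_inv]
      have harg : (1 - u).arg ≠ Real.pi := by
        intro h
        rw [Complex.arg_eq_pi_iff] at h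
        have h1 : |u.re| ≤ ‖u‖ := Complex.abs_re_le_norm u
        have h2 := h.1
        rw [Complex.sub_re, Complex.one_re] at h2
        have := abs_le.1 h1
        linarith
      have h8 : ((cc : ℂ) * (1 - u)⁻¹) ^ (s : ℂ) = (cc : ℂ) ^ (s : ℂ) * ((1 - u)⁻¹) ^ (s : ℂ) := by
        have hne1 : (cc : ℂ) ≠ 0 := by exact_mod_cast hcc.ne'
        have hne2 : (1 - u)⁻¹ ≠ 0 := inv_ne_zero h1u
        rw [Complex.cpow_def_of_ne_zero (mul_ne_zero hne1 hne2), Complex.cpow_def_of_ne_zero hne1,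
          Complex.cpow_def_of_ne_zero hne2, Complex.log_ofReal_mul hcc hne2, ← Complex.exp_add,
          Complex.ofReal_log hcc.le]
        congr 1
        ring
      rw [h8, Complex.inv_cpow _ _ harg, Complex.cpow_neg, Complex.ofReal_cpow hcc.le]
    rw [hT, Et_laplace s hs k (wmap u) (wmap_re u hu), hpow, hc]
    push_cast
    ring
  rw [hfun, hval]
  exact hH2

end Pool.Agent.Helper242.RM
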