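import Pool.Agent.Helper242.RM.L5d
import Pool.Agent.Helper242.RM.C3
import Pool.Agent.Helper242.RM.C4
import Pool.Agent.Helper242.RM.L7

set_option autoImplicit false

namespace Pool.Agent.Helper242.RM

open MeasureTheory Set Filter Topology

open Classical in
/-- Extension by zero of a function on the closed disc. -/

theorem c7_wt_nonneg (s x : ℝ) (hx : 0 < x) : 0 ≤ wt s x := by
  unfold wt w0
  have h1 : 0 ≤ x ^ (s - 1) := Real.rpow_nonneg hx.le _
  have h2 : 0 < 1 - Real.exp (-x) := by
    have : Real.exp (-x) < 1 := by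
      rw [Real.exp_lt_one_iff]; linarith
    linarith
  positivity

theorem V_abs_le (s : ℝ) (hs : 1 < s) (l k : ℕ) : |V s l k| ≤ 1 + cc / (s - 1) := by
  have h1 : |V s l k| ≤ ∫ x in Set.Ioi (0 : ℝ), |pk s l x * pk s k x * wt s x| := by
    unfold V
    exact abs_integral_le_integral_abs
  have h2 : ∫ x in Set.Ioi (0 : ℝ), |pk s l x * pk s k x * wt s x| ≤
      ∫ x in Set.Ioi (0 : ℝ), ((pk s l x * pk s l x * wt s x) + (pk s k x * pk s k x * wt s x)) / 2 := by
    apply setIntegral_mono_on
    · exact (pk_wt_integrable s hs l k).abs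
    · exact ((pk_wt_integrable s hs l l).add (pk_wt_integrable s hs k k)).div_const 2
    · exact measurableSet_Ioi
    · intro x hx
      have hw := c7_wt_nonneg s x hx
      rw [abs_mul, abs_mul, abs_of_nonneg hw]
      have : |pk s l x| * |pk s k x| ≤ (pk s l x * pk s l x + pk s k x * pk s k x) / 2 := by
        have h := sq_nonneg (|pk s l x| - |pk s k x|)
        have e1 := sq_abs (pk s l x)
        have e2 := sq_abs (pk s k x)
        nlinarith
      have := mul_le_mul_of_nonneg_right this hw
      linarith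
  have h3 : ∫ x in Set.Ioi (0 : ℝ), ((pk s l x * pk s l x * wt s x) + (pk s k x * pk s k x * wt s x)) / 2
      = (V s l l + V s k k) / 2 := by
    rw [integral_div]
    congr 1
    exact integral_add (pk_wt_integrable s hs l l) (pk_wt_integrable s hs k k)
  have h4 := V_diag_le s hs l
  have h5 := V_diag_le s hs k
  linarith

theorem nk_summable (s : ℝ) (hs : 1 < s) (ρ : ℝ) (hρ : 0 ≤ ρ) (hρ1 : ρ < 1) :
    Summable (fun l => nk s l * ρ ^ l) := by
  rcases hρ.eq_or_lt with h0 | hpos
  · subst h0
    apply summable_of_finite_support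
    apply (Set.finite_singleton 0).subset
    intro n hn
    by_contra hne
    apply hn
    simp only [Set.mem_singleton_iff] at hne
    simp [hne]
  · have hs0 : 0 < s := by linarith
    apply summable_of_ratio_test_tendsto_lt_one hρ1
    · filter_upwards with n
      have := nk_pos s hs0 n
      positivity
    · have e : (fun n : ℕ => ‖nk s (n + 1) * ρ ^ (n + 1)‖ / ‖nk s n * ρ ^ n‖) =
          fun n : ℕ => √(((n : ℝ) + s) / (n + 1)) * ρ := by
        funext n
        have h1 := nk_pos s hs0 n
        have h2 := nk_pos s hs0 (n + 1)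
        rw [Real.norm_of_nonneg (by positivity), Real.norm_of_nonneg (by positivity),
          nk_succ s hs0 n]
        field_simp
        rw [pow_succ]
      rw [e]
      have hlim : Tendsto (fun n : ℕ => ((n : ℝ) + s) / (n + 1)) atTop (𝓝 1) := by
        have e2 : (fun n : ℕ => ((n : ℝ) + s) / (n + 1)) = fun n : ℕ => 1 + (s - 1) / ((n : ℝ) + 1) := by
          funext n
          have : ((n : ℝ) + 1) ≠ 0 := by positivity
          field_simp
          ring
        rw [e2]
        have h : Tendsto (fun n : ℕ => (s - 1) / ((n : ℝ) + 1)) atTop (𝓝 0) := by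
          have := (tendsto_one_div_add_atTop_nhds_zero_nat (𝕜 := ℝ)).const_mul (s - 1)
          simpa [div_eq_mul_inv] using this
        simpa using h.const_add 1
      have h2 := (Real.continuous_sqrt.tendsto 1).comp hlim
      have h3 := h2.mul_const ρ
      simpa using h3

theorem nk_zero_le (s : ℝ) (hs : 1 < s) (k : ℕ) : nk s 0 ≤ nk s k := by
  have hs0 : 0 < s := by linarith
  induction k with
  | zero => exact le_rfl
  | succ n ih =>
    rw [nk_succ s hs0 n]
    have h1 := nk_pos s hs0 n
    have h2 : 1 ≤ √(((n : ℝ) + s) / (n + 1)) := by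
      rw [Real.one_le_sqrt, one_le_div (by positivity)]
      linarith
    nlinarith

theorem eq_of_series (a b : ℕ → ℂ) (g : ℂ → ℂ) (r : ℝ) (hr : 0 < r)
    (ha : ∀ u : ℂ, ‖u‖ < r → HasSum (fun k => a k * u ^ k) (g u))
    (hb : ∀ u : ℂ, ‖u‖ < r → HasSum (fun k => b k * u ^ k) (g u)) (l : ℕ) : a l = b l := by
  have h1 : HasFPowerSeriesAt g (FormalMultilinearSeries.ofScalars ℂ a) 0 := by
    rw [hasFPowerSeriesAt_iff]
    have : ∀ᶠ z : ℂ in 𝓝 0, ‖z‖ < r := by
      have := Metric.ball_mem_nhds (0 : ℂ) hr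
      filter_upwards [this] with z hz
      simpa using hz
    filter_upwards [this] with z hz
    have := ha z hz
    simpa [mul_comm] using this
  have h2 : HasFPowerSeriesAt g (FormalMultilinearSeries.ofScalars ℂ b) 0 := by
    rw [hasFPowerSeriesAt_iff]
    have : ∀ᶠ z : ℂ in 𝓝 0, ‖z‖ < r := by
      have := Metric.ball_mem_nhds (0 : ℂ) hr
      filter_upwards [this] with z hz
      simpa using hz
    filter_upwards [this] with z hz
    have := hb z hz
    simpa [mul_comm] using this
  have h3 := h1.eq_formalMultilinearSeries h2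
  have h4 := congrArg (fun p : FormalMultilinearSeries ℂ ℂ ℂ => p.coeff l) h3
  simpa using h4

/-- coefficients of a sum of the functions `E_k` -/
theorem ak_of_series (s : ℝ) (hs : 1 < s) (c : ℕ → ℂ) (hc : Summable (fun k => ‖c k‖)) (f : X)
    (hf : ∀ z : Disc, (f : C(Disc, ℂ)) z = ∑' k, c k * Et s k z) (l : ℕ) :
    HasSum (fun k => c k * ((nk s l / nk s k * V s l k : ℝ) : ℂ))
      (ak s (ext (f : C(Disc, ℂ))) l) := by
  have hs0 : 0 < s := by linarith
  set C : ℝ := 1 + cc / (s - 1) with hC
  have hC0 : 0 ≤ C := le_trans (abs_nonneg _) (V_abs_le s hs 0 0)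
  have hn0 := nk_pos s hs0 0
  -- bound on coefficients
  have hb : ∀ l k : ℕ, ‖((nk s l / nk s k * V s l k : ℝ) : ℂ)‖ ≤ nk s l / nk s 0 * C := by
    intro l k
    rw [Complex.norm_real, Real.norm_eq_abs, abs_mul]
    have h1 := nk_pos s hs0 l
    have h2 := nk_pos s hs0 k
    rw [abs_of_pos (by positivity : 0 < nk s l / nk s k)]
    apply mul_le_mul _ (V_abs_le s hs l k) (abs_nonneg _) (by positivity)
    exact div_le_div_of_nonneg_left h1.le hn0 (nk_zero_le s hs k)
  have hsum : ∀ l : ℕ, Summable (fun k => c k * ((nk s l / nk s k * V s l k : ℝ) : ℂ)) := by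
    intro l
    apply Summable.of_norm_bounded (hc.mul_right (nk s l / nk s 0 * C))
    intro k
    rw [norm_mul]
    exact mul_le_mul_of_nonneg_left (hb l k) (norm_nonneg _)
  have key : ∀ u : ℂ, ‖u‖ < 1 / 4 →
      HasSum (fun l => (∑' k, c k * ((nk s l / nk s k * V s l k : ℝ) : ℂ)) * u ^ l)
        (Ft s (ext (f : C(Disc, ℂ))) u) := by
    intro u hu
    have hmem : wmap u ∈ Disc :=
      Metric.ball_subset_closedBall (wmap_mem u (by linarith))
    have hFt : Ft s (ext (f : C(Disc, ℂ))) u =
        ∑' k, c k * ((wmap u + ph) ^ (s : ℂ) * Et s k (wmap u)) := by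
      unfold Ft
      have : ext (f : C(Disc, ℂ)) (wmap u) = ∑' k, c k * Et s k (wmap u) := by
        unfold ext
        rw [dif_pos hmem, hf ⟨wmap u, hmem⟩]
      rw [this, ← tsum_mul_left]
      apply tsum_congr
      intro k
      ring
    -- double family
    have hdouble : Summable (fun p : ℕ × ℕ =>
        c p.1 * (((nk s p.2 / nk s p.1 * V s p.2 p.1 : ℝ) : ℂ) * u ^ p.2)) := by
      have h1 : Summable (fun l => nk s l * ‖u‖ ^ l) :=
        nk_summable s hs ‖u‖ (norm_nonneg _) (by linarith)
      have h2 : Summable (fun p : ℕ × ℕ => ‖c p.1‖ * (nk s p.2 * ‖u‖ ^ p.2)) := by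
        apply Summable.mul_of_nonneg hc h1
        · intro k; exact norm_nonneg _
        · intro k; have := nk_pos s hs0 k; positivity
      apply Summable.of_norm_bounded (h2.mul_right (C / nk s 0))
      intro p
      rw [norm_mul, norm_mul, norm_pow]
      have h3 := hb p.2 p.1
      calc ‖c p.1‖ * (‖((nk s p.2 / nk s p.1 * V s p.2 p.1 : ℝ) : ℂ)‖ * ‖u‖ ^ p.2)
          ≤ ‖c p.1‖ * ((nk s p.2 / nk s 0 * C) * ‖u‖ ^ p.2) := by gcongr
        _ = ‖c p.1‖ * (nk s p.2 * ‖u‖ ^ p.2) * (C / nk s 0) := by ring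
    have hrow : ∀ k, HasSum (fun l => c k * (((nk s l / nk s k * V s l k : ℝ) : ℂ) * u ^ l))
        (c k * ((wmap u + ph) ^ (s : ℂ) * Et s k (wmap u))) := by
      intro k
      exact (Et_series s hs k u hu.le).mul_left _
    have htot : HasSum (fun p : ℕ × ℕ =>
        c p.1 * (((nk s p.2 / nk s p.1 * V s p.2 p.1 : ℝ) : ℂ) * u ^ p.2))
        (Ft s (ext (f : C(Disc, ℂ))) u) := by
      have h := hdouble.hasSum
      have h' := h.prod_fiberwise hrow
      rw [hFt, h'.tsum_eq]
      exact h
    have hswap := (Equiv.prodComm ℕ ℕ).hasSum_iff.mpr htot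
    have hcol : ∀ l, HasSum (fun k => c k * (((nk s l / nk s k * V s l k : ℝ) : ℂ) * u ^ l))
        ((∑' k, c k * ((nk s l / nk s k * V s l k : ℝ) : ℂ)) * u ^ l) := by
      intro l
      have h := (hsum l).hasSum.mul_right (u ^ l)
      simpa [mul_assoc] using h
    exact hswap.prod_fiberwise hcol
  have := eq_of_series (ak s (ext (f : C(Disc, ℂ))))
    (fun l => ∑' k, c k * ((nk s l / nk s k * V s l k : ℝ) : ℂ)) (Ft s (ext (f : C(Disc, ℂ))))
    (1 / 4) (by norm_num) (fun u hu => ak_hasSum s f u (by linarith)) key l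
  rw [this]
  exact (hsum l).hasSum

end Pool.Agent.Helper242.RM
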