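import Pool.Agent.Helper242.RM.L5d

set_option autoImplicit false

namespace Pool.Agent.Helper242.RM

open MeasureTheory Set Filter Topology

theorem pk_measurable (s : ℝ) (k : ℕ) : Measurable (pk s k) := by
  unfold pk Lag
  fun_prop

theorem wt_measurable (s : ℝ) : Measurable (wt s) := by
  unfold wt w0
  fun_prop

theorem w0_nonneg' (s : ℝ) {x : ℝ} (hx : 0 < x) : 0 ≤ w0 s x := by
  unfold w0; positivity

theorem one_sub_pos' {x : ℝ} (hx : 0 < x) : 0 < 1 - Real.exp (-x) := by
  have : Real.exp (-x) < 1 := by rw [Real.exp_lt_one_iff]; linarith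
  linarith

theorem wt_nonneg' (s : ℝ) {x : ℝ} (hx : 0 < x) : 0 ≤ wt s x := by
  unfold wt; exact div_nonneg (w0_nonneg' s hx) (one_sub_pos' hx).le

/-- inner products of classes of real functions -/
theorem inner_toLp_real {μ : Measure ℝ} {f g : ℝ → ℝ} (hf : MemLp (fun x => (f x : ℂ)) 2 μ)
    (hg : MemLp (fun x => (g x : ℂ)) 2 μ) :
    inner ℂ (hf.toLp _) (hg.toLp _) = ((∫ x, f x * g x ∂μ : ℝ) : ℂ) := by
  rw [L2.inner_def, ← integral_complex_ofReal]
  refine integral_congr_ae ?_
  filter_upwards [hf.coeFn_toLp, hg.coeFn_toLp] with x h1 h2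
  rw [h1, h2]
  simp [mul_comm]

/-- A Hilbert space with a family of Gram matrix `V` and a biorthogonal family. -/
theorem exists_model (s : ℝ) (hs : 1 < s) :
    ∃ (H : Type) (_ : NormedAddCommGroup H) (_ : InnerProductSpace ℂ H) (_ : CompleteSpace H)
      (q d : ℕ → H), (∀ l k, inner ℂ (q l) (q k) = ((V s l k : ℝ) : ℂ)) ∧
        (∀ l k, inner ℂ (q l) (d k) = if l = k then (1 : ℂ) else 0) := by
  obtain ⟨μ, hμ⟩ : ∃ μ : Measure ℝ, μ = volume.restrict (Ioi (0 : ℝ)) := ⟨_, rfl⟩
  have hpos : ∀ᵐ x ∂μ, 0 < x := by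
    rw [hμ]; exact (ae_restrict_mem measurableSet_Ioi)
  have hsw : Measurable (fun x => √(wt s x)) := (wt_measurable s).sqrt
  have hq : ∀ k, MemLp (fun x => pk s k x * √(wt s x)) 2 μ := by
    intro k
    have hm : AEStronglyMeasurable (fun x => pk s k x * √(wt s x)) μ :=
      ((pk_measurable s k).mul hsw).aestronglyMeasurable
    rw [memLp_two_iff_integrable_sq hm]
    have h := pk_wt_integrable s hs k k
    rw [IntegrableOn, ← hμ] at h
    refine h.congr ?_
    filter_upwards [hpos] with x hx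
    rw [mul_pow, Real.sq_sqrt (wt_nonneg' s hx)]; ring
  have hd : ∀ k, MemLp (fun x => (1 - Real.exp (-x)) * (pk s k x * √(wt s x))) 2 μ := by
    intro k
    refine (hq k).of_le ?_ ?_
    · exact ((by fun_prop : Measurable (fun x : ℝ => 1 - Real.exp (-x))).mul
        ((pk_measurable s k).mul hsw)).aestronglyMeasurable
    · filter_upwards [hpos] with x hx
      rw [norm_mul, Real.norm_eq_abs, abs_of_pos (one_sub_pos' hx)]
      have h1 : 1 - Real.exp (-x) ≤ 1 := by linarith [Real.exp_pos (-x)]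
      have h2 := norm_nonneg (pk s k x * √(wt s x))
      nlinarith
  have hq' : ∀ k, MemLp (fun x => ((pk s k x * √(wt s x) : ℝ) : ℂ)) 2 μ := fun k => (hq k).ofReal
  have hd' : ∀ k, MemLp (fun x => (((1 - Real.exp (-x)) * (pk s k x * √(wt s x)) : ℝ) : ℂ)) 2 μ :=
    fun k => (hd k).ofReal
  refine ⟨Lp ℂ 2 μ, inferInstance, inferInstance, inferInstance, fun k => (hq' k).toLp _,
    fun k => (hd' k).toLp _, ?_, ?_⟩
  · intro l k
    rw [inner_toLp_real]
    congr 1
    unfold V
    rw [← hμ]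
    refine integral_congr_ae ?_
    filter_upwards [hpos] with x hx
    have := Real.mul_self_sqrt (wt_nonneg' s hx)
    calc pk s l x * √(wt s x) * (pk s k x * √(wt s x)) = pk s l x * pk s k x * (√(wt s x) * √(wt s x)) := by ring
      _ = _ := by rw [this]
  · intro l k
    rw [inner_toLp_real]
    have h1 : ∫ x, pk s l x * √(wt s x) * ((1 - Real.exp (-x)) * (pk s k x * √(wt s x))) ∂μ =
        if l = k then 1 else 0 := by
      rw [← pk_orth s (by linarith) l k, ← hμ]
      refine integral_congr_ae ?_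
      filter_upwards [hpos] with x hx
      have e1 := Real.mul_self_sqrt (wt_nonneg' s hx)
      have e2 : wt s x * (1 - Real.exp (-x)) = w0 s x := by
        unfold wt; exact div_mul_cancel₀ _ (one_sub_pos' hx).ne'
      calc pk s l x * √(wt s x) * ((1 - Real.exp (-x)) * (pk s k x * √(wt s x)))
          = pk s l x * pk s k x * ((√(wt s x) * √(wt s x)) * (1 - Real.exp (-x))) := by ring
        _ = _ := by rw [e1, e2]
    rw [h1]
    split_ifs <;> simp

theorem V_symm (s : ℝ) (l k : ℕ) : V s l k = V s k l := by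
  unfold V
  congr 1
  funext x
  ring

/-- norm of a finite complex combination with a real Gram matrix -/
theorem norm_sq_comb {H : Type*} [NormedAddCommGroup H] [InnerProductSpace ℂ H]
    (p : ℕ → H) (W : ℕ → ℕ → ℝ) (hp : ∀ l k, inner ℂ (p l) (p k) = ((W l k : ℝ) : ℂ)) (z : ℕ → ℂ) (N : ℕ) :
    ‖∑ k ∈ Finset.range N, z k • p k‖ ^ 2 =
      ∑ k ∈ Finset.range N, ∑ l ∈ Finset.range N, (z k).re * (z l).re * W k l +
      ∑ k ∈ Finset.range N, ∑ l ∈ Finset.range N, (z k).im * (z l).im * W k l := by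
  have h1 : (inner ℂ (∑ k ∈ Finset.range N, z k • p k) (∑ k ∈ Finset.range N, z k • p k) : ℂ) =
      ∑ k ∈ Finset.range N, ∑ l ∈ Finset.range N, (starRingEnd ℂ) (z k) * z l * ((W k l : ℝ) : ℂ) := by
    rw [sum_inner]
    refine Finset.sum_congr rfl fun k _ => ?_
    rw [inner_sum]
    refine Finset.sum_congr rfl fun l _ => ?_
    rw [inner_smul_left, inner_smul_right, hp]
    ring
  have h2 : ‖∑ k ∈ Finset.range N, z k • p k‖ ^ 2 =
      (inner ℂ (∑ k ∈ Finset.range N, z k • p k) (∑ k ∈ Finset.range N, z k • p k) : ℂ).re := by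
    rw [inner_self_eq_norm_sq_to_K]
    norm_cast
  rw [h2, h1, Complex.re_sum, ← Finset.sum_add_distrib]
  refine Finset.sum_congr rfl fun k _ => ?_
  rw [Complex.re_sum, ← Finset.sum_add_distrib]
  refine Finset.sum_congr rfl fun l _ => ?_
  simp only [Complex.mul_re, Complex.conj_re, Complex.conj_im, Complex.ofReal_re, Complex.ofReal_im]
  ring

/-- the shift inequality for complex combinations -/
theorem shift_norm (s : ℝ) (hs : 1 < s) {H : Type*} [NormedAddCommGroup H] [InnerProductSpace ℂ H]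
    (q : ℕ → H) (hq : ∀ l k, inner ℂ (q l) (q k) = ((V s l k : ℝ) : ℂ)) (a : ℕ →₀ ℂ) :
    ‖a.sum (fun k z => z • q (k + 1))‖ ≤ √(5 / 2) * ‖a.sum (fun k z => z • q k)‖ := by
  obtain ⟨N, hN⟩ : ∃ N, a.support ⊆ Finset.range N := ⟨a.support.sup id + 1, fun k hk => by
    rw [Finset.mem_range]
    have := Finset.le_sup (f := id) hk
    simp only [id] at this
    omega⟩
  rw [Finsupp.sum_of_support_subset a hN _ (by simp), Finsupp.sum_of_support_subset a hN _ (by simp)]
  have h1 := norm_sq_comb (fun k => q (k + 1)) (fun l k => V s (l + 1) (k + 1)) (fun l k => hq _ _) a N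
  have h2 := norm_sq_comb q (V s) hq a N
  have h3 := shift_real s hs (fun k => (a k).re) N
  have h4 := shift_real s hs (fun k => (a k).im) N
  rw [← pow_le_pow_iff_left₀ (norm_nonneg _) (by positivity) two_ne_zero, mul_pow,
    Real.sq_sqrt (by norm_num), h1, h2]
  linarith

end Pool.Agent.Helper242.RM
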