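import Pool.Agent.Helper242.RM.A6
import Pool.Agent.Helper242.RM.B5
import Pool.Agent.Helper242.RM.B6
import Pool.Agent.Helper242.RM.L8
import Pool.Agent.Helper242.RM.C2
import Pool.Agent.Helper242.RM.C5
import Pool.Agent.Helper242.RM.C7
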