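import Mathlib

set_option autoImplicit false

namespace Pool.Agent.Helper242.RM

open Finset

/-- the numerical inequality -/
theorem hardy_num (n nu X N e s : ℝ) (hn : 1 ≤ n) (hnu : 0 < nu) (hX : X = n + nu)
    (hN : N = n + 1) (hn2 : n = 1 ∨ 2 ≤ n) (he0 : 0 ≤ e) (he1 : e ≤ 1)
    (hE : e * (2 - e) * (N * X) = nu) (hs : s * (2 - e) = 1) :
    0 ≤ X * N * (2 * X + 5) - 6 * s * X * N - s ^ 2 * (9 * N + 6 * nu) := by
  have hXp : 0 < X := by linarith
  have hNp : 0 < N := by linarith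
  have hs0 : 0 < s := by
    by_contra h
    push Not at h
    nlinarith
  have hNX : 0 < N * X := by positivity
  have h1 : e * (N * X) ≤ nu := by
    have : 0 ≤ e * (1 - e) * (N * X) := by
      apply mul_nonneg (mul_nonneg he0 (by linarith)) hNX.le
    nlinarith
  rcases le_or_gt (5 / 4) X with hc | hc
  · have he2 : e ≤ 1 / 2 := by
      by_contra h
      push Not at h
      have : 1 / 2 * (N * X) < e * (N * X) := by
        apply mul_lt_mul_of_pos_right h hNX
      nlinarith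
    have hs2 : s ≤ 2 / 3 := by nlinarith
    have hs3 : s ^ 2 ≤ 4 / 9 := by nlinarith
    have h3 : 6 * s * X * N ≤ 4 * (X * N) := by
      have : 0 < X * N := by positivity
      nlinarith
    have h4 : s ^ 2 * (9 * N + 6 * nu) ≤ 4 / 9 * (9 * N + 6 * nu) := by
      apply mul_le_mul_of_nonneg_right hs3 (by positivity)
    have h5 : 0 ≤ X * N * (2 * X + 1) - 4 * N - 8 / 3 * nu := by
      have h6 : 8 / 3 * nu ≤ 4 / 3 * N * (X - 1) := by
        have : nu ≤ X - 1 := by linarith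
        have hN2 : 2 ≤ N := by linarith
        nlinarith
      have h7 : 0 ≤ 2 * X ^ 2 - X / 3 - 8 / 3 := by nlinarith
      have h8 : 0 ≤ N * (2 * X ^ 2 - X / 3 - 8 / 3) := by positivity
      nlinarith
    nlinarith
  · have hn1 : n = 1 := by
      rcases hn2 with h | h
      · exact h
      · linarith
    subst hn1
    have hnu2 : nu < 1 / 4 := by linarith
    have hN2 : N = 2 := by linarith
    subst hN2
    have he2 : e ≤ 1 / 8 := by
      nlinarith
    have hs2 : s ≤ 8 / 15 := by nlinarith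
    have hs3 : s ^ 2 ≤ 64 / 225 := by nlinarith
    have h4 : s ^ 2 * (9 * 2 + 6 * nu) ≤ 64 / 225 * (9 * 2 + 6 * nu) := by
      apply mul_le_mul_of_nonneg_right hs3 (by positivity)
    have h3 : 6 * s * X * 2 ≤ 6 * (8 / 15) * X * 2 := by
      nlinarith
    nlinarith

theorem hardy_step_real (m : ℝ) (hnr : 1 ≤ m) (hn2 : m = 1 ∨ 2 ≤ m) (nu : ℝ) (hnu : 0 < nu)
    (w w' d : ℝ)
    (hw : w = √((m + 1) / (m + 1 + nu))) (hw' : w' = √(m / (m + nu))) (hd : d = w - w')
    (U H : ℝ) :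
    0 ≤ (5 / 2) * U ^ 2 - ((m + nu) / (m + 1)) * (w * U + H) ^ 2
      - (3 * (m + nu) / nu) * (H + d * U) ^ 2
      + (3 * (m + 1 + nu) * (m + nu) / (nu * (m + 1))) * H ^ 2 := by
  obtain ⟨X, hX⟩ : ∃ X : ℝ, X = m + nu := ⟨_, rfl⟩
  obtain ⟨N, hN⟩ : ∃ N : ℝ, N = m + 1 := ⟨_, rfl⟩
  have hXp : 0 < X := by linarith
  have hNp : 0 < N := by linarith
  have hX1 : 0 < X + 1 := by linarith
  have hw2 : w ^ 2 = N / (X + 1) := by
    rw [hw, Real.sq_sqrt (by positivity), hN, hX]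
    congr 1; ring
  have hw'2 : w' ^ 2 = m / X := by
    rw [hw', Real.sq_sqrt (by positivity), hX]
  have hwp : 0 < w := by
    rw [hw]; apply Real.sqrt_pos.2; positivity
  have hw'0 : 0 ≤ w' := by
    rw [hw']; exact Real.sqrt_nonneg _
  have hww : w' ≤ w := by
    apply le_of_sq_le_sq _ hwp.le
    rw [hw2, hw'2, div_le_div_iff₀ hXp hX1]
    nlinarith
  obtain ⟨e, he⟩ : ∃ e : ℝ, e = d / w := ⟨_, rfl⟩
  have hde : d = w * e := by rw [he]; field_simp
  have he0 : 0 ≤ e := by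
    rw [he, hd]; apply div_nonneg (by linarith) hwp.le
  have hw'e : w' = w * (1 - e) := by linarith [hde, hd]
  have he1 : e ≤ 1 := by
    by_contra h
    push Not at h
    nlinarith
  have hq : w' ^ 2 = w ^ 2 * (1 - e) ^ 2 := by rw [hw'e]; ring
  rw [hw2, hw'2] at hq
  have hE : e * (2 - e) * (N * X) = nu := by
    field_simp at hq
    nlinarith
  have hep : 0 < e := by
    rcases he0.eq_or_lt with h | h
    · rw [← h] at hE; linarith
    · exact h
  have h2e : 0 < 2 - e := by linarith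
  obtain ⟨s, hs⟩ : ∃ s : ℝ, s = 1 / (2 - e) := ⟨_, rfl⟩
  have hs' : s * (2 - e) = 1 := by rw [hs]; field_simp
  have key := hardy_num m nu X N e s hnr hnu hX hN hn2 he0 he1 hE hs'
  -- e = nu * s / (N * X)
  have hes : e * (N * X) = nu * s := by
    have : e * (N * X) * (s * (2 - e)) = nu * s := by
      linear_combination s * hE
    rw [hs'] at this
    linarith
  have hes' : e = nu * s / (N * X) := by
    field_simp; linarith
  obtain ⟨a, ha⟩ : ∃ a : ℝ, a = 5 / 2 - X / N * w ^ 2 - 3 * X / nu * d ^ 2 := ⟨_, rfl⟩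
  obtain ⟨b, hb⟩ : ∃ b : ℝ, b = X / N * w + 3 * X / nu * d := ⟨_, rfl⟩
  obtain ⟨c, hc⟩ : ∃ c : ℝ, c = 2 * X / N := ⟨_, rfl⟩
  have hcp : 0 < c := by rw [hc]; positivity
  have hform : (5 / 2) * U ^ 2 - ((m + nu) / (m + 1)) * (w * U + H) ^ 2
      - (3 * (m + nu) / nu) * (H + d * U) ^ 2
      + (3 * (m + 1 + nu) * (m + nu) / (nu * (m + 1))) * H ^ 2
      = a * U ^ 2 - 2 * b * U * H + c * H ^ 2 := by
    have h1 : m + 1 + nu = X + 1 := by linarith
    rw [h1, ← hX, ← hN, ha, hb, hc]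
    have h2 : nu = X - m := by linarith
    have h3 : N = m + 1 := hN
    have hnu0 : nu ≠ 0 := hnu.ne'
    have hN0 : N ≠ 0 := hNp.ne'
    field_simp
    rw [h3, h2]
    ring
  have hac : a * c - b ^ 2 = (X * N * (2 * X + 5) - 6 * s * X * N - s ^ 2 * (9 * N + 6 * nu))
      / (N ^ 2 * (X + 1)) := by
    have hb2 : b ^ 2 = w ^ 2 * (X / N + 3 * X / nu * e) ^ 2 := by
      rw [hb, hde]; ring
    rw [hb2, ha, hc, hde, mul_pow, hw2, hes']
    field_simp
    ring
  have hac0 : 0 ≤ a * c - b ^ 2 := by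
    rw [hac]; positivity
  rw [hform]
  have : 0 ≤ c * (a * U ^ 2 - 2 * b * U * H + c * H ^ 2) := by
    have : c * (a * U ^ 2 - 2 * b * U * H + c * H ^ 2) = (c * H - b * U) ^ 2 + (a * c - b ^ 2) * U ^ 2 := by
      ring
    rw [this]; positivity
  exact nonneg_of_mul_nonneg_right this hcp

/-- one step of the weighted Hardy inequality -/
theorem hardy_step (n : ℕ) (hn : 1 ≤ n) (nu : ℝ) (hnu : 0 < nu) (w w' d : ℝ)
    (hw : w = √(((n : ℝ) + 1) / (n + 1 + nu))) (hw' : w' = √((n : ℝ) / (n + nu))) (hd : d = w - w')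
    (U H : ℝ) :
    0 ≤ (5 / 2) * U ^ 2 - ((n + nu) / (n + 1)) * (w * U + H) ^ 2
      - (3 * (n + nu) / nu) * (H + d * U) ^ 2
      + (3 * (n + 1 + nu) * (n + nu) / (nu * (n + 1))) * H ^ 2 := by
  have hnr : (1 : ℝ) ≤ n := by exact_mod_cast hn
  have hn2 : (n : ℝ) = 1 ∨ (2 : ℝ) ≤ n := by
    rcases hn.eq_or_lt with h | h
    · left; exact_mod_cast h.symm
    · right; exact_mod_cast h
  exact hardy_step_real n hnr hn2 nu hnu w w' d hw hw' hd U H

end Pool.Agent.Helper242.RM
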