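import Pool.Agent.Helper242.RM.B1

set_option autoImplicit false

namespace Pool.Agent.Helper242.RM

open Finset

/-- weighted Hardy type inequality; `g i = Γ(i+ν)/i!`. -/
theorem hardy (nu : ℝ) (hnu : 0 < nu) (g : ℕ → ℝ) (hg0 : 0 < g 0)
    (hg : ∀ i : ℕ, g (i + 1) = g i * (i + nu) / (i + 1)) (A : ℕ → ℝ) (N : ℕ) :
    (g 0 + g 1) * (∑ k ∈ Ico 0 N, √(((k : ℝ) + 1) / (k + 1 + nu)) * A k) ^ 2
      + ∑ i ∈ Ico 1 N, g (i + 1) * (∑ k ∈ Ico i N, √(((k : ℝ) + 1) / (k + 1 + nu)) * A k) ^ 2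
      ≤ (5 / 2) * ∑ i ∈ Ico 0 N, g i * (∑ k ∈ Ico i N, A k) ^ 2 := by
  have hgpos : ∀ i, 0 < g i := by
    intro i
    induction i with
    | zero => exact hg0
    | succ i ih =>
      rw [hg]
      positivity
  set w : ℕ → ℝ := fun k => √(((k : ℝ) + 1) / (k + 1 + nu)) with hw
  set U : ℕ → ℝ := fun i => ∑ k ∈ Ico i N, A k with hU
  set W : ℕ → ℝ := fun i => ∑ k ∈ Ico i N, w k * A k with hW
  have hUs : ∀ j, j < N → U j = A j + U (j + 1) := by
    intro j hj
    exact Finset.sum_eq_sum_Ico_succ_bot hj _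
  have hWs : ∀ j, j < N → W j = w j * A j + W (j + 1) := by
    intro j hj
    exact Finset.sum_eq_sum_Ico_succ_bot hj _
  have hUN : U N = 0 := by simp [hU]
  have hWN : W N = 0 := by simp [hW]
  have claim : ∀ m j : ℕ, 1 ≤ j → j + m = N →
      (3 * (j + nu) * g j / nu) * (W j - w (j - 1) * U j) ^ 2 ≤
        ∑ i ∈ Ico j N, (5 / 2 * (g i * U i ^ 2) - g (i + 1) * W i ^ 2) := by
    intro m
    induction m with
    | zero =>
      intro j hj hjN
      have : j = N := by omega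
      subst this
      rw [hUN, hWN]
      simp
    | succ m ih =>
      intro j hj hjN
      have hjlt : j < N := by omega
      rw [Finset.sum_eq_sum_Ico_succ_bot hjlt]
      have h1 := ih (j + 1) (by omega) (by omega)
      have hst := hardy_step j hj nu hnu (w j) (w (j - 1)) (w j - w (j - 1)) rfl (by
        have : ((j - 1 : ℕ) : ℝ) = j - 1 := by
          rw [Nat.cast_sub hj]; simp
        simp only [hw]
        rw [this]
        congr 1
        ring) rfl (U j) (W (j + 1) - w j * U (j + 1))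
      have e1 : w j * U j + (W (j + 1) - w j * U (j + 1)) = W j := by
        rw [hUs j hjlt, hWs j hjlt]; ring
      have e2 : (W (j + 1) - w j * U (j + 1)) + (w j - w (j - 1)) * U j = W j - w (j - 1) * U j := by
        rw [← e1]; ring
      rw [e1, e2] at hst
      have h2 := mul_nonneg (hgpos j).le hst
      have hj0 : (0:ℝ) < (j:ℝ) + 1 := by positivity
      have e3 : (3 * (((j + 1 : ℕ) : ℝ) + nu) * g (j + 1) / nu) = g j * (3 * ((j:ℝ) + 1 + nu) * (j + nu) / (nu * (j + 1))) := by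
        rw [hg]; push_cast; field_simp
      have e4 : g (j + 1) = g j * (((j:ℝ) + nu) / (j + 1)) := by
        rw [hg]; ring
      rw [e3] at h1
      simp only [Nat.add_sub_cancel] at h1
      have e5 : 3 * ((j:ℝ) + nu) * g j / nu = g j * (3 * (j + nu) / nu) := by ring
      rw [e5, e4]
      nlinarith [h1, h2]
  rcases Nat.eq_zero_or_pos N with hN | hN
  · subst hN
    simp
  · have hc := claim (N - 1) 1 le_rfl (by omega)
    have e0 : g 1 = g 0 * nu := by
      have := hg 0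
      simpa using this
    have hW0 := hWs 0 hN
    have hU0 := hUs 0 hN
    have hw0 : w 0 ^ 2 * (1 + nu) = 1 := by
      simp only [hw]
      rw [Real.sq_sqrt (by positivity)]
      push_cast
      field_simp
      ring
    have hsplit : ∑ i ∈ Ico 0 N, g i * U i ^ 2 = g 0 * U 0 ^ 2 + ∑ i ∈ Ico 1 N, g i * U i ^ 2 :=
      Finset.sum_eq_sum_Ico_succ_bot hN _
    rw [Finset.sum_sub_distrib, ← Finset.mul_sum] at hc
    show (g 0 + g 1) * (W 0) ^ 2 + ∑ i ∈ Ico 1 N, g (i + 1) * (W i) ^ 2 ≤ 5 / 2 * ∑ i ∈ Ico 0 N, g i * (U i) ^ 2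
    rw [hsplit]
    simp only [zero_add] at hW0 hU0
    set H := W 1 - w 0 * U 1 with hH
    have e1 : W 0 = w 0 * U 0 + H := by rw [hW0, hU0, hH]; ring
    have e2 : 3 * (((1:ℕ):ℝ) + nu) * g 1 / nu = 3 * (1 + nu) * g 0 := by
      rw [e0]; push_cast; field_simp
    rw [e2] at hc
    have e3 : 0 ≤ g 0 * (5 / 2 * U 0 ^ 2 - (1 + nu) * (w 0 * U 0 + H) ^ 2 + 3 * (1 + nu) * H ^ 2) := by
      apply mul_nonneg hg0.le
      have : 5 / 2 * U 0 ^ 2 - (1 + nu) * (w 0 * U 0 + H) ^ 2 + 3 * (1 + nu) * H ^ 2 =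
          3 / 2 * U 0 ^ 2 - 2 * ((1 + nu) * w 0) * U 0 * H + 2 * (1 + nu) * H ^ 2 + (1 - w 0 ^ 2 * (1 + nu)) * U 0 ^ 2 := by ring
      rw [this, hw0]
      have hs : ((1 + nu) * w 0) ^ 2 = 1 + nu := by
        calc ((1 + nu) * w 0) ^ 2 = (1 + nu) * (w 0 ^ 2 * (1 + nu)) := by ring
          _ = 1 + nu := by rw [hw0, mul_one]
      set s := (1 + nu) * w 0
      rw [← hs]
      nlinarith [sq_nonneg (U 0 - s * H), sq_nonneg (U 0), sq_nonneg (s * H)]
    rw [e1, e0]
    nlinarith [hc, e3]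

end Pool.Agent.Helper242.RM
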