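import Mathlib

/-!
# Ruelle–Mayer operators: definitions
-/

set_option autoImplicit false

namespace Pool.Agent.Helper242.RM

open MeasureTheory Set Filter Topology

/-- `√5` -/
noncomputable def cc : ℝ := √5

/-- `θ = (√5-1)/2` -/
noncomputable def th : ℝ := (√5 - 1) / 2

/-- golden ratio -/
noncomputable def ph : ℝ := (√5 + 1) / 2

/-- Laguerre polynomial `L_k^{(s-1)}` -/
noncomputable def Lag (s : ℝ) (k : ℕ) (t : ℝ) : ℝ :=
  ∑ i ∈ Finset.range (k + 1), (-1) ^ i *
    (Real.Gamma (k + s) / (Real.Gamma (i + s) * (k - i).factorial * i.factorial)) * t ^ i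

/-- normalisation -/
noncomputable def nk (s : ℝ) (k : ℕ) : ℝ := √(cc ^ s * Real.Gamma (k + s) / k.factorial)

/-- normalised Laguerre polynomial -/
noncomputable def pk (s : ℝ) (k : ℕ) (x : ℝ) : ℝ := cc ^ s / nk s k * Lag s k (cc * x)

/-- base weight -/
noncomputable def w0 (s x : ℝ) : ℝ := x ^ (s - 1) * Real.exp (-(cc * x))

/-- the weight of the Hilbert space -/
noncomputable def wt (s x : ℝ) : ℝ := w0 s x / (1 - Real.exp (-x))

/-- Gram matrix -/
noncomputable def V (s : ℝ) (l k : ℕ) : ℝ :=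
  ∫ x in Set.Ioi (0 : ℝ), pk s l x * pk s k x * wt s x

/-- The closed disc `|z - 1| ≤ 3/2`. -/
abbrev Disc : Set ℂ := Metric.closedBall (1 : ℂ) (3 / 2)

open Classical in
/-- Extension by zero of a function on the closed disc. -/
noncomputable def ext (f : C(Disc, ℂ)) : ℂ → ℂ := fun z => if h : z ∈ Disc then f ⟨z, h⟩ else 0

/-- The space `X` of continuous functions on the closed disc which are holomorphic in the open
disc. -/
noncomputable def X : Submodule ℂ C(Disc, ℂ) where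
  carrier := {f | DifferentiableOn ℂ (ext f) (Metric.ball (1 : ℂ) (3 / 2))}
  add_mem' := by
    intro f g hf hg
    have : ext (f + g) = ext f + ext g := by
      funext z
      by_cases h : z ∈ Disc <;> simp [ext, h]
    change DifferentiableOn ℂ _ _
    rw [this]
    exact hf.add hg
  zero_mem' := by
    have : ext (0 : C(Disc, ℂ)) = fun _ => 0 := by
      funext z
      by_cases h : z ∈ Disc <;> simp [ext, h]
    change DifferentiableOn ℂ _ _
    rw [this]
    exact differentiableOn_const 0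
  smul_mem' := by
    intro c f hf
    have : ext (c • f) = c • ext f := by
      funext z
      by_cases h : z ∈ Disc <;> simp [ext, h]
    change DifferentiableOn ℂ _ _
    rw [this]
    exact hf.const_smul c

/-- The value `(G_s f)(z) = ∑_{n ≥ 1} (z+n)^{-s} f(1/(z+n))`. -/
noncomputable def Gval (s : ℝ) (f : C(Disc, ℂ)) (z : ℂ) : ℂ :=
  ∑' n : ℕ, (z + ((n : ℂ) + 1)) ^ (-(s : ℂ)) * ext f (z + ((n : ℂ) + 1))⁻¹

/-- Möbius coordinate centred at `θ`. -/
noncomputable def wmap (u : ℂ) : ℂ := (th + ph * u) / (1 - u)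

/-- `F` in the coordinate `u`, multiplied by the automorphy factor -/
noncomputable def Ft (s : ℝ) (F : ℂ → ℂ) (u : ℂ) : ℂ := (wmap u + ph) ^ (s : ℂ) * F (wmap u)

/-- Taylor coefficients of `Ft`. -/
noncomputable def ak (s : ℝ) (F : ℂ → ℂ) (k : ℕ) : ℂ :=
  ((k.factorial : ℂ))⁻¹ * iteratedDeriv k (Ft s F) 0

/-- `Λ_k = θ^s (-θ²)^k` -/
noncomputable def Lam (s : ℝ) (k : ℕ) : ℝ := th ^ s * (-th ^ 2) ^ k

/-- `E_k(z) = ∑_{n ≥ 0} (z+n-θ)^k / (z+n+φ)^{k+s}` -/
noncomputable def Et (s : ℝ) (k : ℕ) (z : ℂ) : ℂ :=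
  ∑' n : ℕ, ((z + n - th) / (z + n + ph)) ^ k * (1 / (z + n + ph)) ^ (s : ℂ)

end Pool.Agent.Helper242.RM
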