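import Mathlib

set_option autoImplicit false

namespace Pool.Agent.Helper242.RM

open Module Module.End

variable {H : Type*} [NormedAddCommGroup H] [InnerProductSpace ℂ H] [CompleteSpace H]

/-- span of the eigenvectors with real eigenvalue `> m` -/
noncomputable def Epos (S : H →L[ℂ] H) (m : ℝ) : Submodule ℂ H :=
  ⨆ t : {t : ℝ // m < t}, eigenspace (S : End ℂ H) ((t : ℝ) : ℂ)

/-- span of the eigenvectors with real eigenvalue `≥ m` -/
noncomputable def Eposc (S : H →L[ℂ] H) (m : ℝ) : Submodule ℂ H :=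
  ⨆ t : {t : ℝ // m ≤ t}, eigenspace (S : End ℂ H) ((t : ℝ) : ℂ)

end Pool.Agent.Helper242.RM
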