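import Pool.Agent.Helper242.RM.All

set_option autoImplicit false

namespace Pool.Agent.Helper242.RM

open Module Module.End

/-- The Ruelle–Mayer operator `G_s` as a linear operator on `X`. -/
noncomputable def G (s : ℝ) (hs : 1 < s) : X →ₗ[ℂ] X where
  toFun f := ⟨⟨fun z : Disc => Gval s (f : C(Disc, ℂ)) z, Gval_continuous s hs f⟩, by
    change DifferentiableOn ℂ _ _
    refine (Gval_differentiable s hs f).congr ?_
    intro z hz
    have hz' : z ∈ Disc := Metric.ball_subset_closedBall hz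
    simp only [ext, dif_pos hz', ContinuousMap.coe_mk]⟩
  map_add' f g := by
    apply Subtype.ext
    ext z
    exact Gval_add s hs f g z z.2
  map_smul' c f := by
    apply Subtype.ext
    ext z
    exact Gval_smul s c f z

theorem G_apply (s : ℝ) (hs : 1 < s) (f : X) (z : Disc) :
    ((G s hs f : X) : C(Disc, ℂ)) z = Gval s (f : C(Disc, ℂ)) z := rfl

theorem ak_G (s : ℝ) (hs : 1 < s) (f : X) (l : ℕ) :
    HasSum (fun k => ((Lam s k : ℂ) * ak s (ext (f : C(Disc, ℂ))) k) *
      ((nk s l / nk s k * V s l k : ℝ) : ℂ))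
      (ak s (ext ((G s hs f : X) : C(Disc, ℂ))) l) := by
  refine ak_of_series s hs _ (Lam_ak_summable s f) (G s hs f) ?_ l
  intro z
  rw [G_apply]
  exact (Gval_hasSum s hs f z z.2).tsum_eq.symm

section model

variable {H : Type*} [NormedAddCommGroup H] [InnerProductSpace ℂ H] [CompleteSpace H]

theorem q_norm_le (s : ℝ) (hs : 1 < s) (q : ℕ → H)
    (hq : ∀ l k, inner ℂ (q l) (q k) = ((V s l k : ℝ) : ℂ)) (k : ℕ) :
    ‖q k‖ ≤ √(1 + cc / (s - 1)) := by
  apply Real.le_sqrt_of_sq_le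
  have h := hq k k
  rw [inner_self_eq_norm_sq_to_K] at h
  have h2 : ‖q k‖ ^ 2 = V s k k := by
    have := congrArg Complex.re h
    simpa [← Complex.ofReal_pow] using this
  rw [h2]
  exact V_diag_le s hs k

theorem phi_summable (s : ℝ) (hs : 1 < s) (q : ℕ → H)
    (hq : ∀ l k, inner ℂ (q l) (q k) = ((V s l k : ℝ) : ℂ)) (c : ℕ → ℂ)
    (hc : Summable (fun k => ‖c k‖)) :
    Summable (fun k => (c k / (nk s k : ℂ)) • q k) := by
  have h0 := nk_pos s (by linarith) 0
  refine Summable.of_norm_bounded (hc.mul_right (1 / nk s 0 * √(1 + cc / (s - 1)))) ?_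
  intro k
  have hk := nk_pos s (by linarith) k
  rw [norm_smul, norm_div, Complex.norm_real, Real.norm_of_nonneg hk.le, div_eq_mul_one_div,
    mul_assoc]
  refine mul_le_mul_of_nonneg_left ?_ (norm_nonneg _)
  refine mul_le_mul ?_ (q_norm_le s hs q hq k) (norm_nonneg _) (by positivity)
  exact one_div_le_one_div_of_le h0 (nk_zero_le s hs k)

/-- The map `Φ` -/
noncomputable def Phi (s : ℝ) (hs : 1 < s) (q : ℕ → H)
    (hq : ∀ l k, inner ℂ (q l) (q k) = ((V s l k : ℝ) : ℂ)) : X →ₗ[ℂ] H where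
  toFun f := ∑' k, (((Lam s k : ℂ) * ak s (ext (f : C(Disc, ℂ))) k) / (nk s k : ℂ)) • q k
  map_add' f g := by
    rw [← (phi_summable s hs q hq _ (Lam_ak_summable s f)).tsum_add
      (phi_summable s hs q hq _ (Lam_ak_summable s g))]
    refine tsum_congr fun k => ?_
    rw [← add_smul]
    congr 1
    rw [Submodule.coe_add, ak_add]
    ring
  map_smul' c f := by
    rw [RingHom.id_apply, ← (phi_summable s hs q hq _ (Lam_ak_summable s f)).tsum_const_smul c]
    refine tsum_congr fun k => ?_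
    rw [smul_smul]
    congr 1
    rw [Submodule.coe_smul, ak_smul]
    ring

theorem Phi_hasSum (s : ℝ) (hs : 1 < s) (q : ℕ → H)
    (hq : ∀ l k, inner ℂ (q l) (q k) = ((V s l k : ℝ) : ℂ)) (f : X) :
    HasSum (fun k => (((Lam s k : ℂ) * ak s (ext (f : C(Disc, ℂ))) k) / (nk s k : ℂ)) • q k)
      (Phi s hs q hq f) :=
  (phi_summable s hs q hq _ (Lam_ak_summable s f)).hasSum

/-- coefficients of `G f` in terms of `Φ f` -/
theorem ak_G_eq (s : ℝ) (hs : 1 < s) (q : ℕ → H)
    (hq : ∀ l k, inner ℂ (q l) (q k) = ((V s l k : ℝ) : ℂ)) (f : X) (l : ℕ) :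
    ak s (ext ((G s hs f : X) : C(Disc, ℂ))) l = (nk s l : ℂ) * inner ℂ (q l) (Phi s hs q hq f) := by
  have h1 := (Phi_hasSum s hs q hq f).mapL (innerSL ℂ (q l))
  have h2 := h1.mul_left (nk s l : ℂ)
  refine (ak_G s hs f l).unique (h2.congr_fun ?_)
  intro k
  simp only [innerSL_apply_apply]
  rw [inner_smul_right, hq l k]
  push_cast
  ring

/-- intertwining -/
theorem Phi_G (s : ℝ) (hs : 1 < s) (q : ℕ → H)
    (hq : ∀ l k, inner ℂ (q l) (q k) = ((V s l k : ℝ) : ℂ)) (S : H →L[ℂ] H)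
    (hS : ∀ v, HasSum (fun k => ((th ^ s * (-(th ^ 2)) ^ k : ℝ) : ℂ) • (inner ℂ (q k) v) • q k) (S v))
    (f : X) : Phi s hs q hq (G s hs f) = S (Phi s hs q hq f) := by
  refine (Phi_hasSum s hs q hq (G s hs f)).unique ((hS _).congr_fun ?_)
  intro k
  have hk : (nk s k : ℂ) ≠ 0 := by
    exact_mod_cast (nk_pos s (by linarith) k).ne'
  rw [ak_G_eq s hs q hq f k, smul_smul]
  congr 1
  unfold Lam
  field_simp

theorem Phi_injective (s : ℝ) (hs : 1 < s) (q d : ℕ → H)
    (hq : ∀ l k, inner ℂ (q l) (q k) = ((V s l k : ℝ) : ℂ))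
    (hqd : ∀ l k, inner ℂ (q l) (d k) = if l = k then (1 : ℂ) else 0) :
    Function.Injective (Phi s hs q hq) := by
  rw [← LinearMap.ker_eq_bot, LinearMap.ker_eq_bot']
  intro f hf
  apply eq_zero_of_ak s f
  intro l
  have h1 := (Phi_hasSum s hs q hq f).mapL (innerSL ℂ (d l))
  rw [hf] at h1
  simp only [innerSL_apply_apply, inner_zero_right] at h1
  have h2 : HasSum (fun k => inner ℂ (d l) ((((Lam s k : ℂ) * ak s (ext (f : C(Disc, ℂ))) k)
      / (nk s k : ℂ)) • q k)) (((Lam s l : ℂ) * ak s (ext (f : C(Disc, ℂ))) l)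
      / (nk s l : ℂ)) := by
    have h3 : ∀ k, inner ℂ (d l) (q k) = if k = l then (1 : ℂ) else 0 := by
      intro k
      rw [← inner_conj_symm, hqd k l]
      split_ifs <;> simp
    have h4 := hasSum_ite_eq l (((Lam s l : ℂ) * ak s (ext (f : C(Disc, ℂ))) l) / (nk s l : ℂ))
    refine h4.congr_fun ?_
    intro k
    rw [inner_smul_right, h3 k]
    split_ifs with h
    · subst h; simp
    · simp
  have h5 := h2.unique h1
  have hk : (nk s l : ℂ) ≠ 0 := by
    exact_mod_cast (nk_pos s (by linarith) l).ne'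
  have hL : (Lam s l : ℂ) ≠ 0 := by
    have : Lam s l ≠ 0 := by
      unfold Lam
      have := th_pos
      have h6 : (-th ^ 2) ≠ 0 := by
        have : 0 < th ^ 2 := by positivity
        linarith
      exact mul_ne_zero (Real.rpow_pos_of_pos th_pos s).ne' (pow_ne_zero _ h6)
    exact_mod_cast this
  rw [div_eq_zero_iff] at h5
  rcases h5 with h5 | h5
  · rcases mul_eq_zero.1 h5 with h5 | h5
    · exact absurd h5 hL
    · exact h5
  · exact absurd h5 hk

/-- existence of eigenfunctions -/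
theorem exists_eigenfunction (s : ℝ) (hs : 1 < s) (q : ℕ → H)
    (hq : ∀ l k, inner ℂ (q l) (q k) = ((V s l k : ℝ) : ℂ)) (S : H →L[ℂ] H)
    (hS : ∀ v, HasSum (fun k => ((th ^ s * (-(th ^ 2)) ^ k : ℝ) : ℂ) • (inner ℂ (q k) v) • q k) (S v))
    (μ : ℂ) (hμ : μ ≠ 0) (hev : HasEigenvalue (S : End ℂ H) μ) :
    HasEigenvalue (G s hs) μ := by
  obtain ⟨g, hg⟩ := hev.exists_hasEigenvector
  have hg0 : g ≠ 0 := hg.2
  have hSg : S g = μ • g := hg.apply_eq_smul
  have hth := th_pos
  set c : ℕ → ℂ := fun k => μ⁻¹ * (Lam s k : ℂ) * (nk s k : ℂ) * inner ℂ (q k) g with hc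
  have hLamn : ∀ k, ‖(Lam s k : ℂ)‖ = th ^ s * (th ^ 2) ^ k := by
    intro k
    rw [Complex.norm_real]
    unfold Lam
    rw [norm_mul, norm_pow, norm_neg, Real.norm_of_nonneg (Real.rpow_nonneg hth.le _),
      Real.norm_of_nonneg (by positivity)]
  have hcs : Summable (fun k => ‖c k‖) := by
    have h1 := nk_summable s hs (th ^ 2) (by positivity) (by have := th_sq_lt; linarith)
    refine Summable.of_nonneg_of_le (fun k => norm_nonneg _) (fun k => ?_)
      (h1.mul_left (‖μ⁻¹‖ * th ^ s * (√(1 + cc / (s - 1)) * ‖g‖)))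
    have hk := nk_pos s (by linarith) k
    have h2 : ‖inner ℂ (q k) g‖ ≤ √(1 + cc / (s - 1)) * ‖g‖ :=
      (norm_inner_le_norm _ _).trans
        (mul_le_mul_of_nonneg_right (q_norm_le s hs q hq k) (norm_nonneg _))
    rw [hc]
    simp only []
    rw [norm_mul, norm_mul, norm_mul, hLamn k, Complex.norm_real, Real.norm_of_nonneg hk.le]
    have h3 : 0 ≤ ‖μ⁻¹‖ * (th ^ s * (th ^ 2) ^ k) * nk s k := by positivity
    calc ‖μ⁻¹‖ * (th ^ s * (th ^ 2) ^ k) * nk s k * ‖inner ℂ (q k) g‖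
        ≤ ‖μ⁻¹‖ * (th ^ s * (th ^ 2) ^ k) * nk s k * (√(1 + cc / (s - 1)) * ‖g‖) :=
          mul_le_mul_of_nonneg_left h2 h3
      _ = _ := by ring
  obtain ⟨f, hf⟩ := exists_series s hs c hcs
  have hak : ∀ l, ak s (ext (f : C(Disc, ℂ))) l = (nk s l : ℂ) * inner ℂ (q l) g := by
    intro l
    have h1 := ak_of_series s hs c hcs f hf l
    have h2 := ((hS g).mapL (innerSL ℂ (q l))).mul_left (μ⁻¹ * (nk s l : ℂ))
    have h3 : ak s (ext (f : C(Disc, ℂ))) l = μ⁻¹ * (nk s l : ℂ) * inner ℂ (q l) (S g) := by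
      refine h1.unique (h2.congr_fun ?_)
      intro k
      have hk : (nk s k : ℂ) ≠ 0 := by
        exact_mod_cast (nk_pos s (by linarith) k).ne'
      simp only [innerSL_apply_apply]
      rw [inner_smul_right, inner_smul_right, hq l k, hc]
      simp only [Lam]
      push_cast
      field_simp
    rw [h3, hSg, inner_smul_right]
    field_simp
  have hf0 : f ≠ 0 := by
    intro h0
    have h1 : ∀ l, inner ℂ (q l) g = 0 := by
      intro l
      have h2 := hak l
      have h3 : ak s (ext (f : C(Disc, ℂ))) l = 0 := by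
        have h4 := ak_smul s 0 f l
        rw [h0] at h4 ⊢
        simpa using h4
      rw [h3] at h2
      have hk : (nk s l : ℂ) ≠ 0 := by
        exact_mod_cast (nk_pos s (by linarith) l).ne'
      exact (mul_eq_zero.1 h2.symm).resolve_left hk
    have h5 := hS g
    simp only [h1, zero_smul, smul_zero] at h5
    have h6 := h5.unique hasSum_zero
    rw [hSg] at h6
    exact (smul_ne_zero hμ hg0) h6
  have hGf : G s hs f = μ • f := by
    apply Subtype.ext
    ext z
    rw [G_apply]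
    have h1 := Gval_hasSum s hs f z z.2
    rw [← h1.tsum_eq]
    change _ = μ * (f : C(Disc, ℂ)) z
    rw [hf z, ← tsum_mul_left]
    refine tsum_congr fun k => ?_
    rw [hak k, hc]
    simp only []
    field_simp
  exact hasEigenvalue_of_hasEigenvector (x := f) (hasEigenvector_iff.2 ⟨mem_eigenspace_iff.2 hGf, hf0⟩)

end model

theorem spectrum_main (s : ℝ) (hs : 1 < s) :
    ∃ lam : ℕ → ℝ, (∀ j, |lam (j + 1)| < |lam j|) ∧ (∀ j, 0 < (-1 : ℝ) ^ j * lam j) ∧
      (∀ j, HasEigenvalue (G s hs) (lam j : ℂ)) ∧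
      (∀ j, finrank ℂ (maxGenEigenspace (G s hs) (lam j : ℂ)) = 1) ∧
      (∀ μ : ℂ, μ ≠ 0 → HasEigenvalue (G s hs) μ → ∃ j, μ = (lam j : ℂ)) := by
  obtain ⟨H, i1, i2, i3, q, d, hq, hqd⟩ := exists_model s hs
  have hth := th_pos
  have hr : 0 < th ^ 2 := by positivity
  have hr1 : th ^ 2 < 1 := by have := th_sq_lt; linarith
  have hL0 : 0 < th ^ s := Real.rpow_pos_of_pos hth s
  obtain ⟨S, hSc, hSs, hS⟩ := exists_S q _ (q_norm_le s hs q hq) (th ^ s) (th ^ 2) hr hr1
  obtain ⟨T, hTn, hT⟩ := exists_shift q (√(5 / 2)) (Real.sqrt_nonneg _) (shift_norm s hs q hq)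
  have hT' : th ^ 2 * ‖T‖ ^ 2 < 1 := by
    have h1 : ‖T‖ ^ 2 ≤ 5 / 2 := by
      have := pow_le_pow_left₀ (norm_nonneg T) hTn 2
      rwa [Real.sq_sqrt (by norm_num)] at this
    have h2 : th ^ 2 < 2 / 5 := by
      rw [rm_th_sq]
      have := rm_th_lo
      linarith
    calc th ^ 2 * ‖T‖ ^ 2 ≤ th ^ 2 * (5 / 2) := mul_le_mul_of_nonneg_left h1 hr.le
      _ < 1 := by linarith
  have hST := S_shift q (th ^ s) (th ^ 2) S T hS hT
  have hA : ∀ m : ℝ, 0 < m → finrank ℂ (Eposc (-S) m) ≤ finrank ℂ (Epos S m) := fun m hm =>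
    claimA S T hSc hSs (q 0) (th ^ s) (th ^ 2) hL0.le hr hT' hST m hm
  have hB : ∀ m : ℝ, 0 < m → finrank ℂ (Eposc S m) ≤ finrank ℂ (Epos (-S) m) + 1 := fun m hm =>
    claimB S T hSc hSs (q 0) (th ^ s) (th ^ 2) hL0.le hr hT' hST m hm
  have hinf := S_range q d hqd (th ^ s) (th ^ 2) hL0 hr S hS
  obtain ⟨lam, h1, h2, h3, h4⟩ := interlace_of_claims S hSc hSs hA hB hinf
  have hPhiG := Phi_G s hs q hq S hS
  have hinj := Phi_injective s hs q d hq hqd
  have hlam0 : ∀ j, lam j ≠ 0 := by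
    intro j h0
    have := h2 j
    rw [h0] at this
    simp at this
  have hevS : ∀ j, HasEigenvalue (S : End ℂ H) (lam j : ℂ) := by
    intro j
    rw [hasEigenvalue_iff]
    intro hbot
    have := h3 j
    rw [hbot] at this
    simp at this
  have hevG : ∀ j, HasEigenvalue (G s hs) (lam j : ℂ) := fun j =>
    exists_eigenfunction s hs q hq S hS _ (by exact_mod_cast hlam0 j) (hevS j)
  refine ⟨lam, h1, h2, hevG, ?_, ?_⟩
  · intro j
    have hfinj : finrank ℂ (eigenspace (S : End ℂ H) (lam j : ℂ)) = 1 := h3 j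
    have hfd : FiniteDimensional ℂ (eigenspace (S : End ℂ H) (lam j : ℂ)) :=
      FiniteDimensional.of_finrank_pos (by rw [hfinj]; norm_num)
    -- Phi maps generalised eigenvectors to eigenvectors
    have hgen : ∀ f ∈ maxGenEigenspace (G s hs) (lam j : ℂ),
        Phi s hs q hq f ∈ eigenspace (S : End ℂ H) (lam j : ℂ) := by
      intro f hf
      have hfs := hSs.isFinitelySemisimple.maxGenEigenspace_eq_eigenspace (lam j : ℂ)
      rw [← hfs]
      rw [mem_maxGenEigenspace] at hf ⊢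
      obtain ⟨k, hk⟩ := hf
      refine ⟨k, ?_⟩
      have hcomm : ∀ (n : ℕ) (g : X), (((S : End ℂ H) - (lam j : ℂ) • (1 : End ℂ H)) ^ n) (Phi s hs q hq g)
          = Phi s hs q hq (((G s hs - (lam j : ℂ) • (1 : End ℂ X)) ^ n) g) := by
        intro n
        induction n with
        | zero => intro g; simp
        | succ n ih =>
          intro g
          rw [pow_succ, pow_succ, Module.End.mul_apply, Module.End.mul_apply, ← ih]
          congr 1
          simp only [LinearMap.sub_apply, LinearMap.smul_apply, Module.End.one_apply, map_sub,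
            map_smul, hPhiG]
          rfl
      rw [hcomm, hk, map_zero]
    let Ψ : maxGenEigenspace (G s hs) (lam j : ℂ) →ₗ[ℂ] eigenspace (S : End ℂ H) (lam j : ℂ) :=
      (Phi s hs q hq).restrict hgen
    have hΨ : Function.Injective Ψ := by
      intro a b hab
      apply Subtype.ext
      apply hinj
      have := congrArg Subtype.val hab
      simpa [Ψ] using this
    have hle := LinearMap.finrank_le_finrank_of_injective hΨ
    rw [hfinj] at hle
    have hfdG : FiniteDimensional ℂ (maxGenEigenspace (G s hs) (lam j : ℂ)) :=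
      FiniteDimensional.of_injective Ψ hΨ
    have hpos : 0 < finrank ℂ (maxGenEigenspace (G s hs) (lam j : ℂ)) := by
      obtain ⟨f, hf⟩ := (hevG j).exists_hasEigenvector
      suffices hnt : Nontrivial (maxGenEigenspace (G s hs) (lam j : ℂ)) from
        Module.finrank_pos (R := ℂ) (M := maxGenEigenspace (G s hs) (lam j : ℂ))
      refine ⟨⟨f, ?_⟩, 0, ?_⟩
      · rw [mem_maxGenEigenspace]
        refine ⟨1, ?_⟩
        rw [pow_one, LinearMap.sub_apply, LinearMap.smul_apply, Module.End.one_apply,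
          hf.apply_eq_smul, sub_self]
      · intro h0
        exact hf.2 (congrArg Subtype.val h0)
    omega
  · intro μ hμ hev
    obtain ⟨f, hf⟩ := hev.exists_hasEigenvector
    apply h4 μ hμ
    refine hasEigenvalue_of_hasEigenvector (x := Phi s hs q hq f) ?_
    rw [hasEigenvector_iff]
    refine ⟨?_, ?_⟩
    · rw [mem_eigenspace_iff]
      change S (Phi s hs q hq f) = _
      rw [← hPhiG, hf.apply_eq_smul, map_smul]
    · intro h0
      rw [← map_zero (Phi s hs q hq)] at h0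
      exact hf.2 (hinj h0)

end Pool.Agent.Helper242.RM
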