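import Pool.Agent.Helper242.RM.Fin1

set_option autoImplicit false

namespace Pool.Agent.Helper242.RM

open Module Module.End

/-- Any listing by nonincreasing modulus, with multiplicities, of a set whose elements have
multiplicity one and distinct moduli is the listing by decreasing modulus. -/
theorem list_eq (E : Set ℂ) (mult : ℂ → ℕ) (lam0 : ℕ → ℝ) (h1 : ∀ j, |lam0 (j + 1)| < |lam0 j|)
    (h2 : ∀ j, (lam0 j : ℂ) ≠ 0)
    (h3 : ∀ j, (lam0 j : ℂ) ∈ E) (h4 : ∀ j, mult (lam0 j : ℂ) = 1)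
    (h5 : ∀ μ : ℂ, μ ≠ 0 → μ ∈ E → ∃ j, μ = (lam0 j : ℂ)) (lam : ℕ+ → ℂ)
    (a : ∀ j, lam j ≠ 0) (a' : ∀ j, lam j ∈ E)
    (b : ∀ μ : ℂ, μ ≠ 0 → μ ∈ E → {j | lam j = μ}.ncard = mult μ)
    (c : ∀ i j, i ≤ j → ‖lam j‖ ≤ ‖lam i‖) (j : ℕ) : lam (Nat.succPNat j) = (lam0 j : ℂ) := by
  choose σ hσ using fun j => h5 (lam j) (a j) (a' j)
  have hanti : StrictAnti (fun j => |lam0 j|) := strictAnti_nat_of_succ_lt h1
  have hinj0 : Function.Injective lam0 := by
    intro i k hik
    apply hanti.injective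
    simp only [hik]
  have hone : ∀ n, ∃ j, {j | lam j = (lam0 n : ℂ)} = {j} := fun n =>
    Set.ncard_eq_one.1 ((b _ (h2 n) (h3 n)).trans (h4 n))
  have hσinj : Function.Injective σ := by
    intro i k hik
    obtain ⟨m, hm⟩ := hone (σ i)
    have hi : i ∈ {j | lam j = (lam0 (σ i) : ℂ)} := hσ i
    have hk : k ∈ {j | lam j = (lam0 (σ i) : ℂ)} := by
      have := hσ k
      rw [← hik] at this
      exact this
    rw [hm, Set.mem_singleton_iff] at hi hk
    rw [hi, hk]
  have hσsurj : Function.Surjective σ := by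
    intro n
    obtain ⟨m, hm⟩ := hone n
    have h6 : m ∈ {j | lam j = (lam0 n : ℂ)} := by rw [hm]; rfl
    refine ⟨m, ?_⟩
    have h7 : lam m = (lam0 n : ℂ) := h6
    rw [hσ m] at h7
    exact hinj0 (by exact_mod_cast h7)
  have hσmono : Monotone σ := by
    intro i k hik
    have h6 := c i k hik
    rw [hσ i, hσ k, Complex.norm_real, Complex.norm_real, Real.norm_eq_abs, Real.norm_eq_abs] at h6
    exact hanti.le_iff_ge.1 h6
  have hf : StrictMono (fun n : ℕ => σ (Nat.succPNat n)) := by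
    intro m n hmn
    exact (hσmono.strictMono_of_injective hσinj) (Nat.succPNat_lt_succPNat.2 hmn)
  have hs : Function.Surjective (fun n : ℕ => σ (Nat.succPNat n)) := by
    intro n
    obtain ⟨m, hm⟩ := hσsurj n
    refine ⟨m.natPred, ?_⟩
    simp only [PNat.succPNat_natPred, hm]
  have hid : hf.orderIsoOfSurjective _ hs = OrderIso.refl ℕ := Subsingleton.elim _ _
  have hj : σ (Nat.succPNat j) = j := by
    have := congrArg (fun e : ℕ ≃o ℕ => e j) hid
    simpa using this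
  rw [hσ, hj]

/-- `lam 1, lam 2, …` lists the nonzero eigenvalues of `G_s`, each repeated according to its
algebraic multiplicity, by nonincreasing modulus. -/
structure IsEigenvalueList (s : ℝ) (hs : 1 < s) (lam : ℕ+ → ℂ) : Prop where
  ne_zero : ∀ j, lam j ≠ 0
  hasEigenvalue : ∀ j, HasEigenvalue (G s hs) (lam j)
  finite : ∀ μ : ℂ, μ ≠ 0 → {j | lam j = μ}.Finite
  card : ∀ μ : ℂ, μ ≠ 0 → HasEigenvalue (G s hs) μ →
    {j | lam j = μ}.ncard = finrank ℂ (maxGenEigenspace (G s hs) μ)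
  antitone : ∀ i j, i ≤ j → ‖lam j‖ ≤ ‖lam i‖

theorem exists_list (s : ℝ) (hs : 1 < s) : ∃ lam : ℕ+ → ℂ, IsEigenvalueList s hs lam := by
  obtain ⟨lam0, h1, h2, h3, h4, h5⟩ := spectrum_main s hs
  have h0 : ∀ j, (lam0 j : ℂ) ≠ 0 := by
    intro j h0
    have h0' : lam0 j = 0 := by exact_mod_cast h0
    have := h2 j
    rw [h0'] at this
    simp at this
  have hanti : StrictAnti (fun j => |lam0 j|) := strictAnti_nat_of_succ_lt h1
  have hinj0 : Function.Injective lam0 := by
    intro i k hik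
    apply hanti.injective
    simp only [hik]
  have hinj : Function.Injective (fun j : ℕ+ => (lam0 j.natPred : ℂ)) := by
    intro i k hik
    have hik' : (lam0 i.natPred : ℂ) = (lam0 k.natPred : ℂ) := hik
    have : lam0 i.natPred = lam0 k.natPred := by exact_mod_cast hik'
    exact PNat.natPred_injective (hinj0 this)
  refine ⟨fun j => (lam0 j.natPred : ℂ), fun j => h0 _, fun j => h3 _, ?_, ?_, ?_⟩
  · intro μ _
    apply Set.Subsingleton.finite
    intro i hi k hk
    exact hinj (hi.trans hk.symm)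
  · intro μ hμ hev
    obtain ⟨j, hj⟩ := h5 μ hμ hev
    rw [hj, h4 j, Set.ncard_eq_one]
    refine ⟨Nat.succPNat j, ?_⟩
    ext i
    simp only [Set.mem_ofPred_eq, Set.mem_singleton_iff]
    constructor
    · intro h
      apply hinj
      simp only [h, Nat.natPred_succPNat]
    · rintro rfl
      simp only [Nat.natPred_succPNat]
  · intro i j hij
    rw [Complex.norm_real, Complex.norm_real]
    exact hanti.antitone (PNat.natPred_le_natPred.2 hij)

theorem list_sign (s : ℝ) (hs : 1 < s) (lam : ℕ+ → ℂ) (h : IsEigenvalueList s hs lam) (j : ℕ+) :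
    ∃ x : ℝ, lam j = (x : ℂ) ∧ 0 < (-1 : ℝ) ^ ((j : ℕ) + 1) * x := by
  obtain ⟨lam0, h1, h2, h3, h4, h5⟩ := spectrum_main s hs
  have h0 : ∀ j, (lam0 j : ℂ) ≠ 0 := by
    intro j h0
    have h0' : lam0 j = 0 := by exact_mod_cast h0
    have := h2 j
    rw [h0'] at this
    simp at this
  have key := list_eq {μ | HasEigenvalue (G s hs) μ}
    (fun μ => finrank ℂ (maxGenEigenspace (G s hs) μ)) lam0 h1 h0 h3 h4 h5 lam h.ne_zero
    h.hasEigenvalue h.card h.antitone j.natPred
  rw [PNat.succPNat_natPred] at key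
  refine ⟨lam0 j.natPred, key, ?_⟩
  have e : (j : ℕ) + 1 = j.natPred + 2 := by
    have := j.natPred_add_one
    omega
  rw [e, pow_add]
  simpa using h2 j.natPred

/-- an eigenvalue is unique -/
def IsUniqueEigenvalue (s : ℝ) (hs : 1 < s) (μ : ℂ) : Prop :=
  finrank ℂ (maxGenEigenspace (G s hs) μ) = 1 ∧
    ∀ ν : ℂ, HasEigenvalue (G s hs) ν → ‖ν‖ = ‖μ‖ → ν = μ

theorem list_isUnique (s : ℝ) (hs : 1 < s) (lam : ℕ+ → ℂ) (h : IsEigenvalueList s hs lam)
    (j : ℕ+) : IsUniqueEigenvalue s hs (lam j) := by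
  obtain ⟨lam0, h1, h2, h3, h4, h5⟩ := spectrum_main s hs
  have h0 : ∀ j, (lam0 j : ℂ) ≠ 0 := by
    intro j h0
    have h0' : lam0 j = 0 := by exact_mod_cast h0
    have := h2 j
    rw [h0'] at this
    simp at this
  have hanti : StrictAnti (fun j => |lam0 j|) := strictAnti_nat_of_succ_lt h1
  have key := list_eq {μ | HasEigenvalue (G s hs) μ}
    (fun μ => finrank ℂ (maxGenEigenspace (G s hs) μ)) lam0 h1 h0 h3 h4 h5 lam h.ne_zero
    h.hasEigenvalue h.card h.antitone j.natPred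
  rw [PNat.succPNat_natPred] at key
  rw [key]
  refine ⟨h4 _, ?_⟩
  intro ν hν hn
  have hν0 : ν ≠ 0 := by
    rintro rfl
    rw [norm_zero] at hn
    exact h0 _ (norm_eq_zero.1 hn.symm)
  obtain ⟨k, hk⟩ := h5 ν hν0 hν
  rw [hk] at hn ⊢
  rw [Complex.norm_real, Complex.norm_real, Real.norm_eq_abs, Real.norm_eq_abs] at hn
  rw [hanti.injective hn]

end Pool.Agent.Helper242.RM
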