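import Pool.Agent.Helper242.RM.Defs

set_option autoImplicit false

namespace Pool.Agent.Helper242.RM

open MeasureTheory Set Filter Topology

theorem LG_int (s : ℝ) (hs : 0 < s) (n : ℕ) :
    IntegrableOn (fun x : ℝ => x ^ (s - 1) * Real.exp (-x) * x ^ n) (Ioi 0) := by
  have h := Real.GammaIntegral_convergent (s := s + n) (by positivity)
  refine h.congr_fun (fun x hx => ?_) measurableSet_Ioi
  have hx' : (0 : ℝ) < x := hx
  show Real.exp (-x) * x ^ (s + n - 1) = x ^ (s - 1) * Real.exp (-x) * x ^ n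
  rw [show s + (n : ℝ) - 1 = (s - 1) + n by ring, Real.rpow_add_natCast hx'.ne']
  ring

theorem LG_val (s : ℝ) (hs : 0 < s) (n : ℕ) :
    ∫ x in Ioi (0 : ℝ), x ^ (s - 1) * Real.exp (-x) * x ^ n = Real.Gamma (s + n) := by
  rw [Real.Gamma_eq_integral (show (0 : ℝ) < s + n by positivity)]
  refine setIntegral_congr_fun measurableSet_Ioi (fun x hx => ?_)
  have hx' : (0 : ℝ) < x := hx
  show x ^ (s - 1) * Real.exp (-x) * x ^ n = Real.exp (-x) * x ^ (s + n - 1)
  rw [show s + (n : ℝ) - 1 = (s - 1) + n by ring, Real.rpow_add_natCast hx'.ne']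
  ring

/-- coefficient -/
noncomputable def LGc (s : ℝ) (k i : ℕ) : ℝ :=
  (-1) ^ i * (Real.Gamma (k + s) / (Real.Gamma (i + s) * (k - i).factorial * i.factorial))

theorem LG_expand (s : ℝ) (j k : ℕ) (x : ℝ) :
    x ^ (s - 1) * Real.exp (-x) * (Lag s j x * Lag s k x) =
      ∑ i ∈ Finset.range (j + 1), ∑ l ∈ Finset.range (k + 1), (LGc s j i * LGc s k l) *
        (x ^ (s - 1) * Real.exp (-x) * x ^ (i + l)) := by
  unfold Lag
  rw [Finset.sum_mul_sum, Finset.mul_sum]
  refine Finset.sum_congr rfl fun i _ => ?_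
  rw [Finset.mul_sum]
  refine Finset.sum_congr rfl fun l _ => ?_
  unfold LGc
  rw [pow_add]
  ring

theorem LG_poch (y : ℝ) (hy : 0 < y) (m : ℕ) :
    Real.Gamma (y + m) = (ascPochhammer ℝ m).eval y * Real.Gamma y := by
  induction m with
  | zero => simp
  | succ m ih =>
    rw [ascPochhammer_succ_eval]
    push_cast
    rw [show y + ((m : ℝ) + 1) = (y + m) + 1 by ring,
      Real.Gamma_add_one (by positivity : (y + (m : ℝ)) ≠ 0), ih]
    ring

theorem LG_alt (s : ℝ) (k m : ℕ) (hm : m ≤ k) :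
    ∑ l ∈ Finset.range (k + 1), (-1 : ℝ) ^ l * (k.choose l : ℝ) * (ascPochhammer ℝ m).eval (s + l) =
      if m = k then (-1) ^ k * (k.factorial : ℝ) else 0 := by
  have h := fwdDiff_iter_eq_sum_shift (1 : ℝ) (ascPochhammer ℝ m).eval k s
  have h2 : ∑ l ∈ Finset.range (k + 1), (-1 : ℝ) ^ l * (k.choose l : ℝ) *
      (ascPochhammer ℝ m).eval (s + l) = (-1) ^ k *
      ∑ l ∈ Finset.range (k + 1), ((-1 : ℤ) ^ (k - l) * (k.choose l : ℤ)) •
        (ascPochhammer ℝ m).eval (s + l • (1 : ℝ)) := by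
    rw [Finset.mul_sum]
    refine Finset.sum_congr rfl fun l hl => ?_
    rw [Finset.mem_range] at hl
    have e1 : ((-1 : ℝ)) ^ k * (-1) ^ (k - l) = (-1) ^ l := by
      rw [← pow_add]
      have : k + (k - l) = l + 2 * (k - l) := by omega
      rw [this, pow_add, pow_mul]
      simp
    rw [zsmul_eq_mul, nsmul_eq_mul, mul_one]
    push_cast
    rw [← e1]
    ring
  rw [h2, ← h]
  by_cases hk : m = k
  · rw [if_pos hk]
    subst hk
    have h3 := Polynomial.fwdDiff_iter_degree_eq_factorial (ascPochhammer ℝ m)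
    rw [ascPochhammer_natDegree] at h3
    rw [h3, (monic_ascPochhammer ℝ m).leadingCoeff]
    simp
  · rw [if_neg hk]
    have h3 := Polynomial.fwdDiff_iter_eq_zero_of_degree_lt (P := ascPochhammer ℝ m) (n := k)
      (by rw [ascPochhammer_natDegree]; omega)
    rw [h3]
    simp

theorem LG_sum (s : ℝ) (hs : 0 < s) (k m : ℕ) (hm : m ≤ k) :
    ∑ l ∈ Finset.range (k + 1), LGc s k l * Real.Gamma (s + (m + l : ℕ)) =
      if m = k then (-1) ^ k * Real.Gamma (k + s) else 0 := by
  have h1 : ∀ l ∈ Finset.range (k + 1), LGc s k l * Real.Gamma (s + (m + l : ℕ)) =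
      Real.Gamma (k + s) / k.factorial *
        ((-1 : ℝ) ^ l * (k.choose l : ℝ) * (ascPochhammer ℝ m).eval (s + l)) := by
    intro l hl
    rw [Finset.mem_range] at hl
    have hg : Real.Gamma (l + s) ≠ 0 := (Real.Gamma_pos_of_pos (by positivity)).ne'
    have e : s + ((m + l : ℕ) : ℝ) = (s + l) + m := by push_cast; ring
    rw [e, LG_poch (s + l) (by positivity) m]
    unfold LGc
    have e2 : (k.choose l : ℝ) = k.factorial / ((l.factorial : ℝ) * (k - l).factorial) :=
      Nat.cast_choose ℝ (by omega)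
    rw [e2, show (s + (l : ℝ)) = l + s by ring]
    have f1 : ((l.factorial : ℝ)) ≠ 0 := by positivity
    have f2 : (((k - l).factorial : ℝ)) ≠ 0 := by positivity
    have f3 : ((k.factorial : ℝ)) ≠ 0 := by positivity
    field_simp
  rw [Finset.sum_congr rfl h1, ← Finset.mul_sum, LG_alt s k m hm]
  by_cases hk : m = k
  · rw [if_pos hk, if_pos hk]
    have f3 : ((k.factorial : ℝ)) ≠ 0 := by positivity
    field_simp
  · rw [if_neg hk, if_neg hk, mul_zero]

theorem Lag_orth_integrable (s : ℝ) (hs : 0 < s) (j k : ℕ) :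
    IntegrableOn (fun x : ℝ => x ^ (s - 1) * Real.exp (-x) * (Lag s j x * Lag s k x)) (Ioi 0) := by
  simp_rw [LG_expand]
  refine integrable_finset_sum _ fun i _ => integrable_finset_sum _ fun l _ => ?_
  exact (LG_int s hs (i + l)).const_mul _

theorem LG_main (s : ℝ) (hs : 0 < s) (j k : ℕ) (hjk : j ≤ k) :
    ∫ x in Ioi (0 : ℝ), x ^ (s - 1) * Real.exp (-x) * (Lag s j x * Lag s k x)
      = if j = k then Real.Gamma (k + s) / k.factorial else 0 := by
  simp_rw [LG_expand]
  rw [integral_finset_sum _ (fun i _ => integrable_finset_sum _ fun l _ =>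
    (LG_int s hs (i + l)).const_mul _)]
  have h1 : ∀ i ∈ Finset.range (j + 1), ∫ x in Ioi (0 : ℝ), ∑ l ∈ Finset.range (k + 1),
      (LGc s j i * LGc s k l) * (x ^ (s - 1) * Real.exp (-x) * x ^ (i + l)) =
      LGc s j i * (if i = k then (-1) ^ k * Real.Gamma (k + s) else 0) := by
    intro i hi
    rw [Finset.mem_range] at hi
    rw [integral_finset_sum _ (fun l _ => (LG_int s hs (i + l)).const_mul _),
      ← LG_sum s hs k i (by omega), Finset.mul_sum]
    refine Finset.sum_congr rfl fun l _ => ?_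
    rw [integral_const_mul, LG_val s hs, mul_assoc]
  rw [Finset.sum_congr rfl h1]
  by_cases hk : j = k
  · subst hk
    rw [if_pos rfl, Finset.sum_eq_single j]
    · rw [if_pos rfl]
      unfold LGc
      have hg : Real.Gamma (j + s) ≠ 0 := (Real.Gamma_pos_of_pos (by positivity)).ne'
      have f3 : ((j.factorial : ℝ)) ≠ 0 := by positivity
      have e : ((-1 : ℝ)) ^ j * (-1) ^ j = 1 := by rw [← mul_pow]; simp
      rw [Nat.sub_self, Nat.factorial_zero, Nat.cast_one, mul_one]
      calc (-1 : ℝ) ^ j * (Real.Gamma (j + s) / (Real.Gamma (j + s) * j.factorial)) *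
            ((-1) ^ j * Real.Gamma (j + s))
          = ((-1 : ℝ) ^ j * (-1) ^ j) * (Real.Gamma (j + s) /
            (Real.Gamma (j + s) * j.factorial) * Real.Gamma (j + s)) := by ring
        _ = Real.Gamma (j + s) / j.factorial := by
            rw [e, one_mul]
            field_simp
    · intro b _ hb
      rw [if_neg hb, mul_zero]
    · intro h
      exact absurd (Finset.mem_range.mpr (by omega)) h
  · rw [if_neg hk]
    refine Finset.sum_eq_zero fun i hi => ?_
    rw [Finset.mem_range] at hi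
    rw [if_neg (by omega), mul_zero]

theorem Lag_orth (s : ℝ) (hs : 0 < s) (j k : ℕ) :
    ∫ x in Ioi (0 : ℝ), x ^ (s - 1) * Real.exp (-x) * (Lag s j x * Lag s k x)
      = if j = k then Real.Gamma (k + s) / k.factorial else 0 := by
  rcases le_total j k with h | h
  · exact LG_main s hs j k h
  · have h1 := LG_main s hs k j h
    have h2 : ∀ x : ℝ, x ^ (s - 1) * Real.exp (-x) * (Lag s j x * Lag s k x) =
        x ^ (s - 1) * Real.exp (-x) * (Lag s k x * Lag s j x) := fun x => by ring
    simp_rw [h2]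
    rw [h1]
    by_cases hk : j = k
    · subst hk; rfl
    · rw [if_neg hk, if_neg (Ne.symm hk)]

end Pool.Agent.Helper242.RM
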