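import Pool.Agent.Helper242.RM.Defs

set_option autoImplicit false

namespace Pool.Agent.Helper242.RM

open MeasureTheory Set Filter Topology

lemma mc_real (a : ℝ) (ha : 0 < a) (n : ℕ) :
    Ring.choose (a + n - 1) n = Real.Gamma (n + a) / (Real.Gamma a * n.factorial) := by
  have hG : Real.Gamma a ≠ 0 := (Real.Gamma_pos_of_pos ha).ne'
  have hmc : ∀ n : ℕ, (n.factorial : ℝ) * Ring.multichoose a n = Real.Gamma (n + a) / Real.Gamma a := by
    intro n
    have h := Ring.factorial_nsmul_multichoose_eq_ascPochhammer a n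
    rw [nsmul_eq_mul] at h
    rw [h]
    induction n with
    | zero => simp [hG]
    | succ n ih =>
      have h' := Ring.factorial_nsmul_multichoose_eq_ascPochhammer a n
      rw [nsmul_eq_mul] at h'
      have ih' := ih h'
      rw [ascPochhammer_succ_right, Polynomial.smeval_mul, ih']
      have e : Real.Gamma (((n + 1 : ℕ) : ℝ) + a) = (n + a) * Real.Gamma (n + a) := by
        have : ((n + 1 : ℕ) : ℝ) + a = (n + a) + 1 := by push_cast; ring
        rw [this, Real.Gamma_add_one (by positivity)]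
      rw [e]
      simp [Polynomial.smeval_add, Polynomial.smeval_X, Polynomial.smeval_natCast]
      ring
  have h1 : Ring.choose (a + n - 1) n = Ring.multichoose a n := by
    rw [Ring.choose]
    congr 1; ring
  rw [h1]
  have := hmc n
  have hn : (n.factorial : ℝ) ≠ 0 := by positivity
  field_simp
  field_simp at this
  linarith

lemma binom_c (a : ℝ) (ha : 0 < a) (u : ℂ) (hu : ‖u‖ < 1) :
    HasSum (fun m : ℕ => ((Real.Gamma (m + a) / (Real.Gamma a * m.factorial) : ℝ) : ℂ) * u ^ m)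
      (1 / (1 - u) ^ (a : ℂ)) := by
  have h := Complex.one_div_one_sub_cpow_hasFPowerSeriesOnBall_zero (a : ℂ)
  have hu' : ‖u‖₊ < 1 := by exact_mod_cast hu
  have h2 := h.hasSum_sub (y := u) (by simpa [enorm_eq_nnnorm] using hu')
  simp only [sub_zero] at h2
  have e : (fun m : ℕ => ((Real.Gamma (m + a) / (Real.Gamma a * m.factorial) : ℝ) : ℂ) * u ^ m)
      = fun n : ℕ => (FormalMultilinearSeries.ofScalars ℂ
        (fun n : ℕ => Ring.choose ((a : ℂ) + n - 1) n) n) fun _ => u := by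
    funext m
    rw [← mc_real a ha m]
    simp [FormalMultilinearSeries.ofScalars, Complex.ofReal_choose]
  rw [e]
  exact h2

lemma binom_r (a : ℝ) (ha : 0 < a) (u : ℝ) (hu0 : 0 ≤ u) (hu : u < 1) :
    HasSum (fun m : ℕ => (Real.Gamma (m + a) / (Real.Gamma a * m.factorial)) * u ^ m)
      ((1 - u) ^ (-a)) := by
  have h := binom_c a ha (u : ℂ) (by simpa [abs_of_nonneg hu0] using hu)
  have e : (1 / (1 - (u:ℂ)) ^ (a : ℂ)) = (((1 - u) ^ (-a) : ℝ) : ℂ) := by
    rw [Real.rpow_neg (by linarith), Complex.ofReal_inv, Complex.ofReal_cpow (by linarith)]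
    simp
  rw [e] at h
  rw [← Complex.hasSum_ofReal]
  have e2 : (fun m : ℕ => (((Real.Gamma (m + a) / (Real.Gamma a * m.factorial)) * u ^ m : ℝ) : ℂ))
      = fun m : ℕ => ((Real.Gamma (m + a) / (Real.Gamma a * m.factorial) : ℝ) : ℂ) * (u : ℂ) ^ m := by
    funext m
    push_cast; rfl
  rw [e2]
  exact h

lemma antidiag_hasSum {E : Type*} [NormedAddCommGroup E] (F : ℕ × ℕ → E) (S : E) (h : HasSum F S) :
    HasSum (fun l : ℕ => ∑ i ∈ Finset.range (l + 1), F (i, l - i)) S := by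
  have h2 := (Finset.HasAntidiagonal.sigmaAntidiagonalEquivProd (A := ℕ)).hasSum_iff.mpr h
  have h3 := h2.sigma (g := fun l : ℕ => ∑ i ∈ Finset.range (l + 1), F (i, l - i)) (fun l => by
    rw [← Finset.Nat.sum_antidiagonal_eq_sum_range_succ_mk]
    have := hasSum_fintype (fun c : Finset.HasAntidiagonal.antidiagonal l => F (c : ℕ × ℕ))
    rw [Finset.sum_coe_sort (Finset.HasAntidiagonal.antidiagonal l) (fun c => F c)] at this
    exact this)
  exact h3

noncomputable def co (s t : ℝ) (i m : ℕ) : ℝ :=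
  Real.Gamma (m + (i + s)) / (Real.Gamma (i + s) * m.factorial) * (t ^ i / i.factorial)

lemma co_nonneg (s t : ℝ) (hs : 0 < s) (ht : 0 ≤ t) (i m : ℕ) : 0 ≤ co s t i m := by
  have h1 : 0 < Real.Gamma (m + (i + s)) := Real.Gamma_pos_of_pos (by positivity)
  have h2 : 0 < Real.Gamma (i + s) := Real.Gamma_pos_of_pos (by positivity)
  unfold co; positivity

lemma G_inner (s t ρ : ℝ) (hs : 0 < s) (hρ : 0 ≤ ρ) (hρ1 : ρ < 1) (i : ℕ) :
    HasSum (fun m : ℕ => co s t i m * ρ ^ (i + m)) ((t * ρ / (1 - ρ)) ^ i / i.factorial * (1 - ρ) ^ (-s)) := by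
  have h := (binom_r (i + s) (by positivity) ρ hρ hρ1).mul_left (t ^ i / i.factorial * ρ ^ i)
  have h1 : 0 < 1 - ρ := by linarith
  have e1 : (t * ρ / (1 - ρ)) ^ i / i.factorial * (1 - ρ) ^ (-s)
      = t ^ i / i.factorial * ρ ^ i * (1 - ρ) ^ (-((i : ℝ) + s)) := by
    have : -((i : ℝ) + s) = -s - i := by ring
    rw [this, Real.rpow_sub h1, Real.rpow_natCast, div_pow, mul_pow]
    ring
  rw [e1]
  have e2 : (fun m : ℕ => co s t i m * ρ ^ (i + m)) = fun m : ℕ => t ^ i / i.factorial * ρ ^ i *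
      (Real.Gamma (m + (i + s)) / (Real.Gamma (i + s) * m.factorial) * ρ ^ m) := by
    funext m; unfold co; rw [pow_add]; ring
  rw [e2]; exact h

lemma G_hasSum (s t ρ : ℝ) (hs : 0 < s) (ht : 0 ≤ t) (hρ : 0 ≤ ρ) (hρ1 : ρ < 1) :
    HasSum (fun p : ℕ × ℕ => co s t p.1 p.2 * ρ ^ (p.1 + p.2))
      ((1 - ρ) ^ (-s) * Real.exp (t * ρ / (1 - ρ))) := by
  have hout : HasSum (fun i : ℕ => (t * ρ / (1 - ρ)) ^ i / i.factorial * (1 - ρ) ^ (-s))
      ((1 - ρ) ^ (-s) * Real.exp (t * ρ / (1 - ρ))) := by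
    have h := (NormedSpace.expSeries_div_hasSum_exp (t * ρ / (1 - ρ))).mul_right ((1 - ρ) ^ (-s))
    rw [← Real.exp_eq_exp_ℝ] at h
    rw [mul_comm ((1 - ρ) ^ (-s)) (Real.exp _)]
    exact h
  have hsum : Summable (fun p : ℕ × ℕ => co s t p.1 p.2 * ρ ^ (p.1 + p.2)) := by
    rw [summable_prod_of_nonneg]
    · refine ⟨fun i => (G_inner s t ρ hs hρ hρ1 i).summable, ?_⟩
      have : (fun i : ℕ => ∑' m : ℕ, co s t i m * ρ ^ (i + m))
          = fun i : ℕ => (t * ρ / (1 - ρ)) ^ i / i.factorial * (1 - ρ) ^ (-s) := by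
        funext i; exact (G_inner s t ρ hs hρ hρ1 i).tsum_eq
      show Summable (fun i : ℕ => ∑' m : ℕ, co s t i m * ρ ^ (i + m))
      rw [this]; exact hout.summable
    · intro p
      exact mul_nonneg (co_nonneg s t hs ht _ _) (pow_nonneg hρ _)
  have h1 := hsum.hasSum.prod_fiberwise (fun i => G_inner s t ρ hs hρ hρ1 i)
  have h2 := h1.unique hout
  rw [← h2]; exact hsum.hasSum

lemma F_inner (s t : ℝ) (hs : 0 < s) (u : ℂ) (hu : ‖u‖ < 1) (i : ℕ) :
    HasSum (fun m : ℕ => (-1 : ℂ) ^ i * (co s t i m : ℂ) * u ^ (i + m))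
      ((-(t * u / (1 - u))) ^ i / i.factorial * (1 - u) ^ (-(s : ℂ))) := by
  have h := (binom_c (i + s) (by positivity) u hu).mul_left ((-1) ^ i * (t : ℂ) ^ i / i.factorial * u ^ i)
  have h1 : (1 - u) ≠ 0 := by
    intro h0
    have : u = 1 := by linear_combination -h0
    rw [this] at hu; simp at hu
  have e1 : (-(t * u / (1 - u))) ^ i / i.factorial * (1 - u) ^ (-(s : ℂ))
      = (-1) ^ i * (t : ℂ) ^ i / i.factorial * u ^ i * (1 / (1 - u) ^ ((((i : ℝ) + s : ℝ)) : ℂ)) := by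
    have : (((i : ℝ) + s : ℝ) : ℂ) = (s : ℂ) + i := by push_cast; ring
    rw [this, Complex.cpow_add _ _ h1, Complex.cpow_natCast, Complex.cpow_neg, neg_pow, div_pow, mul_pow]
    have h2 : (1 - u) ^ (s : ℂ) ≠ 0 := by
      rw [Complex.cpow_def_of_ne_zero h1]; exact Complex.exp_ne_zero _
    have h3 : (i.factorial : ℂ) ≠ 0 := by exact_mod_cast i.factorial_ne_zero
    field_simp
  rw [e1]
  have e2 : (fun m : ℕ => (-1 : ℂ) ^ i * (co s t i m : ℂ) * u ^ (i + m)) = fun m : ℕ =>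
      (-1) ^ i * (t : ℂ) ^ i / i.factorial * u ^ i *
      (((Real.Gamma (m + (i + s)) / (Real.Gamma (i + s) * m.factorial) : ℝ) : ℂ) * u ^ m) := by
    funext m; unfold co; rw [pow_add]; push_cast; ring
  rw [e2]; exact h

lemma F_hasSum (s t : ℝ) (hs : 0 < s) (ht : 0 ≤ t) (u : ℂ) (hu : ‖u‖ < 1) :
    HasSum (fun p : ℕ × ℕ => (-1 : ℂ) ^ p.1 * (co s t p.1 p.2 : ℂ) * u ^ (p.1 + p.2))
      ((1 - u) ^ (-(s : ℂ)) * Complex.exp (-(t * u / (1 - u)))) := by
  have hout : HasSum (fun i : ℕ => (-(t * u / (1 - u))) ^ i / i.factorial * (1 - u) ^ (-(s : ℂ)))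
      ((1 - u) ^ (-(s : ℂ)) * Complex.exp (-(t * u / (1 - u)))) := by
    have h := (NormedSpace.expSeries_div_hasSum_exp (-(t * u / (1 - u)))).mul_right ((1 - u) ^ (-(s : ℂ)))
    rw [← Complex.exp_eq_exp_ℂ] at h
    rw [mul_comm ((1 - u) ^ (-(s : ℂ))) (Complex.exp _)]
    exact h
  have hsum : Summable (fun p : ℕ × ℕ => (-1 : ℂ) ^ p.1 * (co s t p.1 p.2 : ℂ) * u ^ (p.1 + p.2)) := by
    apply Summable.of_norm_bounded (G_hasSum s t ‖u‖ hs ht (norm_nonneg u) hu).summable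
    intro p
    rw [norm_mul, norm_mul, norm_pow, norm_pow, norm_neg, norm_one, one_pow, one_mul, Complex.norm_real,
      Real.norm_eq_abs, abs_of_nonneg (co_nonneg s t hs ht _ _)]
  have h1 := hsum.hasSum.prod_fiberwise (fun i => F_inner s t hs u hu i)
  have h2 := h1.unique hout
  rw [← h2]; exact hsum.hasSum

lemma Lag_eq (s t : ℝ) (l : ℕ) : Lag s l t = ∑ i ∈ Finset.range (l + 1), (-1) ^ i * co s t i (l - i) := by
  unfold Lag co
  refine Finset.sum_congr rfl fun i hi => ?_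
  rw [Finset.mem_range] at hi
  have hil : i ≤ l := by omega
  have e : (((l - i : ℕ) : ℝ) + (i + s)) = l + s := by
    rw [Nat.cast_sub hil]; ring
  rw [e]
  ring

theorem Lag_abs_le (s t : ℝ) (hs : 0 < s) (ht : 0 ≤ t) (ρ : ℝ) (hρ : 0 ≤ ρ) (l : ℕ) :
    |Lag s l t| * ρ ^ l ≤ ∑ i ∈ Finset.range (l + 1), co s t i (l - i) * ρ ^ (i + (l - i)) := by
  have h1 : |Lag s l t| ≤ ∑ i ∈ Finset.range (l + 1), co s t i (l - i) := by
    rw [Lag_eq]
    refine (Finset.abs_sum_le_sum_abs _ _).trans (Finset.sum_le_sum fun i _ => ?_)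
    rw [abs_mul, abs_neg_one_pow, one_mul, abs_of_nonneg (co_nonneg s t hs ht _ _)]
  calc |Lag s l t| * ρ ^ l ≤ (∑ i ∈ Finset.range (l + 1), co s t i (l - i)) * ρ ^ l := by gcongr
    _ = _ := by
        rw [Finset.sum_mul]
        refine Finset.sum_congr rfl fun i hi => ?_
        rw [Finset.mem_range] at hi
        rw [Nat.add_sub_cancel' (by omega : i ≤ l)]

theorem Lag_summable (s : ℝ) (hs : 0 < s) (t ρ : ℝ) (ht : 0 ≤ t) (hρ : 0 ≤ ρ) (hρ1 : ρ < 1) :
    Summable (fun l => |Lag s l t| * ρ ^ l) := by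
  have h := antidiag_hasSum _ _ (G_hasSum s t ρ hs ht hρ hρ1)
  exact Summable.of_nonneg_of_le (fun l => by positivity) (fun l => Lag_abs_le s t hs ht ρ hρ l) h.summable

theorem Lag_tsum_le (s : ℝ) (hs : 0 < s) (t ρ : ℝ) (ht : 0 ≤ t) (hρ : 0 ≤ ρ) (hρ1 : ρ < 1) :
    ∑' l, |Lag s l t| * ρ ^ l ≤ (1 - ρ) ^ (-s) * Real.exp (t * ρ / (1 - ρ)) := by
  have h := antidiag_hasSum _ _ (G_hasSum s t ρ hs ht hρ hρ1)
  rw [← h.tsum_eq]
  exact (Lag_summable s hs t ρ ht hρ hρ1).tsum_le_tsum (fun l => Lag_abs_le s t hs ht ρ hρ l) h.summable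

theorem Lag_genfun (s : ℝ) (hs : 0 < s) (t : ℝ) (ht : 0 ≤ t) (u : ℂ) (hu : ‖u‖ < 1) :
    HasSum (fun l => (Lag s l t : ℂ) * u ^ l)
      ((1 - u) ^ (-(s : ℂ)) * Complex.exp (-(t * u / (1 - u)))) := by
  have h := antidiag_hasSum _ _ (F_hasSum s t hs ht u hu)
  have e : (fun l => (Lag s l t : ℂ) * u ^ l) = fun l : ℕ => ∑ i ∈ Finset.range (l + 1),
      (-1 : ℂ) ^ i * (co s t i (l - i) : ℂ) * u ^ (i + (l - i)) := by
    funext l
    rw [Lag_eq]
    push_cast
    rw [Finset.sum_mul]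
    refine Finset.sum_congr rfl fun i hi => ?_
    rw [Finset.mem_range] at hi
    rw [Nat.add_sub_cancel' (by omega : i ≤ l)]
  rw [e]
  exact h

end Pool.Agent.Helper242.RM
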