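import Pool.Agent.Helper242.RM.L5a
import Pool.Agent.Helper242.RM.B1b

set_option autoImplicit false

namespace Pool.Agent.Helper242.RM

open MeasureTheory Set Filter Topology

theorem w0_nonneg_7538 (s x : ℝ) (hx : 0 < x) : 0 ≤ w0 s x :=
  mul_nonneg (Real.rpow_nonneg hx.le _) (Real.exp_pos _).le

theorem E_lt_7538 (x : ℝ) (hx : 0 < x) : 0 < 1 - Real.exp (-x) := by
  have : Real.exp (-x) < 1 := by
    rw [Real.exp_lt_one_iff]; linarith
  linarith

theorem wt_nonneg_7538 (s x : ℝ) (hx : 0 < x) : 0 ≤ wt s x :=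
  div_nonneg (w0_nonneg_7538 s x hx) (E_lt_7538 x hx).le

theorem wt_le (s x : ℝ) (hx : 0 < x) : wt s x ≤ w0 s x + w0 s x / x := by
  unfold wt
  have h0 := w0_nonneg_7538 s x hx
  have h1 := E_lt_7538 x hx
  have h2 : Real.exp (-x) * (1 + x) ≤ 1 := by
    have h3 : 1 + x ≤ Real.exp x := by linarith [Real.add_one_le_exp x]
    calc Real.exp (-x) * (1 + x) ≤ Real.exp (-x) * Real.exp x :=
          mul_le_mul_of_nonneg_left h3 (Real.exp_pos _).le
      _ = 1 := by rw [← Real.exp_add]; simp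
  rw [div_le_iff₀ h1]
  have h4 : (w0 s x + w0 s x / x) * (1 - Real.exp (-x)) =
      w0 s x * (((1 + x) * (1 - Real.exp (-x))) / x) := by
    field_simp
    ring
  rw [h4]
  have h5 : 1 ≤ ((1 + x) * (1 - Real.exp (-x))) / x := by
    rw [le_div_iff₀ hx]
    nlinarith
  nlinarith

theorem tanh_7538 (x : ℝ) (hx : 0 < x) : 2 * (1 - Real.exp (-x)) ≤ x * (1 + Real.exp (-x)) := by
  have hmono : MonotoneOn (fun y : ℝ => y * (1 + Real.exp (-y)) - 2 * (1 - Real.exp (-y)))
      (Ici 0) := by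
    refine monotoneOn_of_deriv_nonneg (convex_Ici 0) (by fun_prop) (by fun_prop) ?_
    intro y hy
    rw [interior_Ici] at hy
    have hd : HasDerivAt (fun y : ℝ => y * (1 + Real.exp (-y)) - 2 * (1 - Real.exp (-y)))
        (1 * (1 + Real.exp (-y)) + y * (0 + Real.exp (-y) * (-1)) -
          2 * (0 - Real.exp (-y) * (-1))) y := by
      have he : HasDerivAt (fun y : ℝ => Real.exp (-y)) (Real.exp (-y) * (-1)) y :=
        (hasDerivAt_neg y).exp
      have h1 := (hasDerivAt_id y).mul ((hasDerivAt_const y (1:ℝ)).add he)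
      have h2 := ((hasDerivAt_const y (1:ℝ)).sub he).const_mul 2
      exact h1.sub h2
    rw [hd.deriv]
    have h3 : 1 + y ≤ Real.exp y := by linarith [Real.add_one_le_exp y]
    have h4 : Real.exp (-y) * (1 + y) ≤ 1 := by
      calc Real.exp (-y) * (1 + y) ≤ Real.exp (-y) * Real.exp y :=
          mul_le_mul_of_nonneg_left h3 (Real.exp_pos _).le
      _ = 1 := by rw [← Real.exp_add]; simp
    nlinarith
  have h := hmono (mem_Ici.2 le_rfl) (mem_Ici.2 hx.le) hx.le
  simp at h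
  linarith

theorem le_wt (s x : ℝ) (hx : 0 < x) : w0 s x + (5 / 2) * (w0 s x / x) ≤ (5 / 2) * wt s x := by
  unfold wt
  have h0 := w0_nonneg_7538 s x hx
  have h1 := E_lt_7538 x hx
  have h2 := tanh_7538 x hx
  have h3 : 0 < Real.exp (-x) := Real.exp_pos _
  have h4 : 1 + 5 / 2 / x ≤ 5 / 2 / (1 - Real.exp (-x)) := by
    rw [le_div_iff₀ h1]
    have : (1 + 5 / 2 / x) * (1 - Real.exp (-x)) = ((x + 5 / 2) * (1 - Real.exp (-x))) / x := by
      field_simp
    rw [this, div_le_iff₀ hx]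
    nlinarith
  calc w0 s x + (5 / 2) * (w0 s x / x) = w0 s x * (1 + 5 / 2 / x) := by ring
    _ ≤ w0 s x * (5 / 2 / (1 - Real.exp (-x))) := mul_le_mul_of_nonneg_left h4 h0
    _ = _ := by ring

theorem pk_cont_7538 (s : ℝ) (k : ℕ) : Continuous (pk s k) := by
  unfold pk Lag
  fun_prop

theorem w0_contOn_7538 (s : ℝ) : ContinuousOn (w0 s) (Ioi 0) := by
  unfold w0
  refine ContinuousOn.mul ?_ (by fun_prop)
  exact continuousOn_id.rpow_const fun x hx => Or.inl (ne_of_gt hx)

theorem wt_contOn_7538 (s : ℝ) : ContinuousOn (wt s) (Ioi 0) := by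
  unfold wt
  refine ContinuousOn.div (w0_contOn_7538 s) (by fun_prop) ?_
  intro x hx
  exact (E_lt_7538 x hx).ne'

theorem pk_sq_int_7538 (s : ℝ) (hs : 1 < s) (k : ℕ) :
    IntegrableOn (fun x : ℝ => pk s k x ^ 2 * (w0 s x + w0 s x / x)) (Ioi 0) := by
  have h1 := pk_orth_integrable s (by linarith) k k
  have h2 := pk_form_integrable s hs (fun i => if i = k then 1 else 0) (k + 1)
  refine (h1.add h2).congr_fun (fun x _ => ?_) measurableSet_Ioi
  have h3 : ∑ i ∈ Finset.range (k + 1), (if i = k then (1 : ℝ) else 0) * pk s i x = pk s k x := by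
    rw [Finset.sum_eq_single k]
    · simp
    · intro i _ hi; simp [hi]
    · intro h; simp at h
  simp only [Pi.add_apply]
  rw [h3]
  ring

theorem pk_wt_integrable (s : ℝ) (hs : 1 < s) (j k : ℕ) :
    IntegrableOn (fun x : ℝ => pk s j x * pk s k x * wt s x) (Ioi 0) := by
  refine Integrable.mono' ((pk_sq_int_7538 s hs j).add (pk_sq_int_7538 s hs k)) ?_ ?_
  · refine ContinuousOn.aestronglyMeasurable ?_ measurableSet_Ioi
    exact ((pk_cont_7538 s j).mul (pk_cont_7538 s k)).continuousOn.mul (wt_contOn_7538 s)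
  · refine (ae_restrict_iff' measurableSet_Ioi).2 (Eventually.of_forall fun x hx => ?_)
    have hx' : 0 < x := hx
    have h1 := wt_nonneg_7538 s x hx'
    have h2 := wt_le s x hx'
    simp only [Pi.add_apply]
    rw [Real.norm_eq_abs, abs_mul, abs_of_nonneg h1, ← add_mul]
    have h3 : |pk s j x * pk s k x| ≤ pk s j x ^ 2 + pk s k x ^ 2 := by
      rw [abs_le]
      constructor <;> nlinarith [sq_nonneg (pk s j x + pk s k x), sq_nonneg (pk s j x - pk s k x)]
    exact mul_le_mul h3 h2 h1 (by positivity)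

theorem expand_7538 (f : ℝ → ℝ) (p : ℕ → ℝ → ℝ)
    (hint : ∀ j k, IntegrableOn (fun x => p j x * p k x * f x) (Ioi 0)) (a : ℕ → ℝ) (N : ℕ) :
    IntegrableOn (fun x => (∑ k ∈ Finset.range N, a k * p k x) ^ 2 * f x) (Ioi 0) ∧
    ∫ x in Ioi (0 : ℝ), (∑ k ∈ Finset.range N, a k * p k x) ^ 2 * f x =
      ∑ k ∈ Finset.range N, ∑ l ∈ Finset.range N,
        a k * a l * ∫ x in Ioi (0 : ℝ), p k x * p l x * f x := by
  have h1 : (fun x => (∑ k ∈ Finset.range N, a k * p k x) ^ 2 * f x) =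
      fun x => ∑ k ∈ Finset.range N, ∑ l ∈ Finset.range N, a k * a l * (p k x * p l x * f x) := by
    funext x
    rw [pow_two, Finset.sum_mul_sum, Finset.sum_mul]
    refine Finset.sum_congr rfl fun k _ => ?_
    rw [Finset.sum_mul]
    refine Finset.sum_congr rfl fun l _ => ?_
    ring
  have h2 : ∀ k l, IntegrableOn (fun x => a k * a l * (p k x * p l x * f x)) (Ioi 0) :=
    fun k l => (hint k l).const_mul _
  rw [h1]
  constructor
  · exact integrable_finsetSum _ fun k _ => integrable_finsetSum _ fun l _ => h2 k l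
  · rw [integral_finsetSum _ fun k _ => integrable_finsetSum _ fun l _ => h2 k l]
    refine Finset.sum_congr rfl fun k _ => ?_
    rw [integral_finsetSum _ fun l _ => h2 k l]
    refine Finset.sum_congr rfl fun l _ => ?_
    rw [integral_const_mul]

theorem form_eq_V (s : ℝ) (hs : 1 < s) (a : ℕ → ℝ) (N m : ℕ) :
    ∫ x in Ioi (0 : ℝ), (∑ k ∈ Finset.range N, a k * pk s (k + m) x) ^ 2 * wt s x
      = ∑ k ∈ Finset.range N, ∑ l ∈ Finset.range N, a k * a l * V s (k + m) (l + m) :=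
  (expand_7538 (wt s) (fun k => pk s (k + m)) (fun j k => pk_wt_integrable s hs _ _) a N).2

theorem wt_int_7538 (s : ℝ) (hs : 1 < s) (a : ℕ → ℝ) (N m : ℕ) :
    IntegrableOn (fun x => (∑ k ∈ Finset.range N, a k * pk s (k + m) x) ^ 2 * wt s x) (Ioi 0) :=
  (expand_7538 (wt s) (fun k => pk s (k + m)) (fun j k => pk_wt_integrable s hs _ _) a N).1

theorem w0_int_7538 (s : ℝ) (hs : 1 < s) (a : ℕ → ℝ) (N m : ℕ) :
    IntegrableOn (fun x => (∑ k ∈ Finset.range N, a k * pk s (k + m) x) ^ 2 * w0 s x) (Ioi 0) :=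
  (expand_7538 (w0 s) (fun k => pk s (k + m))
    (fun j k => pk_orth_integrable s (by linarith) _ _) a N).1

theorem w0_form_7538 (s : ℝ) (hs : 1 < s) (a : ℕ → ℝ) (N m : ℕ) :
    ∫ x in Ioi (0 : ℝ), (∑ k ∈ Finset.range N, a k * pk s (k + m) x) ^ 2 * w0 s x
      = ∑ k ∈ Finset.range N, a k ^ 2 := by
  rw [(expand_7538 (w0 s) (fun k => pk s (k + m))
    (fun j k => pk_orth_integrable s (by linarith) _ _) a N).2]
  refine Finset.sum_congr rfl fun k hk => ?_
  rw [Finset.sum_eq_single k]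
  · rw [pk_orth s (by linarith), if_pos rfl]; ring
  · intro l _ hl
    rw [pk_orth s (by linarith), if_neg (by omega), mul_zero]
  · intro h; exact absurd hk h

theorem shift_sum_7538 (s : ℝ) (a : ℕ → ℝ) (N : ℕ) (x : ℝ) :
    ∑ k ∈ Finset.range (N + 1), (fun k : ℕ => if k = 0 then 0 else a (k - 1)) k * pk s k x =
      ∑ k ∈ Finset.range N, a k * pk s (k + 1) x := by
  rw [Finset.sum_range_succ']
  simp

theorem gam_7538 (nu : ℝ) (hnu : 0 < nu) (i : ℕ) :
    Real.Gamma ((i + 1 : ℕ) + nu) / ((i + 1).factorial : ℝ) =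
      Real.Gamma (i + nu) / (i.factorial : ℝ) * (i + nu) / (i + 1) := by
  have h1 : ((i + 1 : ℕ) : ℝ) + nu = (i + nu) + 1 := by push_cast; ring
  have h2 : (i : ℝ) + nu ≠ 0 := by positivity
  rw [h1, Real.Gamma_add_one h2, Nat.factorial_succ]
  push_cast
  have h3 : (i.factorial : ℝ) ≠ 0 := by positivity
  field_simp

theorem shift_form_7538 (s : ℝ) (hs : 1 < s) (a : ℕ → ℝ) (N : ℕ) :
    IntegrableOn (fun x => (∑ k ∈ Finset.range N, a k * pk s (k + 1) x) ^ 2 * (w0 s x / x))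
      (Ioi 0) ∧
    ∫ x in Ioi (0 : ℝ), (∑ k ∈ Finset.range N, a k * pk s (k + 1) x) ^ 2 * (w0 s x / x) ≤
      (5 / 2) * ∫ x in Ioi (0 : ℝ), (∑ k ∈ Finset.range N, a k * pk s k x) ^ 2 *
        (w0 s x / x) := by
  have hb1 := pk_form_integrable s hs (fun k : ℕ => if k = 0 then 0 else a (k - 1)) (N + 1)
  have hb2 := pk_form s hs (fun k : ℕ => if k = 0 then 0 else a (k - 1)) (N + 1)
  simp only [shift_sum_7538] at hb1 hb2
  refine ⟨hb1, ?_⟩
  rw [hb2, pk_form s hs a N]
  have hcc : 0 < cc ^ (s + 1) := Real.rpow_pos_of_pos cc_pos _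
  have hs0 : 0 < s := by linarith
  obtain ⟨nu, hnu⟩ : ∃ nu, nu = s - 1 := ⟨_, rfl⟩
  have hnu0 : 0 < nu := by rw [hnu]; linarith
  obtain ⟨g, hg⟩ : ∃ g : ℕ → ℝ, g = fun i : ℕ => Real.Gamma (i + (s - 1)) / i.factorial := ⟨_, rfl⟩
  have hX : ∀ i, ∑ k ∈ Finset.Ico (i + 1) (N + 1), (if k = 0 then 0 else a (k - 1)) / nk s k =
      ∑ k ∈ Finset.Ico i N, √(((k : ℝ) + 1) / (k + 1 + nu)) * (a k / nk s k) := by
    intro i
    rw [← Finset.sum_Ico_add' (fun k => (if k = 0 then 0 else a (k - 1)) / nk s k) i N 1]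
    refine Finset.sum_congr rfl fun k _ => ?_
    simp only [Nat.add_eq_zero_iff, one_ne_zero, and_false, if_false, Nat.add_sub_cancel]
    rw [nk_succ s hs0]
    have h1 : ((k : ℝ) + 1) / (k + 1 + nu) = ((k + s) / (k + 1))⁻¹ := by
      rw [inv_div, hnu]; congr 1; ring
    rw [h1, Real.sqrt_inv]
    have h2 := (nk_pos s hs0 k).ne'
    have h3 : √((k + s) / (k + 1)) ≠ 0 := by
      have : (0 : ℝ) < (k + s) / (k + 1) := by positivity
      exact (Real.sqrt_pos.2 this).ne'
    field_simp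
  have hX0 : ∑ k ∈ Finset.Ico 0 (N + 1), (if k = 0 then 0 else a (k - 1)) / nk s k =
      ∑ k ∈ Finset.Ico 0 N, √(((k : ℝ) + 1) / (k + 1 + nu)) * (a k / nk s k) := by
    rw [← hX 0, Finset.sum_eq_sum_Ico_succ_bot (by omega)]
    simp
  have hL : ∑ i ∈ Finset.range (N + 1), Real.Gamma (i + (s - 1)) / i.factorial
          * (∑ k ∈ Finset.Ico i (N + 1), (if k = 0 then 0 else a (k - 1)) / nk s k) ^ 2 ≤
      (5 / 2) * ∑ i ∈ Finset.range N, Real.Gamma (i + (s - 1)) / i.factorial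
          * (∑ k ∈ Finset.Ico i N, a k / nk s k) ^ 2 := by
    have hg0 : 0 < g 0 := by
      rw [hg]
      simp only [Nat.cast_zero, zero_add, Nat.factorial_zero, Nat.cast_one, div_one]
      exact Real.Gamma_pos_of_pos (by linarith)
    have hgs : ∀ i : ℕ, g (i + 1) = g i * (i + nu) / (i + 1) := by
      intro i
      rw [hg, hnu]
      exact gam_7538 (s - 1) (by linarith) i
    have hh := hardy nu hnu0 g hg0 hgs (fun k => a k / nk s k) N
    rw [Finset.sum_range_succ']
    have hgi : ∀ i : ℕ, Real.Gamma (i + (s - 1)) / i.factorial = g i := fun i => by rw [hg]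
    simp only [hgi, hX, hX0]
    rw [Finset.range_eq_Ico]
    rcases Nat.eq_zero_or_pos N with rfl | hN
    · simp
    · rw [Finset.sum_eq_sum_Ico_succ_bot hN]
      refine le_trans (le_of_eq ?_) hh
      ring
  calc cc ^ (s + 1) * ∑ i ∈ Finset.range (N + 1), Real.Gamma (i + (s - 1)) / i.factorial
          * (∑ k ∈ Finset.Ico i (N + 1), (if k = 0 then 0 else a (k - 1)) / nk s k) ^ 2
      ≤ cc ^ (s + 1) * ((5 / 2) * ∑ i ∈ Finset.range N, Real.Gamma (i + (s - 1)) / i.factorial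
          * (∑ k ∈ Finset.Ico i N, a k / nk s k) ^ 2) := mul_le_mul_of_nonneg_left hL hcc.le
    _ = _ := by ring

/-- the shift inequality -/
theorem shift_real (s : ℝ) (hs : 1 < s) (a : ℕ → ℝ) (N : ℕ) :
    ∑ k ∈ Finset.range N, ∑ l ∈ Finset.range N, a k * a l * V s (k + 1) (l + 1)
      ≤ (5 / 2) * ∑ k ∈ Finset.range N, ∑ l ∈ Finset.range N, a k * a l * V s k l := by
  have h0 := form_eq_V s hs a N 0
  simp only [Nat.add_zero] at h0
  rw [← form_eq_V s hs a N 1, ← h0]
  obtain ⟨hf1, hf2⟩ := shift_form_7538 s hs a N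
  have i1 := w0_int_7538 s hs a N 1
  have i0 := w0_int_7538 s hs a N 0
  have w1 := w0_form_7538 s hs a N 1
  have w00 := w0_form_7538 s hs a N 0
  have j0 := wt_int_7538 s hs a N 0
  simp only [Nat.add_zero] at i0 w00 j0
  have f0 := pk_form_integrable s hs a N
  calc ∫ x in Ioi (0 : ℝ), (∑ k ∈ Finset.range N, a k * pk s (k + 1) x) ^ 2 * wt s x
      ≤ ∫ x in Ioi (0 : ℝ), ((∑ k ∈ Finset.range N, a k * pk s (k + 1) x) ^ 2 * w0 s x +
          (∑ k ∈ Finset.range N, a k * pk s (k + 1) x) ^ 2 * (w0 s x / x)) := by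
        refine setIntegral_mono_on (wt_int_7538 s hs a N 1) (i1.add hf1) measurableSet_Ioi ?_
        intro x hx
        rw [← mul_add]
        exact mul_le_mul_of_nonneg_left (wt_le s x hx) (sq_nonneg _)
    _ = (∫ x in Ioi (0 : ℝ), (∑ k ∈ Finset.range N, a k * pk s (k + 1) x) ^ 2 * w0 s x) +
          ∫ x in Ioi (0 : ℝ), (∑ k ∈ Finset.range N, a k * pk s (k + 1) x) ^ 2 * (w0 s x / x) :=
        integral_add i1 hf1
    _ ≤ (∫ x in Ioi (0 : ℝ), (∑ k ∈ Finset.range N, a k * pk s k x) ^ 2 * w0 s x) +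
          (5 / 2) * ∫ x in Ioi (0 : ℝ), (∑ k ∈ Finset.range N, a k * pk s k x) ^ 2 *
            (w0 s x / x) := by
        rw [w1, w00]
        exact add_le_add_right hf2 _
    _ = ∫ x in Ioi (0 : ℝ), ((∑ k ∈ Finset.range N, a k * pk s k x) ^ 2 * w0 s x +
          (5 / 2) * ((∑ k ∈ Finset.range N, a k * pk s k x) ^ 2 * (w0 s x / x))) := by
        rw [integral_add i0 (f0.const_mul _), integral_const_mul]
    _ ≤ ∫ x in Ioi (0 : ℝ), (5 / 2) * ((∑ k ∈ Finset.range N, a k * pk s k x) ^ 2 * wt s x) := by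
        refine setIntegral_mono_on (i0.add (f0.const_mul _)) (j0.const_mul _) measurableSet_Ioi ?_
        intro x hx
        have h1 := mul_le_mul_of_nonneg_left (le_wt s x hx)
          (sq_nonneg (∑ k ∈ Finset.range N, a k * pk s k x))
        nlinarith
    _ = _ := integral_const_mul _ _

theorem gsum_7538 (nu : ℝ) (hnu : 0 < nu) (k : ℕ) :
    ∑ i ∈ Finset.range (k + 1), Real.Gamma (i + nu) / (i.factorial : ℝ) =
      Real.Gamma (k + 1 + nu) / (k.factorial * nu) := by
  induction k with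
  | zero =>
    simp only [zero_add, Finset.sum_range_one, Nat.cast_zero, Nat.factorial_zero, Nat.cast_one,
      div_one, one_mul]
    rw [add_comm 1 nu, Real.Gamma_add_one hnu.ne']
    field_simp
  | succ k ih =>
    rw [Finset.sum_range_succ, ih, Nat.factorial_succ]
    have h1 : (((k + 1 : ℕ) : ℝ)) + 1 + nu = (k + 1 + nu) + 1 := by push_cast; ring
    have h2 : ((k + 1 : ℕ) : ℝ) + nu = k + 1 + nu := by push_cast; ring
    have h3 : (k : ℝ) + 1 + nu ≠ 0 := by positivity
    rw [h1, h2, Real.Gamma_add_one h3]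
    push_cast
    have h4 : (k.factorial : ℝ) ≠ 0 := by positivity
    field_simp

/-- the diagonal is bounded -/
theorem V_diag_le (s : ℝ) (hs : 1 < s) (k : ℕ) : V s k k ≤ 1 + cc / (s - 1) := by
  have hs0 : 0 < s := by linarith
  have e3 : ∀ x, ∑ i ∈ Finset.range (k + 1), (fun i : ℕ => if i = k then (1 : ℝ) else 0) i *
      pk s i x = pk s k x := by
    intro x
    rw [Finset.sum_eq_single k]
    · simp
    · intro i _ hi; simp [hi]
    · intro h; simp at h
  have f0 := pk_form_integrable s hs (fun i : ℕ => if i = k then (1 : ℝ) else 0) (k + 1)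
  have f1 := pk_form s hs (fun i : ℕ => if i = k then (1 : ℝ) else 0) (k + 1)
  simp only [e3] at f0 f1
  have hcc := cc_pos
  have hsum : ∑ i ∈ Finset.range (k + 1), Real.Gamma (i + (s - 1)) / i.factorial
          * (∑ j ∈ Finset.Ico i (k + 1), (if j = k then (1 : ℝ) else 0) / nk s j) ^ 2 =
      (Real.Gamma (k + 1 + (s - 1)) / (k.factorial * (s - 1))) * (1 / nk s k) ^ 2 := by
    rw [← gsum_7538 (s - 1) (by linarith) k, Finset.sum_mul]
    refine Finset.sum_congr rfl fun i hi => ?_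
    rw [Finset.mem_range] at hi
    congr 2
    rw [Finset.sum_eq_single k]
    · simp
    · intro j _ hj; simp [hj]
    · intro h; exact absurd (Finset.mem_Ico.2 ⟨by omega, by omega⟩) h
  rw [hsum] at f1
  have i0 := pk_orth_integrable s hs0 k k
  unfold V
  calc ∫ x in Ioi (0 : ℝ), pk s k x * pk s k x * wt s x
      ≤ ∫ x in Ioi (0 : ℝ), (pk s k x * pk s k x * w0 s x + pk s k x ^ 2 * (w0 s x / x)) := by
        refine setIntegral_mono_on (pk_wt_integrable s hs k k) (i0.add f0) measurableSet_Ioi ?_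
        intro x hx
        have := mul_le_mul_of_nonneg_left (wt_le s x hx) (mul_self_nonneg (pk s k x))
        nlinarith
    _ = 1 + cc ^ (s + 1) * ((Real.Gamma (k + 1 + (s - 1)) / (k.factorial * (s - 1))) *
          (1 / nk s k) ^ 2) := by
        rw [integral_add i0 f0, pk_orth s hs0, if_pos rfl, f1]
    _ = 1 + cc / (s - 1) := by
        congr 1
        rw [one_div, inv_pow, nk_sq s hs0, show (k : ℝ) + 1 + (s - 1) = k + s by ring,
          Real.rpow_add hcc, Real.rpow_one]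
        have h1 : Real.Gamma (k + s) ≠ 0 := (Real.Gamma_pos_of_pos (by positivity)).ne'
        have h2 : (k.factorial : ℝ) ≠ 0 := by positivity
        have h3 : cc ^ s ≠ 0 := (Real.rpow_pos_of_pos hcc _).ne'
        have h4 : s - 1 ≠ 0 := by linarith
        field_simp
    _ ≤ _ := le_rfl

end Pool.Agent.Helper242.RM
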